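import Pool.Agent.VisGraph.Defs

/-!
# Basic facts on `beta` and `f`
-/

namespace Pool.Agent.VisGraph

open Finset

/-- The covering set by single edges. -/
lemma exists_covering {n : ℕ} [NeZero n] (G : SimpleGraph (ZMod n)) :
    ∃ C : Covering G, C.size ≤ 2 * n ^ 2 := by
  classical
  set S : Finset (ZMod n × ZMod n) := (Finset.univ : Finset (ZMod n × ZMod n)).filter
    fun e => G.Adj e.1 e.2 with hS
  refine ⟨⟨0, S.val.map fun e => ({e.1}, {e.2}), ?_, ?_, ?_⟩, ?_⟩
  · intro C hC
    simp at hC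
  · intro B hB
    obtain ⟨e, he, rfl⟩ := Multiset.mem_map.mp hB
    have he' : G.Adj e.1 e.2 := by
      have : e ∈ S := he
      rw [hS, Finset.mem_filter] at this
      exact this.2
    refine ⟨Finset.singleton_nonempty _, Finset.singleton_nonempty _, ?_, ?_⟩
    · rw [Finset.disjoint_singleton]
      exact he'.ne
    · intro u hu v hv
      rw [Finset.mem_singleton] at hu hv
      subst hu hv
      exact he'
  · intro u v huv
    right
    refine ⟨({u}, {v}), ?_, Or.inl ⟨by simp, by simp⟩⟩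
    apply Multiset.mem_map.mpr
    exact ⟨(u, v), by change (u, v) ∈ S; rw [hS, Finset.mem_filter]; exact ⟨Finset.mem_univ _, huv⟩, rfl⟩
  · unfold Covering.size
    simp only [Multiset.map_zero, Multiset.sum_zero, zero_add, Multiset.map_map,
      Function.comp_apply, Finset.card_singleton, Multiset.map_const', Multiset.sum_replicate,
      smul_eq_mul]
    have h1 : S.val.card ≤ n ^ 2 := by
      have : S.card ≤ (Finset.univ : Finset (ZMod n × ZMod n)).card := Finset.card_filter_le _ _
      rw [Finset.card_univ, Fintype.card_prod, ZMod.card] at this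
      rw [sq]
      exact this
    omega

lemma beta_le {n : ℕ} {G : SimpleGraph (ZMod n)} (C : Covering G) : beta G ≤ C.bits :=
  Nat.sInf_le ⟨C, rfl⟩

lemma exists_bits_eq_beta {n : ℕ} [NeZero n] (G : SimpleGraph (ZMod n)) :
    ∃ C : Covering G, C.bits = beta G := by
  have : (Set.range fun C : Covering G => C.bits).Nonempty := by
    obtain ⟨C, _⟩ := exists_covering G
    exact ⟨_, C, rfl⟩
  exact Nat.sInf_mem this

lemma beta_le_trivial {n : ℕ} [NeZero n] (G : SimpleGraph (ZMod n)) :
    beta G ≤ Nat.clog 2 n * (2 * n ^ 2) := by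
  obtain ⟨C, hC⟩ := exists_covering G
  exact le_trans (beta_le C) (Nat.mul_le_mul_left _ hC)

lemma bddAbove_f (n : ℕ) :
    BddAbove {b | ∃ P : ZMod n → ℂ, IsSimplePolygon P ∧ beta (visGraph P) = b} := by
  refine ⟨Nat.clog 2 n * (2 * n ^ 2), ?_⟩
  rintro b ⟨P, hP, rfl⟩
  have : NeZero n := ⟨by have := hP.three_le; omega⟩
  exact beta_le_trivial _

lemma le_f {n : ℕ} {P : ZMod n → ℂ} (hP : IsSimplePolygon P) : beta (visGraph P) ≤ f n :=
  le_csSup (bddAbove_f n) ⟨P, hP, rfl⟩

lemma f_le {n : ℕ} {B : ℕ} (h : ∀ P : ZMod n → ℂ, IsSimplePolygon P → beta (visGraph P) ≤ B) :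
    f n ≤ B := by
  unfold f
  rcases Set.eq_empty_or_nonempty
    {b | ∃ P : ZMod n → ℂ, IsSimplePolygon P ∧ beta (visGraph P) = b} with h0 | h0
  · rw [h0]; simp
  · apply csSup_le h0
    rintro b ⟨P, hP, rfl⟩
    exact h P hP

/-- If a simple polygon with `n` vertices exists then `f n` is a maximum. -/
lemma f_isGreatest {n : ℕ} (h : ∃ P : ZMod n → ℂ, IsSimplePolygon P) :
    IsGreatest {b | ∃ P : ZMod n → ℂ, IsSimplePolygon P ∧ beta (visGraph P) = b} (f n) := by
  constructor
  · apply Nat.sSup_mem _ (bddAbove_f n)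
    obtain ⟨P, hP⟩ := h
    exact ⟨_, P, hP, rfl⟩
  · rintro b ⟨P, hP, rfl⟩
    exact le_f hP

end Pool.Agent.VisGraph
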