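import Pool.Agent.VisGraph.CoverAll
import Pool.Agent.VisGraph.Basic

/-!
# The combinatorial upper bound
-/

namespace Pool.Agent.VisGraph

open Finset

/-- From a family to a multiset of bicliques. -/
lemma fam_to_multiset {V : Type*} [Fintype V] {G : SimpleGraph V} {adj : ℤ → ℤ → Prop} {K : ℕ}
    (F : Fam adj K) (e : V → ℤ) (he : ∀ u v, adj (e u) (e v) → G.Adj u v) :
    ∃ M : Multiset (Finset V × Finset V),
      (∀ B ∈ M, B.1.Nonempty ∧ B.2.Nonempty ∧ Disjoint B.1 B.2 ∧
        ∀ u ∈ B.1, ∀ v ∈ B.2, G.Adj u v) ∧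
      (∀ u v, Covd F (e u) (e v) → ∃ B ∈ M, u ∈ B.1 ∧ v ∈ B.2) ∧
      (M.map fun B => B.1.card + B.2.card).sum ≤ 2 * Fintype.card V * (2 * K ^ 2 + 1) := by
  classical
  choose SA hSA1 hSA2 using fun u : V => F.cntA (e u)
  choose SB hSB1 hSB2 using fun u : V => F.cntB (e u)
  set S : Finset Key := (Finset.univ : Finset V).biUnion SA with hS
  set A : Key → Finset V := fun k => Finset.univ.filter fun u => F.inA k (e u) with hA
  set B : Key → Finset V := fun k => Finset.univ.filter fun u => F.inB k (e u) with hB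
  set T : Finset Key := S.filter fun k => (A k).Nonempty ∧ (B k).Nonempty with hT
  have hadj : ∀ k, ∀ u ∈ A k, ∀ v ∈ B k, G.Adj u v := by
    intro k u hu v hv
    apply he
    exact F.sound k _ _ (Finset.mem_filter.mp hu).2 (Finset.mem_filter.mp hv).2
  refine ⟨T.val.map fun k => (A k, B k), ?_, ?_, ?_⟩
  · intro R hR
    obtain ⟨k, hk, rfl⟩ := Multiset.mem_map.mp hR
    have hk' : k ∈ T := hk
    rw [hT, Finset.mem_filter] at hk'
    refine ⟨hk'.2.1, hk'.2.2, ?_, hadj k⟩
    rw [Finset.disjoint_left]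
    intro u hu hu'
    exact (hadj k u hu u hu').ne rfl
  · rintro u v ⟨k, hkA, hkB⟩
    refine ⟨(A k, B k), ?_, ?_, ?_⟩
    · apply Multiset.mem_map_of_mem (fun k => (A k, B k))
      change k ∈ T
      rw [hT, Finset.mem_filter, hS, Finset.mem_biUnion]
      refine ⟨⟨u, Finset.mem_univ _, hSA2 u k hkA⟩, ⟨u, ?_⟩, ⟨v, ?_⟩⟩
      · exact Finset.mem_filter.mpr ⟨Finset.mem_univ _, hkA⟩
      · exact Finset.mem_filter.mpr ⟨Finset.mem_univ _, hkB⟩
    · exact Finset.mem_filter.mpr ⟨Finset.mem_univ _, hkA⟩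
    · exact Finset.mem_filter.mpr ⟨Finset.mem_univ _, hkB⟩
  · rw [Multiset.map_map]
    change ∑ k ∈ T, ((A k).card + (B k).card) ≤ _
    rw [Finset.sum_add_distrib]
    have h1 : ∑ k ∈ T, (A k).card ≤ Fintype.card V * (2 * K ^ 2 + 1) := by
      have e1 : ∑ k ∈ T, (A k).card = ∑ u : V, (T.filter fun k => F.inA k (e u)).card := by
        simp_rw [hA, Finset.card_filter]
        exact Finset.sum_comm
      rw [e1, ← Finset.card_univ, ← smul_eq_mul]
      apply Finset.sum_le_card_nsmul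
      intro u _
      refine le_trans (Finset.card_le_card ?_) (hSA1 u)
      intro k hk
      exact hSA2 u k (Finset.mem_filter.mp hk).2
    have h2 : ∑ k ∈ T, (B k).card ≤ Fintype.card V * (2 * K ^ 2 + 1) := by
      have e1 : ∑ k ∈ T, (B k).card = ∑ u : V, (T.filter fun k => F.inB k (e u)).card := by
        simp_rw [hB, Finset.card_filter]
        exact Finset.sum_comm
      rw [e1, ← Finset.card_univ, ← smul_eq_mul]
      apply Finset.sum_le_card_nsmul
      intro u _
      refine le_trans (Finset.card_le_card ?_) (hSB1 u)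
      intro k hk
      exact hSB2 u k (Finset.mem_filter.mp hk).2
    calc _ ≤ Fintype.card V * (2 * K ^ 2 + 1) + Fintype.card V * (2 * K ^ 2 + 1) := add_le_add h1 h2
      _ = _ := by ring

/-- A list of families gives a multiset of bicliques. -/
lemma fams_to_multiset {V : Type*} [Fintype V] {G : SimpleGraph V} {adj : ℤ → ℤ → Prop} {K : ℕ}
    (l : List (Fam adj K)) (e : V → ℤ) (he : ∀ u v, adj (e u) (e v) → G.Adj u v) :
    ∃ M : Multiset (Finset V × Finset V),
      (∀ B ∈ M, B.1.Nonempty ∧ B.2.Nonempty ∧ Disjoint B.1 B.2 ∧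
        ∀ u ∈ B.1, ∀ v ∈ B.2, G.Adj u v) ∧
      (∀ u v, (∃ F ∈ l, Covd F (e u) (e v)) → ∃ B ∈ M, u ∈ B.1 ∧ v ∈ B.2) ∧
      (M.map fun B => B.1.card + B.2.card).sum ≤
        l.length * (2 * Fintype.card V * (2 * K ^ 2 + 1)) := by
  induction l with
  | nil => exact ⟨0, by simp, by simp, by simp⟩
  | cons F l ih =>
    obtain ⟨M, h1, h2, h3⟩ := ih
    obtain ⟨M', h1', h2', h3'⟩ := fam_to_multiset F e he
    refine ⟨M' + M, ?_, ?_, ?_⟩
    · intro B hB
      rcases Multiset.mem_add.mp hB with h | h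
      · exact h1' B h
      · exact h1 B h
    · rintro u v ⟨F', hF', hc⟩
      rcases List.mem_cons.mp hF' with rfl | h
      · obtain ⟨B, hB, hB'⟩ := h2' u v hc
        exact ⟨B, Multiset.mem_add.mpr (Or.inl hB), hB'⟩
      · obtain ⟨B, hB, hB'⟩ := h2 u v ⟨F', h, hc⟩
        exact ⟨B, Multiset.mem_add.mpr (Or.inr hB), hB'⟩
    · rw [Multiset.map_add, Multiset.sum_add, List.length_cons]
      calc _ ≤ 2 * Fintype.card V * (2 * K ^ 2 + 1) +
            l.length * (2 * Fintype.card V * (2 * K ^ 2 + 1)) := add_le_add h3' h3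
        _ = _ := by ring

/-- A graph on `ZMod n` with property `(H)` with respect to the order of representatives has a
small covering set. -/
theorem comb_upper {n : ℕ} [NeZero n] (G : SimpleGraph (ZMod n))
    (hH : ∀ f a b c d e : ZMod n, f.val < a.val → a.val < b.val → b.val < c.val → c.val < d.val →
      d.val < e.val → G.Adj a c → G.Adj a e → G.Adj b d → G.Adj f d → G.Adj a d) :
    ∃ C : Covering G, C.size ≤ 36 * n * (2 * (Nat.clog 2 n) ^ 2 + 1) := by
  classical
  set K := Nat.clog 2 n with hK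
  set adj : ℤ → ℤ → Prop := fun x y => ∃ u v : ZMod n, (u.val : ℤ) = x ∧ (v.val : ℤ) = y ∧ G.Adj u v
    with hadj
  have hval : ∀ u v : ZMod n, (u.val : ℤ) = (v.val : ℤ) → u = v := by
    intro u v h
    exact ZMod.val_injective n (by exact_mod_cast h)
  have hs : ∀ x y, adj x y → adj y x := by
    rintro x y ⟨u, v, h1, h2, h3⟩
    exact ⟨v, u, h2, h1, h3.symm⟩
  have H : HProp adj := by
    rintro f a b c d e h1 h2 h3 h4 h5 ⟨ua, uc, hua, huc, hac⟩ ⟨ua', ue, hua', hue, hae⟩
      ⟨ub, ud, hub, hud, hbd⟩ ⟨uf, ud', huf, hud', hfd⟩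
    obtain rfl := hval ua ua' (by rw [hua, hua'])
    obtain rfl := hval ud ud' (by rw [hud, hud'])
    refine ⟨ua, ud, hua, hud, ?_⟩
    exact hH uf ua ub uc ud ue (by omega) (by omega) (by omega) (by omega) (by omega) hac hae hbd hfd
  have hsupp : ∀ x y, adj x y → pf K x = 0 := by
    rintro x y ⟨u, v, h1, _, _⟩
    rw [← h1]
    unfold pf
    apply Int.ediv_eq_zero_of_lt (by positivity)
    have h2 := ZMod.val_lt u
    have h3 : n ≤ 2 ^ K := Nat.le_pow_clog (by norm_num) n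
    have h4 : u.val < 2 ^ K := by omega
    exact_mod_cast h4
  obtain ⟨M1, a1, b1, c1⟩ := fams_to_multiset (G := G) (fams hs H K) (fun u : ZMod n => (u.val : ℤ)) (by
    rintro u v ⟨u', v', h1, h2, h3⟩
    obtain rfl := hval _ _ h1
    obtain rfl := hval _ _ h2
    exact h3)
  obtain ⟨M2, a2, b2, c2⟩ := fams_to_multiset (G := G) (fams (mir_symm hs) (H.mir hs) K)
    (fun u : ZMod n => -1 - (u.val : ℤ)) (by
    rintro u v ⟨u', v', h1, h2, h3⟩
    obtain rfl := hval u' u (by rw [h1]; ring)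
    obtain rfl := hval v' v (by rw [h2]; ring)
    exact h3)
  refine ⟨⟨0, M1 + M2, by simp, ?_, ?_⟩, ?_⟩
  · intro B hB
    rcases Multiset.mem_add.mp hB with h | h
    · exact a1 B h
    · exact a2 B h
  · intro u v huv
    right
    have key : ∀ u v : ZMod n, G.Adj u v → u.val < v.val →
        ∃ B ∈ M1 + M2, (u ∈ B.1 ∧ v ∈ B.2) ∨ (u ∈ B.2 ∧ v ∈ B.1) := by
      intro u v huv hlt
      have had : adj (u.val : ℤ) (v.val : ℤ) := ⟨u, v, rfl, rfl, huv⟩
      rcases cover_all hs H K hsupp had (by exact_mod_cast hlt) with h | h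
      · obtain ⟨B, hB, h1, h2⟩ := b1 u v h
        exact ⟨B, Multiset.mem_add.mpr (Or.inl hB), Or.inl ⟨h1, h2⟩⟩
      · obtain ⟨B, hB, h1, h2⟩ := b2 v u h
        exact ⟨B, Multiset.mem_add.mpr (Or.inr hB), Or.inr ⟨h2, h1⟩⟩
    rcases Nat.lt_trichotomy u.val v.val with h | h | h
    · exact key u v huv h
    · exact absurd (ZMod.val_injective n h) huv.ne
    · obtain ⟨B, hB, h1⟩ := key v u huv.symm h
      refine ⟨B, hB, ?_⟩
      rcases h1 with ⟨h1, h2⟩ | ⟨h1, h2⟩
      · exact Or.inr ⟨h2, h1⟩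
      · exact Or.inl ⟨h2, h1⟩
  · unfold Covering.size
    simp only [Multiset.map_zero, Multiset.sum_zero, zero_add, Multiset.map_add, Multiset.sum_add]
    have l1 : (fams hs H K).length = 9 := rfl
    have l2 : (fams (mir_symm hs) (H.mir hs) K).length = 9 := rfl
    rw [l1, ZMod.card] at c1
    rw [l2, ZMod.card] at c2
    calc _ ≤ 9 * (2 * n * (2 * K ^ 2 + 1)) + 9 * (2 * n * (2 * K ^ 2 + 1)) := add_le_add c1 c2
      _ = _ := by ring

end Pool.Agent.VisGraph
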