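import Pool.Agent.VisGraph.Chord
import Pool.Agent.VisGraph.CombUpper
import Pool.Agent.VisGraph.Basic

/-!
# The upper bound for all simple polygons
-/

namespace Pool.Agent.VisGraph

open Complex Set Filter Topology

variable {n : ℕ} {P : ZMod n → ℂ}

lemma natCast_ne {i j : ℕ} (h1 : i < j) (h2 : j < i + n) : (i : ZMod n) ≠ (j : ZMod n) := by
  intro h
  rw [ZMod.natCast_eq_natCast_iff] at h
  have h3 := (Nat.modEq_iff_dvd' h1.le).1 h
  have h4 := Nat.le_of_dvd (by omega) h3
  omega

/-- A simple polygon indexed by `ZMod n` as a periodic sequence. -/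
lemma IsSimplePolygon.sp (hP : IsSimplePolygon P) : SP n fun k : ℕ => P (k : ZMod n) := by
  have hn := hP.three_le
  refine ⟨hn, ?_, ?_, ?_, ?_⟩
  · intro k
    show P ((k + n : ℕ) : ZMod n) = P (k : ZMod n)
    rw [Nat.cast_add, ZMod.natCast_self, add_zero]
  · intro i j h1 h2 h3
    exact natCast_ne h1 h2 (hP.injective h3)
  · intro k
    have := hP.consecutive (k : ZMod n)
    simpa using this
  · intro i j h1 h2
    have := hP.disjoint (i : ZMod n) (j : ZMod n) ?_ ?_ ?_
    · simpa using this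
    · exact (natCast_ne (by omega) (by omega)).symm
    · have h3 := (natCast_ne (n := n) (i := i + 1) (j := j) (by omega) (by omega)).symm
      simpa using h3
    · have h3 := (natCast_ne (n := n) (i := j + 1) (j := i + n) (by omega) (by omega)).symm
      simpa using h3

lemma boundary_eq_chain [NeZero n] : boundary P = chain (fun k : ℕ => P (k : ZMod n)) 0 n := by
  ext z
  simp only [boundary, mem_iUnion, chain, mem_ofPred_eq]
  constructor
  · rintro ⟨i, hi⟩
    refine ⟨i.val, Nat.zero_le _, ZMod.val_lt i, ?_⟩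
    simpa using hi
  · rintro ⟨k, -, -, hz⟩
    exact ⟨(k : ZMod n), by simpa using hz⟩

lemma region_eq_reg [NeZero n] : region P = reg n fun k : ℕ => P (k : ZMod n) := by
  unfold region reg
  rw [boundary_eq_chain]

/-- The visibility graph of a simple polygon has the interval property used for the upper
bound. -/
theorem visGraph_H (hP : IsSimplePolygon P) (f a b c d e : ZMod n) (h1 : f.val < a.val)
    (h2 : a.val < b.val) (h3 : b.val < c.val) (h4 : c.val < d.val) (h5 : d.val < e.val)
    (hac : (visGraph P).Adj a c) (hae : (visGraph P).Adj a e) (hbd : (visGraph P).Adj b d)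
    (hfd : (visGraph P).Adj f d) : (visGraph P).Adj a d := by
  have hn := hP.three_le
  have : NeZero n := ⟨by omega⟩
  obtain ⟨ε, U, J⟩ := jordan hP.sp
  have hreg : region P = Uᶜ := by rw [region_eq_reg, J.reg_eq]
  refine ⟨?_, ?_⟩
  · rintro rfl
    omega
  · rw [hreg]
    have he := ZMod.val_lt e
    have := four_chords hP.sp J (a := a.val) (b := b.val) (c := c.val) (d := d.val) (e := e.val)
      (f := f.val + n) h2 h3 h4 h5 (by omega) (by omega)
      (by
        have := hac.2
        rw [hreg] at this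
        simpa using this)
      (by
        have := hbd.2
        rw [hreg] at this
        simpa using this)
      (by
        have := hae.2
        rw [hreg] at this
        simpa using this)
      (by
        have := hfd.2
        rw [hreg, segment_symm] at this
        simpa using this)
    simpa using this

theorem size_upper (hP : IsSimplePolygon P) :
    ∃ C : Covering (visGraph P), C.size ≤ 36 * n * (2 * (Nat.clog 2 n) ^ 2 + 1) := by
  have hn := hP.three_le
  have : NeZero n := ⟨by omega⟩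
  exact comb_upper (visGraph P) (visGraph_H hP)

theorem f_upper_nat (n : ℕ) :
    f n ≤ Nat.clog 2 n * (36 * n * (2 * (Nat.clog 2 n) ^ 2 + 1)) := by
  apply f_le
  intro P hP
  obtain ⟨C, hC⟩ := size_upper hP
  exact (beta_le C).trans (Nat.mul_le_mul_left _ hC)

lemma clog_le_log {n : ℕ} (hn : 2 ≤ n) : (Nat.clog 2 n : ℝ) ≤ 3 * Real.log n := by
  have h1 : 2 ^ (Nat.clog 2 n - 1) < n := Nat.pow_pred_clog_lt_self (by norm_num) (by omega)
  have hc : 0 < Nat.clog 2 n := Nat.clog_pos (by norm_num) hn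
  have hlog2 := Real.log_two_gt_d9
  have hnR : (2 : ℝ) ≤ n := by exact_mod_cast hn
  have h2 : ((Nat.clog 2 n - 1 : ℕ) : ℝ) * Real.log 2 ≤ Real.log n := by
    rw [← Real.log_pow]
    apply Real.log_le_log (by positivity)
    exact_mod_cast h1.le
  have h3 : Real.log 2 ≤ Real.log n := Real.log_le_log (by norm_num) hnR
  have h4 : ((Nat.clog 2 n - 1 : ℕ) : ℝ) = (Nat.clog 2 n : ℝ) - 1 := by
    rw [Nat.cast_sub hc]; simp
  rw [h4] at h2
  have h5 : (Nat.clog 2 n : ℝ) * Real.log 2 ≤ 2 * Real.log n := by linarith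
  have h6 : (0 : ℝ) ≤ Nat.clog 2 n := Nat.cast_nonneg _
  nlinarith

theorem f_upper {n : ℕ} (hn : 2 ≤ n) : (f n : ℝ) ≤ 2592 * ((n : ℝ) * Real.log n ^ 3) := by
  have h1 : (f n : ℝ) ≤ (Nat.clog 2 n : ℝ) * (36 * n * (2 * (Nat.clog 2 n : ℝ) ^ 2 + 1)) := by
    exact_mod_cast f_upper_nat n
  have h2 := clog_le_log hn
  have h6 : (0 : ℝ) ≤ Nat.clog 2 n := Nat.cast_nonneg _
  have hnR : (2 : ℝ) ≤ n := by exact_mod_cast hn
  have hlog2 := Real.log_two_gt_d9
  have h3 : Real.log 2 ≤ Real.log n := Real.log_le_log (by norm_num) hnR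
  set L := Real.log n with hL
  have hL0 : 0.69 ≤ L := by linarith
  have h4 : 2 * (Nat.clog 2 n : ℝ) ^ 2 + 1 ≤ 24 * L ^ 2 := by
    have : (Nat.clog 2 n : ℝ) ^ 2 ≤ (3 * L) ^ 2 := pow_le_pow_left₀ h6 h2 2
    nlinarith
  calc (f n : ℝ) ≤ (Nat.clog 2 n : ℝ) * (36 * n * (2 * (Nat.clog 2 n : ℝ) ^ 2 + 1)) := h1
    _ ≤ (3 * L) * (36 * n * (24 * L ^ 2)) := by gcongr
    _ = 2592 * (n * L ^ 3) := by ring

end Pool.Agent.VisGraph
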