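import Mathlib

/-!
# Visibility graphs of simple polygons and their clique/biclique covering sets

The plane is `ℂ`.  A polygon with `n` vertices is a map `P : ZMod n → ℂ`; its edges are the closed
segments from `P i` to `P (i + 1)`, indices being taken modulo `n`.
-/

namespace Pool.Agent.VisGraph

open Set

/-- `P` is a simple polygon with `n` vertices: `n ≥ 3`, the vertices are distinct, two consecutive
edges meet exactly in their common vertex, and any two other distinct edges are disjoint. -/
structure IsSimplePolygon {n : ℕ} (P : ZMod n → ℂ) : Prop where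
  three_le : 3 ≤ n
  injective : Function.Injective P
  consecutive : ∀ i, segment ℝ (P i) (P (i + 1)) ∩ segment ℝ (P (i + 1)) (P (i + 2)) = {P (i + 1)}
  disjoint : ∀ i j, j ≠ i → j ≠ i + 1 → i ≠ j + 1 →
    segment ℝ (P i) (P (i + 1)) ∩ segment ℝ (P j) (P (j + 1)) = ∅

/-- The boundary of the polygon `P`: the union of its edges. -/
def boundary {n : ℕ} (P : ZMod n → ℂ) : Set ℂ := ⋃ i, segment ℝ (P i) (P (i + 1))

/-- The closed region bounded by `P`: the points of the boundary, and the points off the boundary
whose connected component in the complement of the boundary is bounded. -/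
def region {n : ℕ} (P : ZMod n → ℂ) : Set ℂ :=
  boundary P ∪
    {z | z ∉ boundary P ∧ Bornology.IsBounded (connectedComponentIn (boundary P)ᶜ z)}

/-- The visibility graph of `P`.  Its vertices are the (indices of the) vertices of `P`; two
distinct vertices are adjacent iff the closed segment between them lies in the closed region
bounded by `P`. -/
def visGraph {n : ℕ} (P : ZMod n → ℂ) : SimpleGraph (ZMod n) where
  Adj u v := u ≠ v ∧ segment ℝ (P u) (P v) ⊆ region P
  symm := ⟨fun _ _ h => ⟨h.1.symm, by rw [segment_symm]; exact h.2⟩⟩
  loopless := ⟨fun _ h => h.1 rfl⟩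

/-- A covering set of the graph `G`: a finite family of cliques (each given by a vertex set which
induces a complete graph) and of bicliques (each given by two disjoint nonempty vertex sets
with all edges between them present), such that every edge of `G` lies in at least one member. -/
structure Covering {V : Type*} (G : SimpleGraph V) where
  /-- the cliques of the family -/
  cliques : Multiset (Finset V)
  /-- the bicliques of the family -/
  bicliques : Multiset (Finset V × Finset V)
  clique_adj : ∀ C ∈ cliques, ∀ u ∈ C, ∀ v ∈ C, u ≠ v → G.Adj u v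
  biclique_adj : ∀ B ∈ bicliques, B.1.Nonempty ∧ B.2.Nonempty ∧ Disjoint B.1 B.2 ∧
    ∀ u ∈ B.1, ∀ v ∈ B.2, G.Adj u v
  covers : ∀ u v, G.Adj u v → (∃ C ∈ cliques, u ∈ C ∧ v ∈ C) ∨
    ∃ B ∈ bicliques, (u ∈ B.1 ∧ v ∈ B.2) ∨ (u ∈ B.2 ∧ v ∈ B.1)

/-- The number of vertex names listed when a covering set is stored. -/
def Covering.size {V : Type*} {G : SimpleGraph V} (C : Covering G) : ℕ :=
  (C.cliques.map fun S => S.card).sum + (C.bicliques.map fun B => B.1.card + B.2.card).sum

/-- The bit count of a covering set of a graph with `n` vertices: each vertex name uses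
`⌈log₂ n⌉` bits. -/
def Covering.bits {n : ℕ} {G : SimpleGraph (ZMod n)} (C : Covering G) : ℕ :=
  Nat.clog 2 n * C.size

/-- `β(G)`: the minimum of the bit count over all covering sets of `G`. -/
noncomputable def beta {n : ℕ} (G : SimpleGraph (ZMod n)) : ℕ :=
  sInf (Set.range fun C : Covering G => C.bits)

/-- `f(n)`: the maximum of `β(G)` over the visibility graphs `G` of simple polygons with `n`
vertices. -/
noncomputable def f (n : ℕ) : ℕ :=
  sSup {b | ∃ P : ZMod n → ℂ, IsSimplePolygon P ∧ beta (visGraph P) = b}

end Pool.Agent.VisGraph
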