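import Pool.Agent.VisGraph.Mono

/-!
# The polygon of two facing chains: simplicity and its region
-/

namespace Pool.Agent.VisGraph

open Finset

/-- Two facing chains. -/
structure Chains where
  p : ℕ
  q : ℕ
  xl : ℕ → ℝ
  yl : ℕ → ℝ
  xr : ℕ → ℝ
  yr : ℕ → ℝ
  W : ℝ
  hp : 0 < p
  hq : 0 < q
  hyl : ∀ k < p, yl k < yl (k + 1)
  hyr : ∀ k < q, yr k < yr (k + 1)
  hbot : yl 0 = yr 0
  htop : yl p = yr q
  hxl : ∀ k ≤ p, xl k ≤ 0
  hxr : ∀ k ≤ q, W ≤ xr k
  hW : 0 < W

namespace Chains

variable (D : Chains)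

/-- number of vertices -/
def n : ℕ := D.p + D.q + 2

/-- the vertices: up the left chain, then down the right chain -/
noncomputable def V (k : ℕ) : ℂ :=
  if k ≤ D.p then ⟨D.xl k, D.yl k⟩ else ⟨D.xr (D.n - 1 - k), D.yr (D.n - 1 - k)⟩

/-- left vertex -/
noncomputable def vl (k : ℕ) : ℂ := ⟨D.xl k, D.yl k⟩
/-- right vertex -/
noncomputable def vr (k : ℕ) : ℂ := ⟨D.xr k, D.yr k⟩

lemma V_left {k : ℕ} (hk : k ≤ D.p) : D.V k = D.vl k := by
  unfold V vl; rw [if_pos hk]

lemma V_right {k : ℕ} (hk : D.p < k) : D.V k = D.vr (D.n - 1 - k) := by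
  unfold V vr; rw [if_neg (by omega)]

@[simp] lemma vl_im (k : ℕ) : (D.vl k).im = D.yl k := rfl
@[simp] lemma vl_re (k : ℕ) : (D.vl k).re = D.xl k := rfl
@[simp] lemma vr_im (k : ℕ) : (D.vr k).im = D.yr k := rfl
@[simp] lemma vr_re (k : ℕ) : (D.vr k).re = D.xr k := rfl

/-- the polygon -/
noncomputable def poly : ZMod D.n → ℂ := natPoly D.n D.V

lemma yl_mono {i j : ℕ} (hij : i ≤ j) (hj : j ≤ D.p) : D.yl i ≤ D.yl j :=
  mono_of_step D.hyl hij hj

lemma yr_mono {i j : ℕ} (hij : i ≤ j) (hj : j ≤ D.q) : D.yr i ≤ D.yr j :=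
  mono_of_step D.hyr hij hj

lemma yl_strict {i j : ℕ} (hij : i < j) (hj : j ≤ D.p) : D.yl i < D.yl j :=
  lt_of_lt_of_le (D.hyl i (by omega)) (D.yl_mono hij hj)

lemma yr_strict {i j : ℕ} (hij : i < j) (hj : j ≤ D.q) : D.yr i < D.yr j :=
  lt_of_lt_of_le (D.hyr i (by omega)) (D.yr_mono hij hj)

/-- The edge number `k`. -/
noncomputable def E (k : ℕ) : Set ℂ := segment ℝ (D.V k) (D.V ((k + 1) % D.n))

lemma E_left {k : ℕ} (hk : k < D.p) : D.E k = segment ℝ (D.vl k) (D.vl (k + 1)) := by
  unfold E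
  rw [Nat.mod_eq_of_lt (by unfold n; omega), D.V_left hk.le, D.V_left hk]

lemma E_top : D.E D.p = segment ℝ (D.vl D.p) (D.vr D.q) := by
  unfold E
  rw [Nat.mod_eq_of_lt (by unfold n; omega), D.V_left le_rfl, D.V_right (by omega)]
  congr 2
  unfold n; omega

lemma E_right {j : ℕ} (hj : j < D.q) :
    D.E (D.n - 2 - j) = segment ℝ (D.vr (j + 1)) (D.vr j) := by
  have hn : D.n = D.p + D.q + 2 := rfl
  unfold E
  rw [Nat.mod_eq_of_lt (by omega), D.V_right (by omega), D.V_right (by omega)]
  congr 2 <;> omega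

lemma E_bot : D.E (D.n - 1) = segment ℝ (D.vr 0) (D.vl 0) := by
  have hn : D.n = D.p + D.q + 2 := rfl
  unfold E
  have : (D.n - 1 + 1) % D.n = 0 := by
    have : D.n - 1 + 1 = D.n := by omega
    rw [this, Nat.mod_self]
  rw [this, D.V_right (by omega), D.V_left (by omega)]
  congr 2
  omega

lemma left_facts {k : ℕ} (hk : k < D.p) {z : ℂ} (hz : z ∈ D.E k) :
    D.yl k ≤ z.im ∧ z.im ≤ D.yl (k + 1) ∧ z.re ≤ 0 := by
  rw [D.E_left hk] at hz
  have h := D.hyl k hk
  obtain ⟨h1, h2⟩ := seg_im_mem (a := D.vl k) (b := D.vl (k + 1)) (by simpa using h.le) hz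
  exact ⟨by simpa using h1, by simpa using h2,
    seg_re_le (a := D.vl k) (b := D.vl (k + 1)) (by simpa using D.hxl k hk.le)
      (by simpa using D.hxl (k + 1) hk) hz⟩

lemma right_facts {j : ℕ} (hj : j < D.q) {z : ℂ} (hz : z ∈ D.E (D.n - 2 - j)) :
    D.yr j ≤ z.im ∧ z.im ≤ D.yr (j + 1) ∧ D.W ≤ z.re := by
  rw [D.E_right hj, segment_symm] at hz
  have h := D.hyr j hj
  obtain ⟨h1, h2⟩ := seg_im_mem (a := D.vr j) (b := D.vr (j + 1)) (by simpa using h.le) hz
  exact ⟨by simpa using h1, by simpa using h2,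
    seg_re_ge (a := D.vr j) (b := D.vr (j + 1)) (by simpa using D.hxr j hj.le)
      (by simpa using D.hxr (j + 1) hj) hz⟩

lemma top_facts {z : ℂ} (hz : z ∈ D.E D.p) :
    z.im = D.yl D.p ∧ D.xl D.p ≤ z.re ∧ z.re ≤ D.xr D.q := by
  rw [D.E_top] at hz
  have h1 := seg_im_mem (a := D.vl D.p) (b := D.vr D.q) (by simp [D.htop]) hz
  simp only [vl_im, vr_im, ← D.htop] at h1
  have h2 := D.hxl D.p le_rfl
  have h3 := D.hxr D.q le_rfl
  have h4 := D.hW
  exact ⟨le_antisymm h1.2 h1.1,
    seg_re_ge (a := D.vl D.p) (b := D.vr D.q) (by simp) (by simp; linarith) hz,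
    seg_re_le (a := D.vl D.p) (b := D.vr D.q) (by simp; linarith) (by simp) hz⟩

lemma bot_facts {z : ℂ} (hz : z ∈ D.E (D.n - 1)) :
    z.im = D.yl 0 ∧ D.xl 0 ≤ z.re ∧ z.re ≤ D.xr 0 := by
  rw [D.E_bot] at hz
  have h1 := seg_im_mem (a := D.vr 0) (b := D.vl 0) (by simp [D.hbot]) hz
  simp only [vl_im, vr_im, ← D.hbot] at h1
  have h2 := D.hxl 0 (by omega)
  have h3 := D.hxr 0 (by omega)
  have h4 := D.hW
  exact ⟨le_antisymm h1.2 h1.1,
    seg_re_ge (a := D.vr 0) (b := D.vl 0) (by simp; linarith) (by simp) hz,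
    seg_re_le (a := D.vr 0) (b := D.vl 0) (by simp) (by simp; linarith) hz⟩

/-- Types of edge indices. -/
lemma index_cases {k : ℕ} (hk : k < D.n) :
    k < D.p ∨ k = D.p ∨ (∃ j < D.q, k = D.n - 2 - j) ∨ k = D.n - 1 := by
  have hn : D.n = D.p + D.q + 2 := rfl
  rcases Nat.lt_trichotomy k D.p with h | h | h
  · exact Or.inl h
  · exact Or.inr (Or.inl h)
  · rcases Nat.lt_or_ge k (D.n - 1) with h2 | h2
    · exact Or.inr (Or.inr (Or.inl ⟨D.n - 2 - k, by omega, by omega⟩))
    · exact Or.inr (Or.inr (Or.inr (by omega)))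

lemma three_le : 3 ≤ D.n := by
  have := D.hp
  unfold n; omega

theorem simple : IsSimplePolygon D.poly := by
  have hn : D.n = D.p + D.q + 2 := rfl
  have hp := D.hp
  have hq := D.hq
  apply isSimplePolygon_natPoly D.three_le
  · -- injectivity
    intro i hi j hj hij
    rcases Nat.lt_or_ge D.p i with h1 | h1 <;> rcases Nat.lt_or_ge D.p j with h2 | h2
    · rw [D.V_right h1, D.V_right h2] at hij
      have him := congrArg Complex.im hij
      simp only [vr_im] at him
      by_contra hne
      rcases Nat.lt_or_gt_of_ne hne with h | h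
      · have := D.yr_strict (i := D.n - 1 - j) (j := D.n - 1 - i) (by omega) (by omega)
        linarith
      · have := D.yr_strict (i := D.n - 1 - i) (j := D.n - 1 - j) (by omega) (by omega)
        linarith
    · rw [D.V_right h1, D.V_left h2] at hij
      have hre := congrArg Complex.re hij
      simp only [vr_re, vl_re] at hre
      have := D.hxr (D.n - 1 - i) (by omega)
      have := D.hxl j h2
      have := D.hW
      linarith
    · rw [D.V_left h1, D.V_right h2] at hij
      have hre := congrArg Complex.re hij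
      simp only [vr_re, vl_re] at hre
      have := D.hxr (D.n - 1 - j) (by omega)
      have := D.hxl i h1
      have := D.hW
      linarith
    · rw [D.V_left h1, D.V_left h2] at hij
      have him := congrArg Complex.im hij
      simp only [vl_im] at him
      by_contra hne
      rcases Nat.lt_or_gt_of_ne hne with h | h
      · have := D.yl_strict h h2
        linarith
      · have := D.yl_strict h h1
        linarith
  · -- consecutive edges
    intro i hi z hz
    have hz2 : z ∈ D.E ((i + 1) % D.n) := by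
      unfold E
      rw [Nat.mod_add_mod]
      exact hz.2
    have hz1 : z ∈ D.E i := hz.1
    rw [Set.mem_singleton_iff]
    rcases D.index_cases hi with h | h | ⟨j, hj, h⟩ | h
    · -- left edge `i`
      have hi1 : (i + 1) % D.n = i + 1 := Nat.mod_eq_of_lt (by omega)
      rw [hi1] at hz2 ⊢
      have f1 := D.left_facts h hz1
      have him : z.im = D.yl (i + 1) := by
        rcases Nat.lt_or_ge (i + 1) D.p with h2 | h2
        · have f2 := D.left_facts h2 hz2
          exact le_antisymm f1.2.1 f2.1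
        · have h3 : i + 1 = D.p := by omega
          rw [h3] at hz2
          have f2 := D.top_facts hz2
          rw [f2.1, h3]
      rw [D.E_left h] at hz1
      rw [D.V_left (by omega)]
      exact seg_eq_right (a := D.vl i) (b := D.vl (i + 1)) (by simpa using D.hyl i h) hz1 (by simpa using him)
    · -- top edge
      subst h
      have hi1 : (D.p + 1) % D.n = D.n - 2 - (D.q - 1) := by
        rw [Nat.mod_eq_of_lt (by omega)]; omega
      rw [hi1] at hz2 ⊢
      have f1 := D.top_facts hz1
      have f2 := D.right_facts (by omega) hz2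
      rw [D.E_right (by omega)] at hz2
      rw [D.V_right (by omega)]
      have e1 : D.n - 1 - (D.n - 2 - (D.q - 1)) = D.q - 1 + 1 := by omega
      rw [e1]
      rw [segment_symm] at hz2
      apply seg_eq_right (a := D.vr (D.q - 1)) (b := D.vr (D.q - 1 + 1)) _ hz2
      · have e2 : D.q - 1 + 1 = D.q := by omega
        rw [f1.1, e2, D.htop]
        simp
      · simpa using D.hyr (D.q - 1) (by omega)
    · -- right edge
      have hi1 : (i + 1) % D.n = i + 1 := Nat.mod_eq_of_lt (by omega)
      rw [hi1] at hz2 ⊢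
      rw [h] at hz1
      have f1 := D.right_facts hj hz1
      have him : z.im = D.yr j := by
        rcases Nat.eq_zero_or_pos j with h0 | h0
        · have e : i + 1 = D.n - 1 := by omega
          rw [e] at hz2
          have f2 := D.bot_facts hz2
          rw [f2.1, h0, D.hbot]
        · have e : i + 1 = D.n - 2 - (j - 1) := by omega
          rw [e] at hz2
          have f2 := D.right_facts (by omega) hz2
          have e2 : j - 1 + 1 = j := by omega
          rw [e2] at f2
          exact le_antisymm f2.2.1 f1.1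
      rw [D.E_right hj, segment_symm] at hz1
      rw [D.V_right (by omega)]
      have e1 : D.n - 1 - (i + 1) = j := by omega
      rw [e1]
      exact seg_eq_left (a := D.vr j) (b := D.vr (j + 1)) (by simpa using D.hyr j hj) hz1 (by simpa using him)
    · -- bottom edge
      have hi1 : (i + 1) % D.n = 0 := by
        have : i + 1 = D.n := by omega
        rw [this, Nat.mod_self]
      rw [hi1] at hz2 ⊢
      rw [h] at hz1
      have f1 := D.bot_facts hz1
      rw [D.E_left hp] at hz2
      rw [D.V_left (by omega)]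
      exact seg_eq_left (a := D.vl 0) (b := D.vl (0 + 1)) (by simpa using D.hyl 0 hp) hz2 (by simpa using f1.1)
  · -- disjoint edges
    intro i hi j hj hij hnot
    have e1 : segment ℝ (D.V i) (D.V (i + 1)) = D.E i := by
      unfold E; rw [Nat.mod_eq_of_lt (by omega)]
    rw [e1]
    change D.E i ∩ D.E j = ∅
    rw [Set.eq_empty_iff_forall_notMem]
    rintro z ⟨hz1, hz2⟩
    have hW := D.hW
    have hyp : D.yl 0 < D.yl D.p := D.yl_strict hp le_rfl
    rcases D.index_cases hi with h | h | ⟨a, ha, h⟩ | h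
    · have f1 := D.left_facts h hz1
      rcases D.index_cases hj with h' | h' | ⟨b, hb, h'⟩ | h'
      · have f2 := D.left_facts h' hz2
        have := D.yl_strict (i := i + 1) (j := j) hij h'.le
        linarith
      · rw [h'] at hz2
        have f2 := D.top_facts hz2
        have := D.yl_strict (i := i + 1) (j := D.p) (by omega) le_rfl
        linarith
      · rw [h'] at hz2
        have f2 := D.right_facts hb hz2
        linarith
      · rw [h'] at hz2
        have f2 := D.bot_facts hz2
        have hi0 : 0 < i := by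
          rcases Nat.eq_zero_or_pos i with h0 | h0
          · exact absurd ⟨h0, h'⟩ hnot
          · exact h0
        have := D.yl_strict (i := 0) (j := i) hi0 h.le
        linarith
    · rw [h] at hz1
      have f1 := D.top_facts hz1
      rcases D.index_cases hj with h' | h' | ⟨b, hb, h'⟩ | h'
      · omega
      · omega
      · rw [h'] at hz2
        have f2 := D.right_facts hb hz2
        have := D.yr_strict (i := b + 1) (j := D.q) (by omega) le_rfl
        have := D.htop
        linarith
      · rw [h'] at hz2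
        have f2 := D.bot_facts hz2
        linarith
    · rw [h] at hz1
      have f1 := D.right_facts ha hz1
      rcases D.index_cases hj with h' | h' | ⟨b, hb, h'⟩ | h'
      · omega
      · omega
      · rw [h'] at hz2
        have f2 := D.right_facts hb hz2
        have := D.yr_strict (i := b + 1) (j := a) (by omega) ha.le
        linarith
      · rw [h'] at hz2
        have f2 := D.bot_facts hz2
        have := D.yr_strict (i := 0) (j := a) (by omega) ha.le
        have := D.hbot
        linarith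
    · omega

/-- the left boundary function -/
noncomputable def L : ℝ → ℝ := interp D.p D.xl D.yl
/-- the right boundary function -/
noncomputable def R : ℝ → ℝ := interp D.q D.xr D.yr

lemma L_cont : Continuous D.L := continuous_interp _ _ _
lemma R_cont : Continuous D.R := continuous_interp _ _ _

lemma L_le {t : ℝ} (h1 : D.yl 0 ≤ t) (h2 : t ≤ D.yl D.p) : D.L t ≤ 0 :=
  interp_le D.hyl D.hp D.hxl h1 h2

lemma le_R {t : ℝ} (h1 : D.yl 0 ≤ t) (h2 : t ≤ D.yl D.p) : D.W ≤ D.R t :=
  le_interp D.hyr D.hq D.hxr (by rw [← D.hbot]; exact h1) (by rw [← D.htop]; exact h2)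

/-- the closed region -/
def Cl : Set ℂ := {z | D.yl 0 ≤ z.im ∧ z.im ≤ D.yl D.p ∧ D.L z.im ≤ z.re ∧ z.re ≤ D.R z.im}
/-- the open region -/
def Op : Set ℂ := {z | D.yl 0 < z.im ∧ z.im < D.yl D.p ∧ D.L z.im < z.re ∧ z.re < D.R z.im}

lemma Op_open : IsOpen D.Op := by
  have hL := D.L_cont
  have hR := D.R_cont
  have h1 : IsOpen {z : ℂ | D.yl 0 < z.im} := isOpen_lt continuous_const Complex.continuous_im
  have h2 : IsOpen {z : ℂ | z.im < D.yl D.p} := isOpen_lt Complex.continuous_im continuous_const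
  have h3 : IsOpen {z : ℂ | D.L z.im < z.re} :=
    isOpen_lt (hL.comp Complex.continuous_im) Complex.continuous_re
  have h4 : IsOpen {z : ℂ | z.re < D.R z.im} :=
    isOpen_lt Complex.continuous_re (hR.comp Complex.continuous_im)
  exact h1.inter (h2.inter (h3.inter h4))

lemma Cl_closed : IsClosed D.Cl := by
  have hL := D.L_cont
  have hR := D.R_cont
  have h1 : IsClosed {z : ℂ | D.yl 0 ≤ z.im} := isClosed_le continuous_const Complex.continuous_im
  have h2 : IsClosed {z : ℂ | z.im ≤ D.yl D.p} := isClosed_le Complex.continuous_im continuous_const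
  have h3 : IsClosed {z : ℂ | D.L z.im ≤ z.re} :=
    isClosed_le (hL.comp Complex.continuous_im) Complex.continuous_re
  have h4 : IsClosed {z : ℂ | z.re ≤ D.R z.im} :=
    isClosed_le Complex.continuous_re (hR.comp Complex.continuous_im)
  exact h1.inter (h2.inter (h3.inter h4))

lemma Op_sub_Cl : D.Op ⊆ D.Cl := fun _ h => ⟨h.1.le, h.2.1.le, h.2.2.1.le, h.2.2.2.le⟩

instance : NeZero D.n := ⟨by unfold n; omega⟩

lemma mem_boundary_iff {z : ℂ} : z ∈ boundary D.poly ↔ ∃ k < D.n, z ∈ D.E k := by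
  unfold boundary
  simp only [Set.mem_iUnion]
  constructor
  · rintro ⟨i, hi⟩
    refine ⟨i.val, ZMod.val_lt i, ?_⟩
    unfold E
    unfold poly at hi
    rw [natPoly_succ] at hi
    exact hi
  · rintro ⟨k, hk, hz⟩
    refine ⟨(k : ZMod D.n), ?_⟩
    unfold poly
    rw [natPoly_succ]
    unfold natPoly
    rw [ZMod.val_natCast, Nat.mod_eq_of_lt hk]
    exact hz

lemma mem_E_left_iff {k : ℕ} (hk : k < D.p) {z : ℂ} :
    z ∈ D.E k ↔ D.yl k ≤ z.im ∧ z.im ≤ D.yl (k + 1) ∧ z.re = D.L z.im := by
  rw [D.E_left hk, mem_seg_iff (by simpa using D.hyl k hk)]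
  simp only [vl_im, vl_re]
  constructor
  · rintro ⟨h1, h2, h3⟩
    refine ⟨h1, h2, ?_⟩
    rw [h3, L, interp_eq D.hyl hk h1 h2]
  · rintro ⟨h1, h2, h3⟩
    refine ⟨h1, h2, ?_⟩
    rw [h3, L, interp_eq D.hyl hk h1 h2]

lemma mem_E_right_iff {j : ℕ} (hj : j < D.q) {z : ℂ} :
    z ∈ D.E (D.n - 2 - j) ↔ D.yr j ≤ z.im ∧ z.im ≤ D.yr (j + 1) ∧ z.re = D.R z.im := by
  rw [D.E_right hj, segment_symm, mem_seg_iff (by simpa using D.hyr j hj)]
  simp only [vr_im, vr_re]
  constructor
  · rintro ⟨h1, h2, h3⟩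
    refine ⟨h1, h2, ?_⟩
    rw [h3, R, interp_eq D.hyr hj h1 h2]
  · rintro ⟨h1, h2, h3⟩
    refine ⟨h1, h2, ?_⟩
    rw [h3, R, interp_eq D.hyr hj h1 h2]

lemma L_zero : D.L (D.yl 0) = D.xl 0 := by
  have := interp_eq (x := D.xl) D.hyl D.hp (t := D.yl 0) le_rfl (D.hyl 0 D.hp).le
  rw [L, this]; simp

lemma L_top : D.L (D.yl D.p) = D.xl D.p := by
  have hp := D.hp
  have e : D.p - 1 + 1 = D.p := by omega
  have := interp_eq (x := D.xl) D.hyl (k := D.p - 1) (by omega) (t := D.yl D.p)
    (D.yl_mono (by omega) le_rfl) (by rw [e])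
  rw [L, this, e]
  have h2 : D.yl (D.p - 1) < D.yl D.p := D.yl_strict (by omega) le_rfl
  have h3 : D.yl D.p - D.yl (D.p - 1) ≠ 0 := by linarith
  field_simp
  ring

lemma R_zero : D.R (D.yl 0) = D.xr 0 := by
  have := interp_eq (x := D.xr) D.hyr D.hq (t := D.yr 0) le_rfl (D.hyr 0 D.hq).le
  rw [R, D.hbot, this]; simp

lemma R_top : D.R (D.yl D.p) = D.xr D.q := by
  have hp := D.hq
  have e : D.q - 1 + 1 = D.q := by omega
  have := interp_eq (x := D.xr) D.hyr (k := D.q - 1) (by omega) (t := D.yr D.q)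
    (D.yr_mono (by omega) le_rfl) (by rw [e])
  rw [R, D.htop, this, e]
  have h2 : D.yr (D.q - 1) < D.yr D.q := D.yr_strict (by omega) le_rfl
  have h3 : D.yr D.q - D.yr (D.q - 1) ≠ 0 := by linarith
  field_simp
  ring

lemma boundary_sub_Cl : boundary D.poly ⊆ D.Cl := by
  intro z hz
  obtain ⟨k, hk, hz⟩ := D.mem_boundary_iff.mp hz
  have hW := D.hW
  rcases D.index_cases hk with h | h | ⟨j, hj, h⟩ | h
  · obtain ⟨h1, h2, h3⟩ := (D.mem_E_left_iff h).mp hz
    have h4 := D.yl_mono (i := 0) (j := k) (by omega) h.le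
    have h5 := D.yl_mono (i := k + 1) (j := D.p) (by omega) le_rfl
    have h6 := D.le_R (t := z.im) (by linarith) (by linarith)
    have h7 := D.L_le (t := z.im) (by linarith) (by linarith)
    exact ⟨by linarith, by linarith, by rw [h3], by linarith⟩
  · rw [h] at hz
    obtain ⟨h1, h2, h3⟩ := D.top_facts hz
    have h4 := D.yl_mono (i := 0) (j := D.p) (by omega) le_rfl
    refine ⟨by linarith, by linarith, ?_, ?_⟩
    · rw [h1, D.L_top]; exact h2
    · rw [h1, D.R_top]; exact h3
  · rw [h] at hz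
    obtain ⟨h1, h2, h3⟩ := (D.mem_E_right_iff hj).mp hz
    have h4 := D.yr_mono (i := 0) (j := j) (by omega) hj.le
    have h5 := D.yr_mono (i := j + 1) (j := D.q) (by omega) le_rfl
    have hb := D.hbot
    have ht := D.htop
    have h6 := D.le_R (t := z.im) (by linarith) (by linarith)
    have h7 := D.L_le (t := z.im) (by linarith) (by linarith)
    exact ⟨by linarith, by linarith, by linarith, by rw [h3]⟩
  · rw [h] at hz
    obtain ⟨h1, h2, h3⟩ := D.bot_facts hz
    have h4 := D.yl_mono (i := 0) (j := D.p) (by omega) le_rfl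
    refine ⟨by linarith, by linarith, ?_, ?_⟩
    · rw [h1, D.L_zero]; exact h2
    · rw [h1, D.R_zero]; exact h3

lemma hor_mem {a b z : ℂ} (h1 : a.im = b.im) (h2 : z.im = a.im) (h3 : a.re ≤ z.re)
    (h4 : z.re ≤ b.re) : z ∈ segment ℝ a b := by
  rcases eq_or_lt_of_le (le_trans h3 h4) with h | h
  · have : z = a := Complex.ext (by linarith) h2
    rw [this]
    exact left_mem_segment ℝ _ _
  · have hpos : 0 < b.re - a.re := by linarith
    refine ⟨1 - (z.re - a.re) / (b.re - a.re), (z.re - a.re) / (b.re - a.re), ?_, ?_, by ring, ?_⟩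
    · rw [sub_nonneg, div_le_one hpos]
      linarith
    · apply div_nonneg <;> linarith
    · apply Complex.ext
      · simp only [Complex.add_re, Complex.real_smul, Complex.mul_re, Complex.ofReal_re,
          Complex.ofReal_im, zero_mul, sub_zero]
        field_simp
        ring
      · simp only [Complex.add_im, Complex.real_smul, Complex.mul_im, Complex.ofReal_re,
          Complex.ofReal_im, zero_mul, add_zero]
        rw [← h1, h2]
        ring

lemma Cl_diff_sub : D.Cl \ D.Op ⊆ boundary D.poly := by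
  rintro z ⟨⟨h1, h2, h3, h4⟩, hno⟩
  have hn : D.n = D.p + D.q + 2 := rfl
  rw [D.mem_boundary_iff]
  rcases eq_or_lt_of_le h1 with e1 | l1
  · -- bottom
    refine ⟨D.n - 1, by omega, ?_⟩
    rw [D.E_bot, segment_symm]
    apply hor_mem
    · simp [D.hbot]
    · simp [e1]
    · rw [← e1, D.L_zero] at h3
      simpa using h3
    · rw [← e1, D.R_zero] at h4
      simpa using h4
  rcases eq_or_lt_of_le h2 with e2 | l2
  · refine ⟨D.p, by omega, ?_⟩
    rw [D.E_top]
    apply hor_mem
    · simp [D.htop]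
    · simp [e2]
    · rw [e2, D.L_top] at h3
      simpa using h3
    · rw [e2, D.R_top] at h4
      simpa using h4
  rcases eq_or_lt_of_le h3 with e3 | l3
  · obtain ⟨k, hk, h5, h6⟩ := exists_slab D.hp h1 h2
    exact ⟨k, by omega, (D.mem_E_left_iff hk).mpr ⟨h5, h6, e3.symm⟩⟩
  rcases eq_or_lt_of_le h4 with e4 | l4
  · obtain ⟨k, hk, h5, h6⟩ := exists_slab D.hq (y := D.yr) (t := z.im) (by rw [← D.hbot]; exact h1)
      (by rw [← D.htop]; exact h2)
    exact ⟨D.n - 2 - k, by omega, (D.mem_E_right_iff hk).mpr ⟨h5, h6, e4⟩⟩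
  exact absurd ⟨l1, l2, l3, l4⟩ hno

lemma Op_disj : ∀ z ∈ D.Op, z ∉ boundary D.poly := by
  rintro z ⟨h1, h2, h3, h4⟩ hz
  have hW := D.hW
  obtain ⟨k, hk, hz⟩ := D.mem_boundary_iff.mp hz
  rcases D.index_cases hk with h | h | ⟨j, hj, h⟩ | h
  · have := (D.mem_E_left_iff h).mp hz
    linarith [this.2.2]
  · rw [h] at hz
    have := D.top_facts hz
    linarith [this.1]
  · rw [h] at hz
    have := (D.mem_E_right_iff hj).mp hz
    linarith [this.2.2]
  · rw [h] at hz
    have := D.bot_facts hz
    linarith [this.1]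

lemma Op_bounded : Bornology.IsBounded D.Op := by
  -- `L` and `R` are bounded on the compact interval
  have hK : IsCompact (Set.Icc (D.yl 0) (D.yl D.p)) := isCompact_Icc
  obtain ⟨A, hA⟩ := hK.bddBelow_image (f := D.L) D.L_cont.continuousOn
  obtain ⟨B, hB⟩ := hK.bddAbove_image (f := D.R) D.R_cont.continuousOn
  have hsub : D.Op ⊆ (Set.Icc A B) ×ℂ (Set.Icc (D.yl 0) (D.yl D.p)) := by
    rintro z ⟨h1, h2, h3, h4⟩
    rw [Complex.mem_reProdIm]
    refine ⟨⟨?_, ?_⟩, ⟨h1.le, h2.le⟩⟩
    · have := hA (Set.mem_image_of_mem _ (show z.im ∈ Set.Icc (D.yl 0) (D.yl D.p) from ⟨h1.le, h2.le⟩))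
      linarith
    · have := hB (Set.mem_image_of_mem _ (show z.im ∈ Set.Icc (D.yl 0) (D.yl D.p) from ⟨h1.le, h2.le⟩))
      linarith
  refine Bornology.IsBounded.subset ?_ hsub
  exact (isCompact_Icc.reProdIm isCompact_Icc).isBounded

lemma comp_sub_Op {z : ℂ} (hz : z ∈ D.Op) :
    connectedComponentIn (boundary D.poly)ᶜ z ⊆ D.Op := by
  apply IsPreconnected.subset_of_closure_inter_subset isPreconnected_connectedComponentIn D.Op_open
  · exact ⟨z, mem_connectedComponentIn (D.Op_disj z hz), hz⟩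
  · rintro w ⟨hw1, hw2⟩
    have h1 : w ∈ D.Cl := closure_minimal D.Op_sub_Cl D.Cl_closed hw1
    by_contra h2
    exact (connectedComponentIn_subset _ _ hw2) (D.Cl_diff_sub ⟨h1, h2⟩)

/-- A ray which avoids the closed region witnesses unboundedness. -/
lemma not_region_of_ray {z v : ℂ} (hv : v ≠ 0) (h : ∀ t : ℝ, 0 ≤ t → z + t * v ∉ D.Cl) :
    z ∉ region D.poly := by
  have hz : z ∉ D.Cl := by simpa using h 0 le_rfl
  intro hreg
  rcases hreg with hb | ⟨hb, hbd⟩
  · exact hz (D.boundary_sub_Cl hb)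
  · set ray : Set ℂ := (fun t : ℝ => z + t * v) '' Set.Ici 0 with hray
    have hpre : IsPreconnected ray := by
      apply IsPreconnected.image isPreconnected_Ici
      fun_prop
    have hsub : ray ⊆ connectedComponentIn (boundary D.poly)ᶜ z := by
      apply hpre.subset_connectedComponentIn
      · exact ⟨0, by simp⟩
      · rintro w ⟨t, ht, rfl⟩ hw
        exact h t ht (D.boundary_sub_Cl hw)
    have hbdray : Bornology.IsBounded ray := hbd.subset hsub
    obtain ⟨M, hM⟩ := (Metric.isBounded_iff_subset_closedBall z).mp hbdray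
    have hvpos : 0 < ‖v‖ := norm_pos_iff.mpr hv
    have h1 := hM ⟨(|M| + 1) / ‖v‖, by
      simp only [Set.mem_Ici]; positivity, rfl⟩
    rw [Metric.mem_closedBall, dist_eq_norm] at h1
    simp only [add_sub_cancel_left, norm_mul, Complex.norm_real, Real.norm_eq_abs] at h1
    rw [abs_of_nonneg (by positivity), div_mul_cancel₀ _ hvpos.ne'] at h1
    have := le_abs_self M
    linarith

theorem region_eq : region D.poly = D.Cl := by
  apply Set.Subset.antisymm
  · intro z hz
    by_contra hno
    revert hz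
    change z ∉ region D.poly
    by_cases h1 : D.yl 0 ≤ z.im
    · by_cases h2 : z.im ≤ D.yl D.p
      · by_cases h3 : D.L z.im ≤ z.re
        · have h4 : ¬ z.re ≤ D.R z.im := fun h4 => hno ⟨h1, h2, h3, h4⟩
          apply D.not_region_of_ray (v := 1) one_ne_zero
          rintro t ht ⟨_, _, _, h5⟩
          simp at h5
          linarith
        · apply D.not_region_of_ray (v := -1) (by simp)
          rintro t ht ⟨_, _, h5, _⟩
          simp at h5
          linarith
      · apply D.not_region_of_ray (v := Complex.I) Complex.I_ne_zero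
        rintro t ht ⟨_, h5, _⟩
        simp at h5
        linarith
    · apply D.not_region_of_ray (v := -Complex.I) (by simp)
      rintro t ht ⟨h5, _⟩
      simp at h5
      linarith
  · intro z hz
    by_cases h : z ∈ D.Op
    · right
      exact ⟨D.Op_disj z h, D.Op_bounded.subset (D.comp_sub_Op h)⟩
    · left
      exact D.Cl_diff_sub ⟨hz, h⟩

end Chains

end Pool.Agent.VisGraph
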