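import Pool.Agent.VisGraph.Jordan

/-!
# Chords of a simple polygon
-/

namespace Pool.Agent.VisGraph

open Complex Set Filter Topology

/-- The closed curve consisting of a sub-path of the polygon and a segment. -/
def cl (p : ℕ → ℂ) (a c : ℕ) : Set ℂ := chain p a c ∪ segment ℝ (p c) (p a)

/-- The winding angle of that curve. -/
noncomputable def wd (p : ℕ → ℂ) (a c : ℕ) (z : ℂ) : ℝ := A p a c z + ang z (p c) (p a)

/-- The points off the curve with winding angle zero. -/
def Oz (p : ℕ → ℂ) (a c : ℕ) : Set ℂ := {z | z ∉ cl p a c ∧ wd p a c z = 0}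

lemma isClosed_cl (p : ℕ → ℂ) (a c : ℕ) : IsClosed (cl p a c) :=
  (isClosed_chain p a c).union (isClosed_seg _ _)

lemma wd_int {p : ℕ → ℂ} {a c : ℕ} (hac : a ≤ c) {z : ℂ} (hz : z ∉ cl p a c) :
    ∃ k : ℤ, wd p a c z = 2 * Real.pi * k :=
  closed_int hac (fun h => hz (Or.inl h)) (fun h => hz (Or.inr h))

lemma wd_cont {p : ℕ → ℂ} {a c : ℕ} {z : ℂ} (hz : z ∉ cl p a c) :
    ContinuousAt (wd p a c) z :=
  (continuousAt_A fun h => hz (Or.inl h)).add (continuousAt_ang fun h => hz (Or.inr h))

lemma tendsto_wd (p : ℕ → ℂ) (a c : ℕ) :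
    Tendsto (wd p a c) (Bornology.cobounded ℂ) (𝓝 0) := by
  have := (tendsto_A p a c).add (tendsto_ang_cobounded (p c) (p a))
  rwa [add_zero] at this

lemma int_small {x : ℝ} (h : ∃ k : ℤ, x = 2 * Real.pi * k) (hx : |x| < 1) : x = 0 := by
  obtain ⟨k, rfl⟩ := h
  have hpi := Real.pi_gt_three
  have hk0 : k = 0 := by
    by_contra hne
    have h4 : (1 : ℝ) ≤ |(k : ℝ)| := by
      have : (1 : ℤ) ≤ |k| := Int.one_le_abs hne
      have h5 : ((1 : ℤ) : ℝ) ≤ ((|k| : ℤ) : ℝ) := by exact_mod_cast this
      simpa using h5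
    rw [abs_mul, abs_of_pos (by positivity : (0 : ℝ) < 2 * Real.pi)] at hx
    nlinarith
  simp [hk0]

lemma isOpen_Oz {p : ℕ → ℂ} {a c : ℕ} (hac : a ≤ c) : IsOpen (Oz p a c) := by
  rw [isOpen_iff_mem_nhds]
  rintro z ⟨hz, hz0⟩
  have h1 : ∀ᶠ y in 𝓝 z, y ∉ cl p a c := (isClosed_cl p a c).isOpen_compl.mem_nhds hz
  have h2 : ∀ᶠ y in 𝓝 z, |wd p a c y| < 1 := by
    have := (wd_cont hz).eventually (Metric.ball_mem_nhds (wd p a c z) one_pos)
    filter_upwards [this] with y hy
    have hy' : dist (wd p a c y) (wd p a c z) < 1 := hy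
    rwa [Real.dist_eq, hz0, sub_zero] at hy'
  filter_upwards [h1, h2] with y hy1 hy2
  exact ⟨hy1, int_small (wd_int hac hy1) hy2⟩

section

variable {n : ℕ} {p : ℕ → ℂ} {ε : ℝ} {U : Set ℂ}

lemma wd_out (J : JData n p ε U) {a c : ℕ} (hac : a ≤ c) (hs : cl p a c ⊆ Uᶜ) {z : ℂ}
    (hz : z ∈ U) : wd p a c z = 0 :=
  zero_of_unbounded J.conn J.unbdd
    (fun _ hy => (wd_cont fun h => hs h hy).continuousWithinAt)
    (fun _ hy => wd_int hac fun h => hs h hy) (tendsto_wd p a c) hz

lemma wd_clos (J : JData n p ε U) {a c : ℕ} (hac : a ≤ c) (hs : cl p a c ⊆ Uᶜ) {z : ℂ}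
    (hz : z ∈ closure U) (hz' : z ∉ cl p a c) : wd p a c z = 0 := by
  have h2 : ∀ᶠ y in 𝓝 z, |wd p a c y - wd p a c z| < 1 := by
    have := (wd_cont hz').eventually (Metric.ball_mem_nhds (wd p a c z) one_pos)
    filter_upwards [this] with y hy
    have hy' : dist (wd p a c y) (wd p a c z) < 1 := hy
    rwa [Real.dist_eq] at hy'
  obtain ⟨y, hy, hyU⟩ := mem_closure_iff_nhds.1 hz _ h2
  have hy' : |wd p a c y - wd p a c z| < 1 := hy
  rw [wd_out J hac hs hyU] at hy'
  apply int_small (wd_int hac hz')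
  rwa [zero_sub, abs_neg] at hy'

lemma JData.chain_sub (J : JData n p ε U) (h : SP n p) {a c : ℕ} (hca : c ≤ a + n) :
    chain p a c ⊆ Uᶜ := by
  intro z hz hzU
  apply J.sub hzU
  rw [← h.chain_per a]
  exact chain_mono le_rfl hca hz

lemma JData.chain_clos (J : JData n p ε U) (h : SP n p) {a c : ℕ} (hca : c ≤ a + n) :
    chain p a c ⊆ closure U := by
  intro z hz
  apply J.clos
  rw [← h.chain_per a]
  exact chain_mono le_rfl hca hz

lemma JData.ne_zero (J : JData n p ε U) : 2 * Real.pi * ε ≠ 0 := by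
  have hpi := Real.pi_pos
  rcases J.eps with rfl | rfl
  · positivity
  · intro h0
    linarith

/-- The two sub-paths between `p a` and `p c` meet only in these two points. -/
lemma SP.chain_inter (h : SP n p) {a c : ℕ} {z : ℂ} (h1 : z ∈ chain p a c)
    (h2 : z ∈ chain p c (a + n)) : z = p a ∨ z = p c := by
  obtain ⟨k, hk1, hk2, hzk⟩ := h1
  obtain ⟨l, hl1, hl2, hzl⟩ := h2
  have hn := h.three_le
  by_cases e1 : k + 1 = l
  · right
    have hc : c = k + 1 := by omega
    subst hc
    subst e1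
    have h3 : z ∈ segment ℝ (p k) (p (k + 1)) ∩ segment ℝ (p (k + 1)) (p (k + 2)) := ⟨hzk, hzl⟩
    rw [h.consec k] at h3
    exact h3
  · by_cases e2 : l + 1 = k + n
    · left
      have hc : k = a := by omega
      subst hc
      have e3 : segment ℝ (p k) (p (k + 1)) = segment ℝ (p (l + 1)) (p (l + 2)) := by
        rw [e2, h.per, show l + 2 = k + 1 + n by omega, h.per]
      rw [e3] at hzk
      have h3 : z ∈ segment ℝ (p l) (p (l + 1)) ∩ segment ℝ (p (l + 1)) (p (l + 2)) := ⟨hzl, hzk⟩
      rw [h.consec l, e2, h.per] at h3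
      exact h3
    · have h3 : z ∈ segment ℝ (p k) (p (k + 1)) ∩ segment ℝ (p l) (p (l + 1)) := ⟨hzk, hzl⟩
      rw [h.disj k l (by omega) (by omega)] at h3
      exact absurd h3 (by simp)

/-- A chord `p a, p c` contained in the region, and the facts about it. -/
structure IsChord (n : ℕ) (p : ℕ → ℂ) (U : Set ℂ) (a c : ℕ) : Prop where
  lt1 : a < c
  lt2 : c < a + n
  sub : segment ℝ (p a) (p c) ⊆ Uᶜ

lemma IsChord.symm (h : SP n p) {a c : ℕ} (hc : IsChord n p U a c) : IsChord n p U c (a + n) := by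
  refine ⟨hc.lt2, ?_, ?_⟩
  · have := hc.lt1; omega
  · rw [h.per, segment_symm]; exact hc.sub

lemma IsChord.cl_sub (h : SP n p) (J : JData n p ε U) {a c : ℕ} (hc : IsChord n p U a c) :
    cl p a c ⊆ Uᶜ :=
  union_subset (J.chain_sub h hc.lt2.le) (by rw [segment_symm]; exact hc.sub)

lemma IsChord.wd_add (h : SP n p) {a c : ℕ} (hc : IsChord n p U a c) {z : ℂ}
    (hz : z ∉ segment ℝ (p a) (p c)) : wd p a c z + wd p c (a + n) z = A p 0 n z := by
  unfold wd
  rw [h.per, ← h.A_per a, ← A_add hc.lt1.le hc.lt2.le, ang_swap hz]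
  ring

lemma IsChord.notMem_bd (h : SP n p) {a c : ℕ} (hc : IsChord n p U a c) {z : ℂ}
    (h1 : z ∉ chain p a c) (h2 : z ∉ chain p c (a + n)) : z ∉ chain p 0 n := by
  rw [← h.chain_per a, chain_union hc.lt1.le hc.lt2.le]
  rintro (h3 | h3)
  · exact h1 h3
  · exact h2 h3

lemma IsChord.mem_Oz (h : SP n p) (J : JData n p ε U) {a c : ℕ} (hc : IsChord n p U a c) {z : ℂ}
    (hz : z ∉ segment ℝ (p a) (p c)) (hzc : z ∈ chain p a c) : z ∈ Oz p c (a + n) := by
  have h1 : z ∉ cl p c (a + n) := by
    rintro (h2 | h2)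
    · rcases h.chain_inter hzc h2 with h3 | h3
      · exact hz (h3 ▸ left_mem_segment ℝ _ _)
      · exact hz (h3 ▸ right_mem_segment ℝ _ _)
    · rw [h.per] at h2
      exact hz h2
  exact ⟨h1, wd_clos J hc.lt2.le ((hc.symm h).cl_sub h J)
    (J.chain_clos h hc.lt2.le hzc) h1⟩

lemma IsChord.mem_Oz' (h : SP n p) (J : JData n p ε U) {a c : ℕ} (hc : IsChord n p U a c) {z : ℂ}
    (hz : z ∉ segment ℝ (p a) (p c)) (hzc : z ∈ chain p c (a + n)) : z ∈ Oz p a c := by
  have h1 : z ∉ cl p a c := by
    rintro (h2 | h2)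
    · rcases h.chain_inter h2 hzc with h3 | h3
      · exact hz (h3 ▸ left_mem_segment ℝ _ _)
      · exact hz (h3 ▸ right_mem_segment ℝ _ _)
    · rw [segment_symm] at h2
      exact hz h2
  refine ⟨h1, wd_clos J hc.lt1.le (hc.cl_sub h J) (J.chain_clos h ?_ hzc) h1⟩
  have := hc.lt1
  omega

lemma IsChord.disj (h : SP n p) (J : JData n p ε U) {a c : ℕ} (hc : IsChord n p U a c) {z : ℂ}
    (hzU : z ∉ U) (h1 : z ∈ Oz p a c) (h2 : z ∈ Oz p c (a + n)) : False := by
  have hz : z ∉ segment ℝ (p a) (p c) := by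
    intro hh
    rw [segment_symm] at hh
    exact h1.1 (Or.inr hh)
  have h3 := hc.wd_add h hz
  rw [h1.2, h2.2, J.W_in z hzU (hc.notMem_bd h (fun hh => h1.1 (Or.inl hh))
    (fun hh => h2.1 (Or.inl hh)))] at h3
  exact J.ne_zero (by linarith)

/-- The region minus a chord is covered by the two relatively open parts. -/
lemma IsChord.cover (h : SP n p) (J : JData n p ε U) {a c : ℕ} (hc : IsChord n p U a c) {z : ℂ}
    (hzU : z ∉ U) (hz : z ∉ segment ℝ (p a) (p c)) : z ∈ Oz p a c ∨ z ∈ Oz p c (a + n) := by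
  set s := segment ℝ (p a) (p c) with hs
  have hne : p a ≠ p c := h.inj a c hc.lt1 hc.lt2
  set N : Set ℂ := Uᶜ ∩ sᶜ ∩ (Oz p a c)ᶜ ∩ (Oz p c (a + n))ᶜ with hN
  by_contra hcon
  push Not at hcon
  have hzN : z ∈ N := ⟨⟨⟨hzU, hz⟩, hcon.1⟩, hcon.2⟩
  have hNbd : ∀ y ∈ N, y ∉ chain p a c ∧ y ∉ chain p c (a + n) := by
    rintro y ⟨⟨⟨hy1, hy2⟩, hy3⟩, hy4⟩
    exact ⟨fun hh => hy4 (hc.mem_Oz h J hy2 hh), fun hh => hy3 (hc.mem_Oz' h J hy2 hh)⟩
  have hNo : IsOpen N := by
    rw [isOpen_iff_mem_nhds]
    intro y hy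
    obtain ⟨⟨⟨hy1, hy2⟩, hy3⟩, hy4⟩ := hy
    obtain ⟨hb1, hb2⟩ := hNbd y ⟨⟨⟨hy1, hy2⟩, hy3⟩, hy4⟩
    have hyB := hc.notMem_bd h hb1 hb2
    have hycl1 : y ∉ cl p a c := by
      rintro (hh | hh)
      · exact hb1 hh
      · rw [segment_symm] at hh
        exact hy2 hh
    have hycl2 : y ∉ cl p c (a + n) := by
      rintro (hh | hh)
      · exact hb2 hh
      · rw [h.per] at hh
        exact hy2 hh
    have hw1 : wd p a c y ≠ 0 := fun hh => hy3 ⟨hycl1, hh⟩
    have hw2 : wd p c (a + n) y ≠ 0 := fun hh => hy4 ⟨hycl2, hh⟩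
    have e1 : ∀ᶠ x in 𝓝 y, wd p a c x ≠ 0 := (wd_cont hycl1).eventually_ne hw1
    have e2 : ∀ᶠ x in 𝓝 y, wd p c (a + n) x ≠ 0 := (wd_cont hycl2).eventually_ne hw2
    have e3 : ∀ᶠ x in 𝓝 y, x ∉ s := (isClosed_seg _ _).isOpen_compl.mem_nhds hy2
    have e4 : ∀ᶠ x in 𝓝 y, x ∉ U := by
      have hne : A p 0 n y ≠ 0 := by
        rw [J.W_in y hy1 hyB]; exact J.ne_zero
      filter_upwards [(continuousAt_A hyB).eventually_ne hne] with x hx hxU
      exact hx (J.W_out x hxU)
    filter_upwards [e1, e2, e3, e4] with x hx1 hx2 hx3 hx4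
    exact ⟨⟨⟨hx4, hx3⟩, fun hh => hx1 hh.2⟩, fun hh => hx2 hh.2⟩
  have hsub : sᶜ ⊆ N := by
    apply (isPreconnected_compl_segment hne).subset_of_closure_inter_subset hNo ⟨z, hz, hzN⟩
    rintro y ⟨hyc, hys⟩
    refine ⟨⟨⟨?_, hys⟩, ?_⟩, ?_⟩
    · have : closure N ⊆ Uᶜ := closure_minimal (fun x hx => hx.1.1.1) J.isOpen.isClosed_compl
      exact this hyc
    · have : closure N ⊆ (Oz p a c)ᶜ :=
        closure_minimal (fun x hx => hx.1.2) (isOpen_Oz hc.lt1.le).isClosed_compl
      exact this hyc
    · have : closure N ⊆ (Oz p c (a + n))ᶜ :=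
        closure_minimal (fun x hx => hx.2) (isOpen_Oz hc.lt2.le).isClosed_compl
      exact this hyc
  apply not_isBounded_compl (isCompact_seg (p a) (p c)).isBounded
  exact J.bdd.subset (hsub.trans fun x hx => hx.1.1.1)

/-- A connected part of the region which avoids a chord stays on one side of it. -/
lemma IsChord.side (h : SP n p) (J : JData n p ε U) {a c : ℕ} (hc : IsChord n p U a c)
    {D : Set ℂ} (hD : IsPreconnected D) (hDU : D ⊆ Uᶜ) (hDs : ∀ z ∈ D, z ∉ segment ℝ (p a) (p c)) :
    D ⊆ Oz p a c ∨ D ⊆ Oz p c (a + n) := by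
  refine isPreconnected_iff_subset_of_disjoint.1 hD _ _ (isOpen_Oz hc.lt1.le)
    (isOpen_Oz hc.lt2.le) (fun z hz => hc.cover h J (hDU hz) (hDs z hz)) ?_
  ext z
  simp only [mem_inter_iff, mem_empty_iff_false, iff_false, not_and]
  intro hz h1 h2
  exact hc.disj h J (hDU hz) h1 h2

/-- Two chords with alternating endpoints meet. -/
lemma IsChord.cross (h : SP n p) (J : JData n p ε U) {a b c d : ℕ} (hc : IsChord n p U a c)
    (hd : IsChord n p U b d) (hab : a < b) (hbc : b < c) (hcd : c < d) (hda : d < a + n) :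
    ∃ x, x ∈ segment ℝ (p a) (p c) ∧ x ∈ segment ℝ (p b) (p d) := by
  by_contra hcon
  push Not at hcon
  have hconv : IsPreconnected (segment ℝ (p b) (p d)) := (convex_segment _ _).isPreconnected
  have hb : p b ∈ Oz p c (a + n) := hc.mem_Oz h J
    (fun hh => hcon _ hh (left_mem_segment ℝ _ _)) (mid_mem_chain hab.le hbc)
  have hd' : p d ∈ Oz p a c := hc.mem_Oz' h J
    (fun hh => hcon _ hh (right_mem_segment ℝ _ _)) (mid_mem_chain hcd.le hda)
  rcases hc.side h J hconv hd.sub (fun z hz hz' => hcon z hz' hz) with h1 | h1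
  · exact hc.disj h J (hd.sub (left_mem_segment ℝ _ _)) (h1 (left_mem_segment ℝ _ _)) hb
  · exact hc.disj h J (hd.sub (right_mem_segment ℝ _ _)) hd' (h1 (right_mem_segment ℝ _ _))

lemma orient_lineMap (u v q y : ℂ) (hq : orient u v q = 0) (t : ℝ) :
    orient u v (q + t * (y - q)) = t * orient u v y := by
  have h1 : orient u v (q + t * (y - q)) = (1 - t) * orient u v q + t * orient u v y := by
    simp only [orient, cr, Complex.sub_re, Complex.sub_im, Complex.add_re, Complex.add_im,
      Complex.mul_re, Complex.mul_im, Complex.ofReal_re, Complex.ofReal_im]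
    ring
  rw [h1, hq]; ring

/-- Points of the region seen from the interior of a chord, on the side of the first path, belong
to that side. -/
lemma IsChord.visible (h : SP n p) (J : JData n p ε U) {a c : ℕ} (hc : IsChord n p U a c)
    {q y : ℂ} (hq : q ∈ openSegment ℝ (p a) (p c)) (hy : ε * orient (p a) (p c) y < 0)
    (hqy : segment ℝ q y ⊆ Uᶜ) : y ∈ Oz p c (a + n) := by
  have hpi := Real.pi_pos
  have hne : p a ≠ p c := h.inj a c hc.lt1 hc.lt2
  have hq0 := orient_eq_zero_of_mem (openSegment_subset_segment ℝ _ _ hq)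
  have hε0 : ε ≠ 0 := by
    rintro rfl
    simp at hy
  set D : Set ℂ := (fun t : ℝ => q + t * (y - q)) '' Ioc 0 1 with hD
  have hDpre : IsPreconnected D :=
    isPreconnected_Ioc.image _ (by fun_prop)
  have hDneg : ∀ z ∈ D, ε * orient (p a) (p c) z < 0 := by
    rintro _ ⟨t, ht, rfl⟩
    show ε * orient (p a) (p c) (q + t * (y - q)) < 0
    rw [orient_lineMap _ _ _ _ hq0]
    have := mul_pos_of_neg_of_neg hy (neg_lt_zero.2 ht.1)
    nlinarith
  have hDs : ∀ z ∈ D, z ∉ segment ℝ (p a) (p c) := by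
    intro z hz hz'
    have := hDneg z hz
    rw [orient_eq_zero_of_mem hz', mul_zero] at this
    exact lt_irrefl _ this
  have hDU : D ⊆ Uᶜ := by
    rintro _ ⟨t, ht, rfl⟩
    apply hqy
    refine ⟨1 - t, t, by linarith [ht.2], ht.1.le, by ring, ?_⟩
    simp only [Complex.real_smul]
    push_cast
    ring
  have hyD : y ∈ D := ⟨1, by simp, by simp⟩
  have hnear : ∀ r > 0, ∃ z ∈ D, dist z q < r := by
    intro r hr
    have h1 : Continuous fun t : ℝ => q + t * (y - q) := by fun_prop
    have h2 : ∀ᶠ t : ℝ in 𝓝 0, dist (q + t * (y - q)) q < r := by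
      have := h1.continuousAt.eventually_mem (x := (0 : ℝ)) (s := Metric.ball q r)
        (Metric.isOpen_ball.mem_nhds (by simpa using hr))
      exact this
    have h3 : ∀ᶠ t : ℝ in 𝓝[>] 0, dist (q + t * (y - q)) q < r ∧ t ∈ Ioo (0 : ℝ) 1 :=
      (h2.filter_mono nhdsWithin_le_nhds).and (Ioo_mem_nhdsGT one_pos)
    obtain ⟨t, ht, ht1⟩ := h3.exists
    exact ⟨_, ⟨t, ⟨ht1.1, ht1.2.le⟩, rfl⟩, ht⟩
  rcases hc.side h J hDpre hDU hDs with hDO | hDO
  swap
  · exact hDO hyD
  exfalso
  by_cases hqc : q ∈ chain p a c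
  · -- `q` lies on the first path, hence not on the second one
    have hqc' : q ∉ chain p c (a + n) := by
      intro hh
      have hco := (mem_openSegment_iff_co hne q).1 hq
      rcases h.chain_inter hqc hh with h3 | h3
      · rw [h3] at hco
        have : co (p a) (p c) (p a) = 0 := by simp [co]
        rw [this] at hco
        simp at hco
      · rw [h3] at hco
        have : co (p a) (p c) (p c) = 1 := by
          unfold co
          exact div_self (sub_ne_zero.2 hne.symm)
        rw [this] at hco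
        simp at hco
    have hev : ∀ᶠ z in 𝓝 q, z ∉ chain p c (a + n) :=
      (isClosed_chain p c (a + n)).isOpen_compl.mem_nhds hqc'
    obtain ⟨r, hr, hj⟩ := jump' hne hq (continuousAt_A hqc') (by
      filter_upwards [hev] with z hz ho
      have h1 : z ∉ segment ℝ (p a) (p c) := by
        intro hh
        exact ho (orient_eq_zero_of_mem hh)
      have h2 := closed_int hc.lt2.le hz (by rw [h.per]; exact h1)
      rwa [h.per] at h2) J.eps
    obtain ⟨r', hr', hev'⟩ := Metric.eventually_nhds_iff.1 hev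
    obtain ⟨z0, hz0D, hz0⟩ := hnear (min r r') (lt_min hr hr')
    have hz0r := lt_of_lt_of_le hz0 (min_le_left _ _)
    have hz0r' := lt_of_lt_of_le hz0 (min_le_right _ _)
    have hz0O := hDO hz0D
    have hWz0 : A p 0 n z0 = 2 * Real.pi * ε := J.W_in z0 (hDU hz0D)
      (hc.notMem_bd h (fun hh => hz0O.1 (Or.inl hh)) (hev' hz0r'))
    have hsum := hc.wd_add h (hDs z0 hz0D)
    rw [hz0O.2, hWz0, zero_add] at hsum
    have hwe : ∀ z, wd p c (a + n) z = A p c (a + n) z + ang z (p a) (p c) := by
      intro z; unfold wd; rw [h.per]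
    -- an outer point near `q`
    have hqcl : q ∈ closure U := J.chain_clos h hc.lt2.le hqc
    obtain ⟨u0, hu0, hu0U⟩ := mem_closure_iff.1 hqcl _ Metric.isOpen_ball
      (Metric.mem_ball_self hr)
    have hopen : IsOpen (U ∩ Metric.ball q r) := J.isOpen.inter Metric.isOpen_ball
    obtain ⟨u, ⟨huU, hub⟩, huo⟩ : ∃ u ∈ U ∩ Metric.ball q r, orient (p a) (p c) u ≠ 0 := by
      rcases le_total 0 (orient (p a) (p c) u0) with h0 | h0
      · obtain ⟨u, hu, ho⟩ := exists_pos hne hopen ⟨hu0U, hu0⟩ h0
        exact ⟨u, hu, ho.ne'⟩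
      · obtain ⟨u, hu, ho⟩ := exists_neg hne hopen ⟨hu0U, hu0⟩ h0
        exact ⟨u, hu, ho.ne⟩
    have hub' : dist u q < r := hub
    have hwu : wd p c (a + n) u = 0 := wd_out J hc.lt2.le ((hc.symm h).cl_sub h J) huU
    rcases lt_or_gt_of_ne (mul_ne_zero hε0 huo) with hlt | hgt
    · -- a point on the other side
      obtain ⟨z', hz'b, hz'o⟩ : ∃ z' ∈ Metric.ball q r, 0 < ε * orient (p a) (p c) z' := by
        rcases J.eps with e | e
        · obtain ⟨z', h1, h2⟩ := exists_pos hne Metric.isOpen_ball (Metric.mem_ball_self hr) hq0.ge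
          exact ⟨z', h1, by rw [e]; linarith⟩
        · obtain ⟨z', h1, h2⟩ := exists_neg hne Metric.isOpen_ball (Metric.mem_ball_self hr) hq0.le
          exact ⟨z', h1, by rw [e]; linarith⟩
      have e1 := hj u z' hub' hz'b hlt hz'o
      have e2 := hj z0 z' hz0r hz'b (hDneg z0 hz0D) hz'o
      rw [← hwe, ← hwe] at e1 e2
      rw [e1, hwu, hsum] at e2
      exact J.ne_zero (by linarith)
    · have e2 := hj z0 u hz0r hub' (hDneg z0 hz0D) hgt
      rw [← hwe, ← hwe, hwu, hsum] at e2
      exact J.ne_zero (by linarith)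
  · -- `q` is not on the first path
    have hq' : q ∈ openSegment ℝ (p c) (p a) := by rw [openSegment_symm]; exact hq
    have hev : ∀ᶠ z in 𝓝 q, z ∉ chain p a c :=
      (isClosed_chain p a c).isOpen_compl.mem_nhds hqc
    obtain ⟨r, hr, hj⟩ := jump' hne.symm hq' (continuousAt_A hqc) (by
      filter_upwards [hev] with z hz ho
      have h1 : z ∉ segment ℝ (p c) (p a) := by
        intro hh
        exact ho (orient_eq_zero_of_mem hh)
      exact closed_int hc.lt1.le hz h1) J.eps
    obtain ⟨r', hr', hev'⟩ := Metric.eventually_nhds_iff.1 hev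
    have hmin : 0 < min r r' := lt_min hr hr'
    obtain ⟨z0, hz0D, hz0⟩ := hnear (min r r') hmin
    have hz0r := lt_of_lt_of_le hz0 (min_le_left _ _)
    have hz0O := hDO hz0D
    obtain ⟨z', hz'b, hz'o⟩ : ∃ z' ∈ Metric.ball q (min r r'), 0 < ε * orient (p a) (p c) z' := by
      rcases J.eps with e | e
      · obtain ⟨z', h1, h2⟩ := exists_pos hne Metric.isOpen_ball (Metric.mem_ball_self hmin) hq0.ge
        exact ⟨z', h1, by rw [e]; linarith⟩
      · obtain ⟨z', h1, h2⟩ := exists_neg hne Metric.isOpen_ball (Metric.mem_ball_self hmin) hq0.le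
        exact ⟨z', h1, by rw [e]; linarith⟩
    have hz'b' : dist z' q < min r r' := hz'b
    have hz's : z' ∉ segment ℝ (p a) (p c) := by
      intro hh
      rw [orient_eq_zero_of_mem hh, mul_zero] at hz'o
      exact lt_irrefl _ hz'o
    have e1 : wd p a c z0 = wd p a c z' + 2 * Real.pi * ε :=
      hj z' z0 (lt_of_lt_of_le hz'b' (min_le_left _ _)) hz0r
        (by rw [orient_swap]; linarith) (by rw [orient_swap]; linarith [hDneg z0 hz0D])
    rw [hz0O.2] at e1
    by_cases hz'U : z' ∈ U
    · rw [wd_out J hc.lt1.le (hc.cl_sub h J) hz'U] at e1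
      exact J.ne_zero (by linarith)
    · rcases hc.cover h J hz'U hz's with h1 | h1
      · rw [h1.2] at e1
        exact J.ne_zero (by linarith)
      · have hWz' : A p 0 n z' = 2 * Real.pi * ε := J.W_in z' hz'U
          (hc.notMem_bd h (hev' (lt_of_lt_of_le hz'b' (min_le_right _ _)))
            (fun hh => h1.1 (Or.inl hh)))
        have hsum := hc.wd_add h hz's
        rw [h1.2, hWz', add_zero] at hsum
        rw [hsum] at e1
        exact J.ne_zero (by linarith)

/-- The crossing point of two chords with alternating endpoints lies on the right side. -/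
lemma IsChord.cross_orient (h : SP n p) (J : JData n p ε U) {a b c d : ℕ}
    (hc : IsChord n p U a c)
    (hd : IsChord n p U b d) (hab : a < b) (hbc : b < c) (hcd : c < d) (hda : d < a + n) {x : ℂ}
    (hx1 : x ∈ segment ℝ (p a) (p c)) (hx2 : x ∈ segment ℝ (p b) (p d)) :
    0 ≤ ε * orient (p a) x (p d) := by
  by_contra hcon
  push Not at hcon
  have hne : p a ≠ p c := h.inj a c hc.lt1 hc.lt2
  have hxa : x ≠ p a := by
    rintro rfl
    simp [orient, cr] at hcon
  have hxd : x ≠ p d := by
    intro hh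
    rw [hh] at hcon
    have : orient (p a) (p d) (p d) = 0 := by
      simp only [orient, cr]; ring
    rw [this, mul_zero] at hcon
    exact lt_irrefl _ hcon
  by_cases hxc : x = p c
  · have hcb : p c ≠ p b := (h.inj b c hbc (by omega)).symm
    have hx3 : p c ∈ openSegment ℝ (p b) (p d) := by
      rw [hxc] at hx2
      rw [← insert_endpoints_openSegment] at hx2
      rcases hx2 with h1 | h1 | h1
      · exact absurd h1 hcb
      · exact absurd (hxc.trans h1) hxd
      · exact h1
    have hsg : ε * orient (p b) (p d) (p (a + n)) < 0 := by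
      rw [h.per]
      obtain ⟨s, t, hs, ht, hst, he⟩ := hx3
      have e1 : orient (p a) (p c) (p d) = s * orient (p b) (p d) (p a) := by
        have hs1 : s = 1 - t := by linarith
        rw [← he, hs1]
        simp only [orient, cr, Complex.sub_re, Complex.sub_im, Complex.add_re, Complex.add_im,
          Complex.real_smul, Complex.mul_re, Complex.mul_im, Complex.ofReal_re, Complex.ofReal_im]
        ring
      rw [hxc, e1] at hcon
      by_contra hcon2
      push Not at hcon2
      have := mul_nonneg hs.le hcon2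
      linarith
    have h1 := hd.visible h J hx3 hsg (by
      rw [h.per, segment_symm]
      exact hc.sub)
    apply h1.1
    left
    exact mid_mem_chain (by omega) (by omega)
  · have hx3 : x ∈ openSegment ℝ (p a) (p c) := by
      rw [← insert_endpoints_openSegment] at hx1
      rcases hx1 with h1 | h1 | h1
      · exact absurd h1 hxa
      · exact absurd h1 hxc
      · exact h1
    have hsg : ε * orient (p a) (p c) (p d) < 0 := by
      obtain ⟨s, t, hs, ht, hst, he⟩ := hx3
      have e1 : orient (p a) x (p d) = t * orient (p a) (p c) (p d) := by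
        have hs1 : s = 1 - t := by linarith
        rw [← he, hs1]
        simp only [orient, cr, Complex.sub_re, Complex.sub_im, Complex.add_re, Complex.add_im,
          Complex.real_smul, Complex.mul_re, Complex.mul_im, Complex.ofReal_re, Complex.ofReal_im]
        ring
      rw [e1] at hcon
      by_contra hcon2
      push Not at hcon2
      have := mul_nonneg ht.le hcon2
      linarith
    have h1 := hc.visible h J hx3 hsg (by
      refine Subset.trans ?_ hd.sub
      exact (convex_segment _ _).segment_subset hx2 (right_mem_segment ℝ _ _))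
    apply h1.1
    left
    exact mid_mem_chain (by omega) (by omega)

/-- A broken line over a segment is seen under the angle `π` from the points of the segment. -/
lemma ang_add_pos {a d x z : ℂ} (hz : z ∈ openSegment ℝ a d) (ho : 0 < orient a x d) :
    ang z a x + ang z x d = Real.pi := by
  obtain ⟨s, t, hs, ht, hst, he⟩ := hz
  have hne : d ≠ a := by
    rintro rfl
    simp [orient, cr] at ho
  have hda : (d : ℂ) - a ≠ 0 := sub_ne_zero.2 hne
  have hs1 : s = 1 - t := by linarith
  have hz' : z = a + t * (d - a) := by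
    rw [← he, hs1]
    simp only [Complex.real_smul]
    push_cast; ring
  have haz : a - z = -(t : ℂ) * (d - a) := by rw [hz']; ring
  have hdz : d - z = (s : ℂ) * (d - a) := by rw [hz', hs1]; push_cast; ring
  have htC : (t : ℂ) ≠ 0 := by exact_mod_cast ht.ne'
  have hsC : (s : ℂ) ≠ 0 := by exact_mod_cast hs.ne'
  have haz0 : a - z ≠ 0 := by
    rw [haz]; exact mul_ne_zero (neg_ne_zero.2 htC) hda
  set α := (x - z) / (a - z) with hα
  have hαim : 0 < α.im := by
    rw [hα, im_div_eq]
    apply div_pos _ (Complex.normSq_pos.2 haz0)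
    have : orient a x z = t * orient a x d := by
      rw [hz']
      simp only [orient, cr, Complex.sub_re, Complex.sub_im, Complex.add_re, Complex.add_im,
        Complex.mul_re, Complex.mul_im, Complex.ofReal_re, Complex.ofReal_im]
      ring
    rw [this]
    positivity
  have hα0 : α ≠ 0 := by
    intro h0
    rw [h0] at hαim
    simp at hαim
  have hxz0 : x - z ≠ 0 := by
    intro h0
    apply hα0
    rw [hα, h0, zero_div]
  have hβ : (d - z) / (x - z) = ((s / t : ℝ) : ℂ) * (-α⁻¹) := by
    rw [hα, inv_div, haz, hdz]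
    push_cast
    field_simp
  have hαarg : Complex.arg α ≠ Real.pi := by
    intro h0
    have := (Complex.arg_eq_pi_iff.1 h0).2
    rw [this] at hαim
    exact lt_irrefl _ hαim
  have hinvim : (α⁻¹).im < 0 := by
    rw [Complex.inv_im]
    apply div_neg_of_neg_of_pos
    · linarith
    · exact Complex.normSq_pos.2 hα0
  unfold ang
  rw [hβ, Complex.arg_real_mul _ (by positivity), Complex.arg_neg_eq_arg_add_pi_of_im_neg hinvim,
    Complex.arg_inv, if_neg hαarg]
  ring

lemma ang_add_eps {a d x z : ℂ} (hz : z ∈ openSegment ℝ a d) (hε : ε = 1 ∨ ε = -1)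
    (ho : 0 < ε * orient a x d) (h1 : z ∉ segment ℝ a x) (h2 : z ∉ segment ℝ x d) :
    ang z a x + ang z x d = Real.pi * ε := by
  rcases hε with rfl | rfl
  · rw [ang_add_pos hz (by linarith), mul_one]
  · have h3 := ang_add_pos (a := d) (d := a) (x := x) (z := z)
      (by rw [openSegment_symm]; exact hz)
      (by
        have : orient d x a = - orient a x d := by
          simp only [orient, cr, Complex.sub_re, Complex.sub_im]; ring
        rw [this]; linarith)
    rw [segment_symm] at h1 h2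
    rw [ang_swap h1, ang_swap h2]
    linarith

lemma segment_collinear {a x d z : ℂ} (hne : a ≠ d) (ho : orient a x d = 0)
    (hz : z ∈ segment ℝ a d) : z ∈ segment ℝ a x ∨ z ∈ segment ℝ x d := by
  have ho' : orient a d x = 0 := by
    have : orient a d x = - orient a x d := by
      simp only [orient, cr, Complex.sub_re, Complex.sub_im]; ring
    rw [this, ho, neg_zero]
  have him : (co a d x).im = 0 := by
    rw [orient_eq_co hne] at ho'
    rcases mul_eq_zero.1 ho' with h1 | h1
    · exact absurd h1 (normSq_pos' hne).ne'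
    · exact h1
  obtain ⟨hz1, hz2, hz3⟩ := (mem_segment_iff_co hne z).1 hz
  set τ := (co a d x).re with hτ
  set t := (co a d z).re with ht
  have hx : x = a + (τ : ℂ) * (d - a) := by
    conv_lhs => rw [co_affine hne x]
    have : co a d x = (τ : ℂ) := by
      apply Complex.ext <;> simp [him, hτ]
    rw [this]
  have hz' : z = a + (t : ℂ) * (d - a) := by
    conv_lhs => rw [co_affine hne z]
    have : co a d z = (t : ℂ) := by
      apply Complex.ext <;> simp [hz1, ht]
    rw [this]
  rcases le_or_gt t τ with hle | hlt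
  · left
    rcases hz2.eq_or_lt with h0 | h0
    · have : z = a := by rw [hz', ← h0]; simp
      rw [this]; exact left_mem_segment ℝ _ _
    · have hτ0 : 0 < τ := by linarith
      refine ⟨1 - t / τ, t / τ, ?_, by positivity, by ring, ?_⟩
      · rw [sub_nonneg, div_le_one hτ0]; exact hle
      · rw [hx, hz']
        have : (τ : ℂ) ≠ 0 := by exact_mod_cast hτ0.ne'
        simp only [Complex.real_smul]
        push_cast
        field_simp
        ring
  · right
    have h1τ : 0 < 1 - τ := by linarith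
    refine ⟨(1 - t) / (1 - τ), (t - τ) / (1 - τ), ?_, ?_, ?_, ?_⟩
    · exact div_nonneg (by linarith) h1τ.le
    · exact div_nonneg (by linarith) h1τ.le
    · field_simp; ring
    · rw [hx, hz']
      have : (1 - τ : ℂ) ≠ 0 := by
        have h2 : ((1 - τ : ℝ) : ℂ) ≠ 0 := by exact_mod_cast h1τ.ne'
        simpa using h2
      simp only [Complex.real_smul]
      push_cast
      field_simp
      ring

/-- **The four chord lemma.** -/
theorem four_chords (h : SP n p) (J : JData n p ε U) {a b c d e f : ℕ}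
    (hab : a < b) (hbc : b < c) (hcd : c < d) (hde : d < e) (hef : e < f) (hfa : f < a + n)
    (h1 : segment ℝ (p a) (p c) ⊆ Uᶜ) (h2 : segment ℝ (p b) (p d) ⊆ Uᶜ)
    (h3 : segment ℝ (p a) (p e) ⊆ Uᶜ) (h4 : segment ℝ (p d) (p f) ⊆ Uᶜ) :
    segment ℝ (p a) (p d) ⊆ Uᶜ := by
  have c1 : IsChord n p U a c := ⟨by omega, by omega, h1⟩
  have c2 : IsChord n p U b d := ⟨by omega, by omega, h2⟩
  have c3 : IsChord n p U e (a + n) := ⟨by omega, by omega, by
    rw [h.per, segment_symm]; exact h3⟩
  have c4 : IsChord n p U d f := ⟨by omega, by omega, h4⟩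
  obtain ⟨x, hx1, hx2⟩ := c1.cross h J c2 hab hbc hcd (by omega)
  have ho := c1.cross_orient h J c2 hab hbc hcd (by omega) hx1 hx2
  obtain ⟨x', hx1', hx2'⟩ := c4.cross h J c3 hde hef (by omega) (by omega)
  have ho' := c4.cross_orient h J c3 hde hef (by omega) (by omega) hx1' hx2'
  rw [h.per] at hx2' ho'
  have hne : p a ≠ p d := h.inj a d (by omega) (by omega)
  have s1 : segment ℝ (p a) x ⊆ Uᶜ :=
    ((convex_segment _ _).segment_subset (left_mem_segment ℝ _ _) hx1).trans h1
  have s2 : segment ℝ x (p d) ⊆ Uᶜ :=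
    ((convex_segment _ _).segment_subset hx2 (right_mem_segment ℝ _ _)).trans h2
  have s3 : segment ℝ (p d) x' ⊆ Uᶜ :=
    ((convex_segment _ _).segment_subset (left_mem_segment ℝ _ _) hx1').trans h4
  have s4 : segment ℝ x' (p a) ⊆ Uᶜ :=
    ((convex_segment _ _).segment_subset hx2' (right_mem_segment ℝ _ _)).trans
      (by rw [segment_symm]; exact h3)
  intro z hz hzU
  rcases ho.eq_or_lt with h0 | hlt
  · have h0' : orient (p a) x (p d) = 0 := by
      rcases mul_eq_zero.1 h0.symm with e1 | e1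
      · exact absurd (by rw [e1, mul_zero] : 2 * Real.pi * ε = 0) J.ne_zero
      · exact e1
    rcases segment_collinear hne h0' hz with h5 | h5
    · exact s1 h5 hzU
    · exact s2 h5 hzU
  · rcases ho'.eq_or_lt with h0 | hlt'
    · have h0' : orient (p d) x' (p a) = 0 := by
        rcases mul_eq_zero.1 h0.symm with e1 | e1
        · exact absurd (by rw [e1, mul_zero] : 2 * Real.pi * ε = 0) J.ne_zero
        · exact e1
      rw [segment_symm] at hz
      rcases segment_collinear hne.symm h0' hz with h5 | h5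
      · exact s3 h5 hzU
      · exact s4 h5 hzU
    · -- the generic case
      have hzo : z ∈ openSegment ℝ (p a) (p d) := by
        rw [← insert_endpoints_openSegment] at hz
        rcases hz with e1 | e1 | e1
        · exact absurd hzU (s1 (e1 ▸ left_mem_segment ℝ _ _))
        · exact absurd hzU (s2 (e1 ▸ right_mem_segment ℝ _ _))
        · exact e1
      have n1 : ∀ y ∈ U, y ∉ segment ℝ (p a) x := fun y hy hh => s1 hh hy
      have n2 : ∀ y ∈ U, y ∉ segment ℝ x (p d) := fun y hy hh => s2 hh hy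
      have n3 : ∀ y ∈ U, y ∉ segment ℝ (p d) x' := fun y hy hh => s3 hh hy
      have n4 : ∀ y ∈ U, y ∉ segment ℝ x' (p a) := fun y hy hh => s4 hh hy
      set g : ℂ → ℝ := fun y => ang y (p a) x + ang y x (p d) + ang y (p d) x' + ang y x' (p a)
        with hg
      have hg0 : g z = 0 := by
        apply zero_of_unbounded J.conn J.unbdd _ _ _ hzU
        · intro y hy
          exact ((((continuousAt_ang (n1 y hy)).add (continuousAt_ang (n2 y hy))).add
            (continuousAt_ang (n3 y hy))).add (continuousAt_ang (n4 y hy))).continuousWithinAt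
        · intro y hy
          have r1 := (((Rot.ang (n1 y hy)).trans (Rot.ang (n2 y hy))).trans
            (Rot.ang (n3 y hy))).trans (Rot.ang (n4 y hy))
          refine Rot.closed ?_ r1
          rintro rfl
          exact n1 _ hy (left_mem_segment ℝ _ _)
        · have := (((tendsto_ang_cobounded (p a) x).add (tendsto_ang_cobounded x (p d))).add
            (tendsto_ang_cobounded (p d) x')).add (tendsto_ang_cobounded x' (p a))
          simpa using this
      have e1 := ang_add_eps hzo J.eps hlt (n1 z hzU) (n2 z hzU)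
      have e2 := ang_add_eps (a := p d) (d := p a) (by rw [openSegment_symm]; exact hzo)
        J.eps hlt' (n3 z hzU) (n4 z hzU)
      have e3 : g z = Real.pi * ε + Real.pi * ε := by
        rw [hg]
        show ang z (p a) x + ang z x (p d) + ang z (p d) x' + ang z x' (p a) = _
        linarith
      apply J.ne_zero
      linarith

end

end Pool.Agent.VisGraph
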