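import Pool.Agent.VisGraph.Fam

/-!
# Every edge is covered by one of the families
-/

namespace Pool.Agent.VisGraph

open Finset

/-- the edge `a d` is covered by the family -/
def Covd {adj : ℤ → ℤ → Prop} {K : ℕ} (F : Fam adj K) (a d : ℤ) : Prop :=
  ∃ k, F.inA k a ∧ F.inB k d

/-- all families -/
def fams {adj : ℤ → ℤ → Prop} (hs : ∀ x y, adj x y → adj y x) (H : HProp adj) (K : ℕ) :
    List (Fam adj K) :=
  [famR K, famM K, famTau K, famT hs H K, famU hs H K, famV hs H K, famC hs H K, famW1 hs H K,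
    famW2 hs H K]

lemma mir_symm {adj : ℤ → ℤ → Prop} (hs : ∀ x y, adj x y → adj y x) :
    ∀ x y, mir adj x y → mir adj y x := fun _ _ h => hs _ _ h

lemma pf_le_mul (s : ℕ) (x : ℤ) : pf s x * 2 ^ s ≤ x := Int.ediv_mul_le x (by positivity)

lemma lt_pf_mul (s : ℕ) (x : ℤ) : x < (pf s x + 1) * 2 ^ s :=
  Int.lt_ediv_add_one_mul_self x (by positivity)

lemma exists_isLeast {P : ℤ → Prop} {s : ℕ} {c : ℤ} (h : ∃ x, P x ∧ pf s x = c) :
    ∃ g, IsLeast {y | P y ∧ pf s y = c} g := by
  obtain ⟨lb, h1, h2⟩ := Int.exists_least_of_bdd (P := fun y => P y ∧ pf s y = c)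
    ⟨c * 2 ^ s, fun z hz => by have := pf_le_mul s z; rw [hz.2] at this; exact this⟩ h
  exact ⟨lb, h1, fun z hz => h2 z hz⟩

lemma exists_isGreatest {P : ℤ → Prop} {s : ℕ} {c : ℤ} (h : ∃ x, P x ∧ pf s x = c) :
    ∃ g, IsGreatest {y | P y ∧ pf s y = c} g := by
  obtain ⟨lb, h1, h2⟩ := Int.exists_greatest_of_bdd (P := fun y => P y ∧ pf s y = c)
    ⟨(c + 1) * 2 ^ s, fun z hz => by have := lt_pf_mul s z; rw [hz.2] at this; exact this.le⟩ h
  exact ⟨lb, h1, fun z hz => h2 z hz⟩

section

variable {adj : ℤ → ℤ → Prop} (hs : ∀ x y, adj x y → adj y x) (H : HProp adj) (K : ℕ)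

lemma not_critB {s : ℕ} {d : ℤ} (h : ¬ freeB adj s d) : critB adj s d := by
  intro x hx
  by_contra hno
  exact h ⟨x, hx, not_le.mp hno⟩

/-- mirror of `isL` -/
lemma isL.mir {s : ℕ} {d l : ℤ} (h : isL adj s d l) : isR (mir adj) s (-1 - d) (-1 - l) := by
  refine ⟨⟨?_, ?_⟩, ?_⟩
  · change adj _ _
    have e1 : -1 - (-1 - d) = d := by ring
    have e2 : -1 - (-1 - l) = l := by ring
    rw [e1, e2]
    exact h.1.1
  · rw [pf_neg, pf_neg]
    have := h.1.2
    omega
  · rintro x ⟨hx1, hx2⟩
    change adj _ _ at hx1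
    have e1 : -1 - (-1 - d) = d := by ring
    rw [e1] at hx1
    rw [pf_neg] at hx2
    have : -1 - x ≤ l := h.2 ⟨hx1, by rw [pf_neg]; omega⟩
    omega

lemma isR.mir {s : ℕ} {a r : ℤ} (h : isR adj s a r) : isL (mir adj) s (-1 - a) (-1 - r) := by
  refine ⟨⟨?_, ?_⟩, ?_⟩
  · change adj _ _
    have e1 : -1 - (-1 - a) = a := by ring
    have e2 : -1 - (-1 - r) = r := by ring
    rw [e1, e2]
    exact h.1.1
  · rw [pf_neg, pf_neg]
    have := h.1.2
    omega
  · rintro x ⟨hx1, hx2⟩
    change adj _ _ at hx1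
    have e1 : -1 - (-1 - a) = a := by ring
    rw [e1] at hx1
    rw [pf_neg] at hx2
    have : r ≤ -1 - x := h.2 ⟨hx1, by rw [pf_neg]; omega⟩
    omega

lemma isM.mir {a m : ℤ} (h : isM adj a m) : isMu (mir adj) (-1 - a) (-1 - m) := by
  refine ⟨?_, ?_⟩
  · change adj _ _
    have e1 : -1 - (-1 - a) = a := by ring
    have e2 : -1 - (-1 - m) = m := by ring
    rw [e1, e2]
    exact h.1
  · intro x hx1
    change adj _ _ at hx1
    have e1 : -1 - (-1 - a) = a := by ring
    rw [e1] at hx1
    have : -1 - x ≤ m := h.2 hx1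
    omega

lemma isMu.mir {a m : ℤ} (h : isMu adj a m) : isM (mir adj) (-1 - a) (-1 - m) := by
  refine ⟨?_, ?_⟩
  · change adj _ _
    have e1 : -1 - (-1 - a) = a := by ring
    have e2 : -1 - (-1 - m) = m := by ring
    rw [e1, e2]
    exact h.1
  · intro x hx1
    change adj _ _ at hx1
    have e1 : -1 - (-1 - a) = a := by ring
    rw [e1] at hx1
    have : m ≤ -1 - x := h.2 hx1
    omega

theorem cover_one {a d l r m q : ℤ} {s i j : ℕ} (hsp : Sp s a d) (hsK : s < K)
    (had : adj a d) (hl : isL adj s d l) (hr : isR adj s a r) (hm : isM adj a m)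
    (hq : isMu adj d q) (hal : Sp i a l) (his : i < s) (hrd : Sp j r d) (hjs : j < s)
    (hdm : d < m) (f1 : pf (i + 1) q < pf (i + 1) a) :
    (∃ F ∈ fams hs H K, Covd F a d) ∨
      Covd (famT (mir_symm hs) (H.mir hs) K) (-1 - d) (-1 - a) := by
  have hd1 : pf s d % 2 = 1 := by have := hsp.1; have := hsp.2; omega
  by_cases e1 : pf (j + 1) d < pf (j + 1) m
  · by_cases hSB : freeB adj s d ∧ ∃ b, adj d b ∧ pf s b = pf s d ∧ pf (j + 1) b < pf (j + 1) d
    · -- family `T`
      left
      refine ⟨famT hs H K, by simp [fams], (s, j, 0, pf (j + 1) d, 0), ⟨rfl, rfl, ?_⟩, ⟨rfl, rfl, ?_⟩⟩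
      · exact ⟨hsp.1, hjs, hsK, ⟨r, hr, hrd.pf_eq, hrd.1⟩, m, hm.1, e1⟩
      · have hjd : pf j d % 2 = 1 := by have := hrd.1; have := hrd.2; omega
        exact ⟨hd1, hjs, hsK, rfl, hjd, hSB.2, hSB.1⟩
    · have hcn : critB adj s d ∨ nsB adj s j d := by
        by_cases hf : freeB adj s d
        · right
          intro x hx hno
          exact hSB ⟨hf, x, hx, hno.1, hno.2⟩
        · exact Or.inl (not_critB hf)
      by_cases hca : critA adj s a ∨ nsA adj s i a
      · -- family `U`
        left
        refine ⟨famU hs H K, by simp [fams], (s, i, j, pf (i + 1) a, pf (j + 1) d), ?_, ?_⟩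
        · exact ⟨hsp.1, his, hjs, hsK, rfl, hal.1, ⟨r, hr, hrd.pf_eq, hrd.1⟩, ⟨m, hm.1, e1⟩, hca⟩
        · have hjd : pf j d % 2 = 1 := by have := hrd.1; have := hrd.2; omega
          have hil : pf i l % 2 = 1 := by have := hal.1; have := hal.2; omega
          exact ⟨hd1, his, hjs, hsK, rfl, hjd, ⟨l, hl, hal.pf_eq.symm, hil⟩, ⟨q, hq.1, f1⟩, hcn⟩
      · -- mirrored family `T`
        right
        rw [not_or] at hca
        obtain ⟨hc1, hc2⟩ := hca
        refine ⟨(s, i, 0, pf (i + 1) (-1 - a), 0), ⟨rfl, rfl, ?_⟩, ⟨rfl, rfl, ?_⟩⟩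
        · refine ⟨?_, his, hsK, ⟨-1 - l, hl.mir, ?_, ?_⟩, -1 - q, ?_, ?_⟩
          · show pf s (-1 - d) % 2 = 0
            rw [pf_neg]; omega
          · show pf (i + 1) (-1 - l) = pf (i + 1) (-1 - a)
            rw [pf_neg, pf_neg, hal.pf_eq]
          · show pf i (-1 - l) % 2 = 0
            rw [pf_neg]
            have := hal.1
            have := hal.2
            omega
          · exact hq.mir.1
          · show pf (i + 1) (-1 - a) < pf (i + 1) (-1 - q)
            rw [pf_neg, pf_neg]
            omega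
        · refine ⟨?_, his, hsK, rfl, ?_, ?_, ?_⟩
          · show pf s (-1 - a) % 2 = 1
            rw [pf_neg]
            have := hsp.1
            omega
          · show pf i (-1 - a) % 2 = 1
            rw [pf_neg]
            have := hal.1
            omega
          · unfold nsA at hc2
            push Not at hc2
            obtain ⟨x, hx, hx1, hx2⟩ := hc2
            refine ⟨-1 - x, ?_, ?_, ?_⟩
            · change adj _ _
              have e1 : -1 - (-1 - a) = a := by ring
              have e2 : -1 - (-1 - x) = x := by ring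
              rw [e1, e2]
              exact hx
            · show pf s (-1 - x) = pf s (-1 - a)
              rw [pf_neg, pf_neg, hx1]
            · show pf (i + 1) (-1 - x) < pf (i + 1) (-1 - a)
              rw [pf_neg, pf_neg]
              omega
          · unfold critA at hc1
            push Not at hc1
            obtain ⟨x, hx, hx1⟩ := hc1
            refine ⟨-1 - x, ?_, ?_⟩
            · change adj _ _
              have e1 : -1 - (-1 - a) = a := by ring
              have e2 : -1 - (-1 - x) = x := by ring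
              rw [e1, e2]
              exact hx
            · show pf (s + 1) (-1 - x) < pf (s + 1) (-1 - a)
              rw [pf_neg, pf_neg]
              omega
  · -- the last neighbour is close to `d`
    left
    have hjm : pf (j + 1) d = pf (j + 1) m := by
      have := pf_mono (j + 1) hdm.le
      omega
    have hsm : pf s d = pf s m := pf_eq_of_le hjs hjm
    have hms : pf s m = pf s a + 1 := by rw [← hsm]; exact hsp.2
    have hcA : critA adj s a := by
      intro x hx
      have h1 : x ≤ m := hm.2 hx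
      have h2 := pf_mono (s + 1) h1
      have h3 : pf (s + 1) m = pf (s + 1) a := by
        rw [pf_succ, pf_succ]
        have := hsp.1
        omega
      omega
    obtain ⟨j', hj', hdm'⟩ := exists_sp hdm hjm
    have hjj : j' < j := by
      rcases Nat.lt_or_ge j' j with h | h
      · exact h
      · exfalso
        have : j' = j := by omega
        subst this
        have := hdm'.1
        have := hrd.1
        have := hrd.2
        omega
    have hr' : pf (j' + 1) r < pf (j' + 1) d := by
      apply pf_lt_of_le (k := j) (by omega)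
      have := hrd.2
      omega
    by_cases hSB : freeB adj s d ∧ ∃ b, adj d b ∧ pf s b = pf s d ∧ pf (j' + 1) b < pf (j' + 1) d
    · obtain ⟨hfree, b, hdb, hb1, hb2⟩ := hSB
      obtain ⟨g, hg⟩ := exists_isLeast (P := fun y => adj d y) (s := s) (c := pf s d) ⟨b, hdb, hb1⟩
      have hgb : g ≤ b := hg.2 ⟨hdb, hb1⟩
      have hgd1 : pf (j' + 1) g < pf (j' + 1) d := lt_of_le_of_lt (pf_mono _ hgb) hb2
      have hgd : g < d := lt_of_pf_lt hgd1
      obtain ⟨i', hi', hgsp⟩ := exists_sp hgd hg.1.2
      have hji : j' < i' := by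
        by_contra hno
        have := pf_eq_of_le (k := j' + 1) (by omega) hgsp.pf_eq
        omega
      have hmi : pf i' m = pf i' d := (pf_eq_of_le (k := i') hji hdm'.pf_eq).symm
      obtain ⟨t, ht⟩ := exists_isLeast (P := fun y => adj a y) (s := i') (c := pf i' m)
        ⟨d, had, hmi.symm⟩
      have htd : t ≤ d := ht.2 ⟨had, hmi.symm⟩
      rcases eq_or_lt_of_le htd with heq | hlt
      · subst heq
        refine ⟨famTau K, by simp [fams], (0, i', 0, t, 0), ?_, ?_⟩
        · exact ⟨show i' < K by omega, rfl, rfl, rfl, m, hm, ht⟩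
        · exact ⟨show i' < K by omega, rfl, rfl, rfl, rfl⟩
      · by_cases htv : pf (j' + 1) t < pf (j' + 1) d
        · refine ⟨famW1 hs H K, by simp [fams], (s, i', j', 0, pf (j' + 1) d), ⟨rfl, ?_⟩, ⟨rfl, ?_⟩⟩
          · refine ⟨hsp.1, hi', hji, hsK, hcA, m, hm, hms, hdm'.pf_eq.symm, ?_, t, ht.1.1, ht.1.2, htv⟩
            show pf j' m % 2 = 1
            have := hdm'.1
            have := hdm'.2
            omega
          · exact ⟨hd1, hi', hji, hsK, rfl, hdm'.1, hfree, g, hg, hgsp⟩
        · have htv' : pf (j' + 1) t = pf (j' + 1) d := by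
            have := pf_mono (j' + 1) htd
            omega
          obtain ⟨j'', hj'', htsp⟩ := exists_sp hlt htv'
          have hjj' : j'' < j' := by
            rcases Nat.lt_or_ge j'' j' with h | h
            · exact h
            · exfalso
              have : j'' = j' := by omega
              subst this
              have := hdm'.1
              have := htsp.1
              have := htsp.2
              omega
          refine ⟨famW2 hs H K, by simp [fams], (s, i', j'', 0, pf (j'' + 1) d), ⟨rfl, ?_⟩, ⟨rfl, ?_⟩⟩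
          · refine ⟨hsp.1, hi', show j'' < i' by omega, hsK, hcA, m, hm, hms, ?_, t, ht, htsp.pf_eq,
              htsp.1⟩
            show pf (j'' + 1) d < pf (j'' + 1) m
            apply pf_lt_of_le (k := j') (by omega)
            have := hdm'.2
            omega
          · refine ⟨hd1, hi', show j'' < i' by omega, hsK, rfl, ?_, hfree, g, hg, hgsp⟩
            show pf j'' d % 2 = 1
            have := htsp.1
            have := htsp.2
            omega
    · have hcn : critB adj s d ∨ nsB adj s j' d := by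
        by_cases hf : freeB adj s d
        · right
          intro x hx hno
          exact hSB ⟨hf, x, hx, hno.1, hno.2⟩
        · exact Or.inl (not_critB hf)
      refine ⟨famV hs H K, by simp [fams], (s, i, j', pf (i + 1) a, pf (j' + 1) d), ?_, ?_⟩
      · refine ⟨hsp.1, his, show j' < s by omega, hsK, rfl, hal.1, hcA, ⟨r, hr, hr'⟩,
          ⟨m, hm, hdm'.pf_eq.symm, ?_⟩⟩
        show pf j' m % 2 = 1
        have := hdm'.1
        have := hdm'.2
        omega
      · refine ⟨hd1, his, show j' < s by omega, hsK, rfl, hdm'.1, ⟨l, hl, hal.pf_eq.symm, ?_⟩,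
          ⟨q, hq.1, f1⟩, hcn⟩
        show pf i l % 2 = 1
        have := hal.1
        have := hal.2
        omega

/-- Every edge is covered. -/
theorem cover_all {c : ℤ} (hsupp : ∀ x y, adj x y → pf K x = c) {a d : ℤ} (had : adj a d)
    (hlt : a < d) :
    (∃ F ∈ fams hs H K, Covd F a d) ∨
      (∃ F ∈ fams (mir_symm hs) (H.mir hs) K, Covd F (-1 - d) (-1 - a)) := by
  have hpa := hsupp _ _ had
  have hpd := hsupp _ _ (hs _ _ had)
  obtain ⟨s, hsK, hsp⟩ := exists_sp hlt (hpa.trans hpd.symm)
  have hd1 : pf s d % 2 = 1 := by have := hsp.1; have := hsp.2; omega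
  obtain ⟨l, hl⟩ : ∃ l, isL adj s d l := by
    obtain ⟨l, hl⟩ := exists_isGreatest (P := fun y => adj d y) (s := s) (c := pf s d - 1)
      ⟨a, hs _ _ had, by have := hsp.2; omega⟩
    refine ⟨l, ⟨hl.1.1, by have := hl.1.2; omega⟩, ?_⟩
    rintro x ⟨hx1, hx2⟩
    exact hl.2 ⟨hx1, by omega⟩
  obtain ⟨r, hr⟩ : ∃ r, isR adj s a r :=
    exists_isLeast (P := fun y => adj a y) (s := s) (c := pf s a + 1) ⟨d, had, hsp.2⟩
  obtain ⟨m, hm⟩ : ∃ m, isM adj a m := by
    obtain ⟨m, hm⟩ := exists_isGreatest (P := fun y => adj a y) (s := K) (c := c) ⟨d, had, hpd⟩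
    refine ⟨m, hm.1.1, ?_⟩
    intro x hx
    exact hm.2 ⟨hx, hsupp _ _ (hs _ _ hx)⟩
  obtain ⟨q, hq⟩ : ∃ q, isMu adj d q := by
    obtain ⟨m, hm⟩ := exists_isLeast (P := fun y => adj d y) (s := K) (c := c)
      ⟨a, hs _ _ had, hpa⟩
    refine ⟨m, hm.1.1, ?_⟩
    intro x hx
    exact hm.2 ⟨hx, hsupp _ _ (hs _ _ hx)⟩
  have hrd : r ≤ d := hr.2 ⟨had, hsp.2⟩
  have hdm : d ≤ m := hm.2 had
  have hal : a ≤ l := hl.2 ⟨hs _ _ had, hsp.2.symm⟩
  have hqa : q ≤ a := hq.2 (hs _ _ had)
  rcases eq_or_lt_of_le hrd with h1 | h1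
  · left
    subst h1
    exact ⟨famR K, by simp [fams], (s, 0, 0, r, 0), ⟨hsK, rfl, rfl, rfl, hr⟩, ⟨hsK, rfl, rfl, rfl, rfl⟩⟩
  rcases eq_or_lt_of_le hdm with h2 | h2
  · left
    subst h2
    exact ⟨famM K, by simp [fams], (0, 0, 0, d, 0), ⟨rfl, rfl, rfl, rfl, hm⟩, ⟨rfl, rfl, rfl, rfl, rfl⟩⟩
  rcases eq_or_lt_of_le hal with h3 | h3
  · right
    subst h3
    exact ⟨famR K, by simp [fams], (s, 0, 0, -1 - a, 0), ⟨hsK, rfl, rfl, rfl, hl.mir⟩,
      ⟨hsK, rfl, rfl, rfl, rfl⟩⟩
  rcases eq_or_lt_of_le hqa with h4 | h4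
  · right
    subst h4
    exact ⟨famM K, by simp [fams], (0, 0, 0, -1 - q, 0), ⟨rfl, rfl, rfl, rfl, hq.mir⟩,
      ⟨rfl, rfl, rfl, rfl, rfl⟩⟩
  have hsal : pf s a = pf s l := by have := hl.1.2; have := hsp.2; omega
  have hsrd : pf s r = pf s d := by have := hr.1.2; have := hsp.2; omega
  obtain ⟨i, his, hali⟩ := exists_sp h3 hsal
  obtain ⟨j, hjs, hrdj⟩ := exists_sp h1 hsrd
  by_cases f1 : pf (i + 1) q < pf (i + 1) a
  · rcases cover_one hs H K hsp hsK had hl hr hm hq hali his hrdj hjs h2 f1 with h | h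
    · exact Or.inl h
    · exact Or.inr ⟨_, by simp [fams], h⟩
  by_cases e1 : pf (j + 1) d < pf (j + 1) m
  · -- mirrored
    have hq' := hq.mir
    have := cover_one (mir_symm hs) (H.mir hs) K (a := -1 - d) (d := -1 - a) (l := -1 - r)
      (r := -1 - l) (m := -1 - q) (q := -1 - m) hsp.neg hsK
      (by
        change adj _ _
        have e1 : -1 - (-1 - a) = a := by ring
        have e2 : -1 - (-1 - d) = d := by ring
        rw [e1, e2]
        exact hs _ _ had)
      hr.mir hl.mir hq.mir hm.mir hrdj.neg hjs hali.neg his (by omega)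
      (by rw [pf_neg, pf_neg]; omega)
    rcases this with h | h
    · exact Or.inr h
    · left
      refine ⟨famT hs H K, by simp [fams], ?_⟩
      obtain ⟨k, ⟨h1, h2, hA⟩, ⟨h3, h4, hB⟩⟩ := h
      refine ⟨k, ⟨h1, h2, ?_⟩, ⟨h3, h4, ?_⟩⟩
      · rw [mir_mir] at hA
        have e1 : -1 - (-1 - a) = a := by ring
        rwa [e1] at hA
      · rw [mir_mir] at hB
        have e1 : -1 - (-1 - d) = d := by ring
        rwa [e1] at hB
  · -- both extreme neighbours are close: family `C`
    left
    have hjm : pf (j + 1) d = pf (j + 1) m := by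
      have := pf_mono (j + 1) h2.le
      omega
    have hiq : pf (i + 1) q = pf (i + 1) a := by
      have := pf_mono (i + 1) h4.le
      omega
    have hsm : pf s d = pf s m := pf_eq_of_le hjs hjm
    have hsq : pf s q = pf s a := pf_eq_of_le his hiq
    have hsa : pf (s + 1) a = pf (s + 1) d := hsp.pf_eq
    have hcA : critA adj s a := by
      intro x hx
      have h5 : x ≤ m := hm.2 hx
      have h6 := pf_mono (s + 1) h5
      have h7 : pf (s + 1) m = pf (s + 1) d := pf_eq_of_le (by omega) hsm.symm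
      omega
    have hcB : critB adj s d := by
      intro x hx
      have h5 : q ≤ x := hq.2 hx
      have h6 := pf_mono (s + 1) h5
      have h7 : pf (s + 1) q = pf (s + 1) a := pf_eq_of_le (by omega) hsq
      omega
    obtain ⟨j', hj', hdm'⟩ := exists_sp h2 hjm
    obtain ⟨i', hi', hqa'⟩ := exists_sp h4 hiq
    have hjj : j' < j := by
      rcases Nat.lt_or_ge j' j with h | h
      · exact h
      · exfalso
        have : j' = j := by omega
        subst this
        have := hdm'.1
        have := hrdj.1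
        have := hrdj.2
        omega
    have hii : i' < i := by
      rcases Nat.lt_or_ge i' i with h | h
      · exact h
      · exfalso
        have : i' = i := by omega
        subst this
        have := hqa'.1
        have := hqa'.2
        have := hali.1
        omega
    refine ⟨famC hs H K, by simp [fams], (s, i', j', pf (i' + 1) a, pf (j' + 1) d), ?_, ?_⟩
    · refine ⟨hsp.1, show i' < s by omega, show j' < s by omega, hsK, rfl, ?_, hcA, ⟨r, hr, ?_⟩,
        ⟨m, hm, hdm'.pf_eq.symm, ?_⟩⟩
      · show pf i' a % 2 = 1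
        have := hqa'.1
        have := hqa'.2
        omega
      · show pf (j' + 1) r < pf (j' + 1) d
        apply pf_lt_of_le (k := j) (by omega)
        have := hrdj.2
        omega
      · show pf j' m % 2 = 1
        have := hdm'.1
        have := hdm'.2
        omega
    · refine ⟨hd1, show i' < s by omega, show j' < s by omega, hsK, rfl, hdm'.1, hcB, ⟨l, hl, ?_⟩,
        ⟨q, hq, hqa'.pf_eq, hqa'.1⟩⟩
      show pf (i' + 1) a < pf (i' + 1) l
      apply pf_lt_of_le (k := i) (by omega)
      have := hali.2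
      omega

end

end Pool.Agent.VisGraph
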