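import Mathlib

/-!
# Dyadic positions of integers
-/

namespace Pool.Agent.VisGraph

/-- The index at level `i` of the dyadic interval of length `2 ^ i` containing `x`. -/
def pf (i : ℕ) (x : ℤ) : ℤ := x / 2 ^ i

lemma pf_zero (x : ℤ) : pf 0 x = x := by simp [pf]

lemma pf_succ (i : ℕ) (x : ℤ) : pf (i + 1) x = pf i x / 2 := by
  unfold pf
  rw [pow_succ, Int.ediv_ediv_of_nonneg (by positivity)]

lemma pf_add (i j : ℕ) (x : ℤ) : pf (i + j) x = pf i x / 2 ^ j := by
  unfold pf
  rw [pow_add, Int.ediv_ediv_of_nonneg (by positivity)]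

lemma pf_mono (i : ℕ) {x y : ℤ} (h : x ≤ y) : pf i x ≤ pf i y :=
  Int.ediv_le_ediv (by positivity) h

lemma lt_of_pf_lt {i : ℕ} {x y : ℤ} (h : pf i x < pf i y) : x < y := by
  by_contra hno
  exact absurd (pf_mono i (not_lt.mp hno)) (not_le.mpr h)

lemma pf_eq_of_le {i k : ℕ} {x y : ℤ} (hik : i ≤ k) (h : pf i x = pf i y) : pf k x = pf k y := by
  obtain ⟨j, rfl⟩ := Nat.exists_eq_add_of_le hik
  rw [pf_add, pf_add, h]

lemma pf_le_of_le {i k : ℕ} {x y : ℤ} (hik : i ≤ k) (h : pf i x ≤ pf i y) : pf k x ≤ pf k y := by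
  obtain ⟨j, rfl⟩ := Nat.exists_eq_add_of_le hik
  rw [pf_add, pf_add]
  exact Int.ediv_le_ediv (by positivity) h

lemma pf_lt_of_le {i k : ℕ} {x y : ℤ} (hik : i ≤ k) (h : pf k x < pf k y) : pf i x < pf i y := by
  by_contra hno
  exact absurd (pf_le_of_le hik (not_lt.mp hno)) (not_le.mpr h)

lemma pf_neg (i : ℕ) (x : ℤ) : pf i (-1 - x) = -1 - pf i x := by
  induction i with
  | zero => simp [pf_zero]
  | succ i ih => rw [pf_succ, pf_succ, ih]; omega

/-- `a` and `d` are separated at bit `s`: the same dyadic interval of length `2 ^ (s + 1)`, `a` in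
the left half and `d` in the right half. -/
def Sp (s : ℕ) (a d : ℤ) : Prop := pf s a % 2 = 0 ∧ pf s d = pf s a + 1

lemma Sp.lt {s : ℕ} {a d : ℤ} (h : Sp s a d) : a < d := by
  apply lt_of_pf_lt (i := s)
  have := h.2
  omega

lemma Sp.pf_eq {s : ℕ} {a d : ℤ} (h : Sp s a d) : pf (s + 1) a = pf (s + 1) d := by
  rw [pf_succ, pf_succ]
  have := h.1
  have := h.2
  omega

lemma Sp.neg {s : ℕ} {a d : ℤ} (h : Sp s a d) : Sp s (-1 - d) (-1 - a) := by
  unfold Sp
  rw [pf_neg, pf_neg]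
  have := h.1
  have := h.2
  omega

/-- Two distinct integers with the same level-`K` index are separated at a bit below `K`. -/
lemma exists_sp {K : ℕ} {a d : ℤ} (had : a < d) (h : pf K a = pf K d) : ∃ s < K, Sp s a d := by
  induction K with
  | zero => rw [pf_zero, pf_zero] at h; omega
  | succ K ih =>
    by_cases h' : pf K a = pf K d
    · obtain ⟨s, hs, hsp⟩ := ih h'
      exact ⟨s, by omega, hsp⟩
    · refine ⟨K, by omega, ?_⟩
      have h1 := pf_mono K had.le
      rw [pf_succ, pf_succ] at h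
      constructor <;> omega

end Pool.Agent.VisGraph
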