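import Pool.Agent.VisGraph.Dyadic

/-!
# Families of bicliques given by keys
-/

namespace Pool.Agent.VisGraph

open Finset

/-- keys: `(s, i, j, u, v)` -/
abbrev Key := ℕ × ℕ × ℕ × ℤ × ℤ

/-- A family of bicliques indexed by keys, every integer being in few of them. -/
structure Fam (adj : ℤ → ℤ → Prop) (K : ℕ) where
  inA : Key → ℤ → Prop
  inB : Key → ℤ → Prop
  sound : ∀ k a d, inA k a → inB k d → adj a d
  cntA : ∀ x, ∃ S : Finset Key, S.card ≤ 2 * K ^ 2 + 1 ∧ ∀ k, inA k x → k ∈ S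
  cntB : ∀ x, ∃ S : Finset Key, S.card ≤ 2 * K ^ 2 + 1 ∧ ∀ k, inB k x → k ∈ S

lemma cnt_of_inj {K : ℕ} {P : Key → Prop} (g : Key → ℕ × ℕ)
    (hg : ∀ k, P k → (g k).1 < K ∧ (g k).2 < K)
    (hinj : ∀ k k', P k → P k' → g k = g k' → k = k') :
    ∃ S : Finset Key, S.card ≤ K ^ 2 ∧ ∀ k, P k → k ∈ S := by
  classical
  refine ⟨(range K ×ˢ range K).image fun xy =>
    if h : ∃ k, P k ∧ g k = xy then h.choose else (0, 0, 0, 0, 0), ?_, ?_⟩
  · refine le_trans Finset.card_image_le ?_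
    rw [Finset.card_product, Finset.card_range, sq]
  · intro k hk
    rw [Finset.mem_image]
    refine ⟨g k, ?_, ?_⟩
    · rw [Finset.mem_product, Finset.mem_range, Finset.mem_range]
      exact hg k hk
    · have h : ∃ k', P k' ∧ g k' = g k := ⟨k, hk, rfl⟩
      rw [dif_pos h]
      exact hinj _ _ h.choose_spec.1 hk h.choose_spec.2

lemma cnt_one {K : ℕ} {P : Key → Prop} (g : Key → ℕ × ℕ)
    (hg : ∀ k, P k → (g k).1 < K ∧ (g k).2 < K)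
    (hinj : ∀ k k', P k → P k' → g k = g k' → k = k') :
    ∃ S : Finset Key, S.card ≤ 2 * K ^ 2 + 1 ∧ ∀ k, P k → k ∈ S := by
  obtain ⟨S, hS, h⟩ := cnt_of_inj g hg hinj
  exact ⟨S, by omega, h⟩

lemma cnt_two {K : ℕ} {P P1 P2 : Key → Prop} (hP : ∀ k, P k → P1 k ∨ P2 k) (g : Key → ℕ × ℕ)
    (hg1 : ∀ k, P1 k → (g k).1 < K ∧ (g k).2 < K)
    (hg2 : ∀ k, P2 k → (g k).1 < K ∧ (g k).2 < K)
    (hinj1 : ∀ k k', P1 k → P1 k' → g k = g k' → k = k')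
    (hinj2 : ∀ k k', P2 k → P2 k' → g k = g k' → k = k') :
    ∃ S : Finset Key, S.card ≤ 2 * K ^ 2 + 1 ∧ ∀ k, P k → k ∈ S := by
  classical
  obtain ⟨S1, hS1, h1⟩ := cnt_of_inj g hg1 hinj1
  obtain ⟨S2, hS2, h2⟩ := cnt_of_inj g hg2 hinj2
  refine ⟨S1 ∪ S2, ?_, ?_⟩
  · have := Finset.card_union_le S1 S2
    omega
  · intro k hk
    rw [Finset.mem_union]
    rcases hP k hk with h | h
    · exact Or.inl (h1 k h)
    · exact Or.inr (h2 k h)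

/-- The combinatorial property of visibility graphs. -/
def HProp (adj : ℤ → ℤ → Prop) : Prop :=
  ∀ f a b c d e, f < a → a < b → b < c → c < d → d < e →
    adj a c → adj a e → adj b d → adj f d → adj a d

/-- The mirror image. -/
def mir (adj : ℤ → ℤ → Prop) : ℤ → ℤ → Prop := fun x y => adj (-1 - x) (-1 - y)

lemma mir_mir (adj : ℤ → ℤ → Prop) : mir (mir adj) = adj := by
  funext x y
  unfold mir
  congr 1 <;> ring_nf

lemma HProp.mir {adj : ℤ → ℤ → Prop} (hs : ∀ x y, adj x y → adj y x) (h : HProp adj) :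
    HProp (mir adj) := by
  intro f a b c d e h1 h2 h3 h4 h5 hac hae hbd hfd
  apply hs
  exact h (-1 - e) (-1 - d) (-1 - c) (-1 - b) (-1 - a) (-1 - f) (by omega) (by omega) (by omega)
    (by omega) (by omega) (hs _ _ hbd) (hs _ _ hfd) (hs _ _ hac) (hs _ _ hae)

section Preds

variable (adj : ℤ → ℤ → Prop)

/-- first neighbour in the right sibling -/
def isR (s : ℕ) (a r : ℤ) : Prop := IsLeast {x | adj a x ∧ pf s x = pf s a + 1} r
/-- last neighbour in the left sibling -/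
def isL (s : ℕ) (d l : ℤ) : Prop := IsGreatest {x | adj d x ∧ pf s x + 1 = pf s d} l
/-- last neighbour -/
def isM (a m : ℤ) : Prop := IsGreatest {x | adj a x} m
/-- first neighbour -/
def isMu (d m : ℤ) : Prop := IsLeast {x | adj d x} m
/-- no neighbour beyond the node, on the right -/
def critA (s : ℕ) (a : ℤ) : Prop := ∀ x, adj a x → pf (s + 1) x ≤ pf (s + 1) a
/-- no neighbour beyond the node, on the left -/
def critB (s : ℕ) (d : ℤ) : Prop := ∀ x, adj d x → pf (s + 1) d ≤ pf (s + 1) x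
/-- no neighbour between the small node and the midpoint of the large node -/
def nsA (s i : ℕ) (a : ℤ) : Prop := ∀ x, adj a x → ¬ (pf s x = pf s a ∧ pf (i + 1) a < pf (i + 1) x)
/-- mirror image of `nsA` -/
def nsB (s j : ℕ) (d : ℤ) : Prop := ∀ x, adj d x → ¬ (pf s x = pf s d ∧ pf (j + 1) x < pf (j + 1) d)
/-- some neighbour left of the node -/
def freeB (s : ℕ) (d : ℤ) : Prop := ∃ x, adj d x ∧ pf (s + 1) x < pf (s + 1) d

end Preds

variable {adj : ℤ → ℤ → Prop}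

lemma crit_unique {s s' : ℕ} {a r r' : ℤ} (h : critA adj s a) (h' : critA adj s' a)
    (hr : adj a r) (hr1 : pf s r = pf s a + 1) (hr' : adj a r') (hr1' : pf s' r' = pf s' a + 1) :
    s = s' := by
  rcases Nat.lt_trichotomy s s' with hlt | heq | hlt
  · have h1 := h r' hr'
    have h2 := pf_le_of_le (Nat.succ_le_of_lt hlt) h1
    omega
  · exact heq
  · have h1 := h' r hr
    have h2 := pf_le_of_le (Nat.succ_le_of_lt hlt) h1
    omega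

lemma critB_unique {s s' : ℕ} {d r r' : ℤ} (h : critB adj s d) (h' : critB adj s' d)
    (hr : adj d r) (hr1 : pf s r + 1 = pf s d) (hr' : adj d r') (hr1' : pf s' r' + 1 = pf s' d) :
    s = s' := by
  rcases Nat.lt_trichotomy s s' with hlt | heq | hlt
  · have h1 := h r' hr'
    have h2 := pf_le_of_le (Nat.succ_le_of_lt hlt) h1
    omega
  · exact heq
  · have h1 := h' r hr
    have h2 := pf_le_of_le (Nat.succ_le_of_lt hlt) h1
    omega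

lemma nsA_unique {s s' i : ℕ} {a r r' : ℤ} (his : i < s) (his' : i < s')
    (ha : pf s a % 2 = 0) (ha' : pf s' a % 2 = 0)
    (h : nsA adj s i a) (h' : nsA adj s' i a)
    (hr : adj a r) (hr1 : pf s r = pf s a + 1) (hr' : adj a r') (hr1' : pf s' r' = pf s' a + 1) :
    s = s' := by
  have key : ∀ s s' : ℕ, i < s → pf s a % 2 = 0 → nsA adj s' i a → ∀ r, adj a r →
      pf s r = pf s a + 1 → ¬ s < s' := by
    intro s s' his ha h' r hr hr1 hlt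
    apply h' r hr
    constructor
    · apply pf_eq_of_le (Nat.succ_le_of_lt hlt)
      rw [pf_succ, pf_succ]
      omega
    · apply pf_lt_of_le (k := s) (by omega)
      omega
  rcases Nat.lt_trichotomy s s' with hlt | heq | hlt
  · exact absurd hlt (key s s' his ha h' r hr hr1)
  · exact heq
  · exact absurd hlt (key s' s his' ha' h r' hr' hr1')

lemma nsB_unique {s s' j : ℕ} {d r r' : ℤ} (his : j < s) (his' : j < s')
    (ha : pf s d % 2 = 1) (ha' : pf s' d % 2 = 1)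
    (h : nsB adj s j d) (h' : nsB adj s' j d)
    (hr : adj d r) (hr1 : pf s r + 1 = pf s d) (hr' : adj d r') (hr1' : pf s' r' + 1 = pf s' d) :
    s = s' := by
  have key : ∀ s s' : ℕ, j < s → pf s d % 2 = 1 → nsB adj s' j d → ∀ r, adj d r →
      pf s r + 1 = pf s d → ¬ s < s' := by
    intro s s' his ha h' r hr hr1 hlt
    apply h' r hr
    constructor
    · apply pf_eq_of_le (Nat.succ_le_of_lt hlt)
      rw [pf_succ, pf_succ]
      omega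
    · apply pf_lt_of_le (k := s) (by omega)
      omega
  rcases Nat.lt_trichotomy s s' with hlt | heq | hlt
  · exact absurd hlt (key s s' his ha h' r hr hr1)
  · exact heq
  · exact absurd hlt (key s' s his' ha' h r' hr' hr1')

lemma sp_unique {i i' : ℕ} {g d : ℤ} (h : Sp i g d) (h' : Sp i' g d) : i = i' := by
  rcases Nat.lt_trichotomy i i' with hlt | heq | hlt
  · have := pf_eq_of_le (Nat.succ_le_of_lt hlt) h.pf_eq
    have := h'.2
    omega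
  · exact heq
  · have := pf_eq_of_le (Nat.succ_le_of_lt hlt) h'.pf_eq
    have := h.2
    omega

/-! ### The families -/

variable (hs : ∀ x y, adj x y → adj y x) (H : HProp adj) (K : ℕ)

/-- star at the first neighbour in the right sibling -/
def famR : Fam adj K where
  inA := fun k a => k.1 < K ∧ k.2.1 = 0 ∧ k.2.2.1 = 0 ∧ k.2.2.2.2 = 0 ∧ isR adj k.1 a k.2.2.2.1
  inB := fun k d => k.1 < K ∧ k.2.1 = 0 ∧ k.2.2.1 = 0 ∧ k.2.2.2.2 = 0 ∧ d = k.2.2.2.1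
  sound := by
    rintro ⟨s, i, j, u, v⟩ a d ⟨_, _, _, _, h⟩ ⟨_, _, _, _, rfl⟩
    exact h.1.1
  cntA := by
    intro x
    apply cnt_one (fun k => (k.1, 0))
    · rintro ⟨s, i, j, u, v⟩ ⟨h, _⟩
      simp only at *
      exact ⟨h, by omega⟩
    · rintro ⟨s, i, j, u, v⟩ ⟨s', i', j', u', v'⟩ ⟨_, h1, h2, h3, h4⟩ ⟨_, h1', h2', h3', h4'⟩ hg
      simp only [Prod.mk.injEq] at *
      obtain ⟨rfl, _⟩ := hg
      exact ⟨rfl, by omega, by omega, h4.unique h4', by omega⟩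
  cntB := by
    intro x
    apply cnt_one (fun k => (k.1, 0))
    · rintro ⟨s, i, j, u, v⟩ ⟨h, _⟩
      simp only at *
      exact ⟨h, by omega⟩
    · rintro ⟨s, i, j, u, v⟩ ⟨s', i', j', u', v'⟩ ⟨_, h1, h2, h3, h4⟩ ⟨_, h1', h2', h3', h4'⟩ hg
      simp only [Prod.mk.injEq] at *
      obtain ⟨rfl, _⟩ := hg
      exact ⟨rfl, by omega, by omega, by omega, by omega⟩

/-- star at the last neighbour -/
def famM : Fam adj K where
  inA := fun k a => k.1 = 0 ∧ k.2.1 = 0 ∧ k.2.2.1 = 0 ∧ k.2.2.2.2 = 0 ∧ isM adj a k.2.2.2.1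
  inB := fun k d => k.1 = 0 ∧ k.2.1 = 0 ∧ k.2.2.1 = 0 ∧ k.2.2.2.2 = 0 ∧ d = k.2.2.2.1
  sound := by
    rintro ⟨s, i, j, u, v⟩ a d ⟨_, _, _, _, h⟩ ⟨_, _, _, _, rfl⟩
    exact h.1
  cntA := by
    intro x
    classical
    by_cases hex : ∃ m, isM adj x m
    · obtain ⟨m, hm⟩ := hex
      refine ⟨{(0, 0, 0, m, 0)}, by simp, ?_⟩
      rintro ⟨s, i, j, u, v⟩ ⟨h0, h1, h2, h3, h4⟩
      simp only [Finset.mem_singleton, Prod.mk.injEq] at *
      exact ⟨h0, h1, h2, h4.unique hm, h3⟩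
    · refine ⟨∅, by simp, ?_⟩
      rintro ⟨s, i, j, u, v⟩ ⟨h0, h1, h2, h3, h4⟩
      exact absurd ⟨_, h4⟩ hex
  cntB := by
    intro x
    refine ⟨{(0, 0, 0, x, 0)}, by simp, ?_⟩
    rintro ⟨s, i, j, u, v⟩ ⟨h0, h1, h2, h3, h4⟩
    simp only [Finset.mem_singleton, Prod.mk.injEq] at *
    exact ⟨h0, h1, h2, h4.symm, h3⟩

/-- star at the first neighbour in the interval of the last neighbour -/
def famTau : Fam adj K where
  inA := fun k a => k.2.1 < K ∧ k.1 = 0 ∧ k.2.2.1 = 0 ∧ k.2.2.2.2 = 0 ∧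
    ∃ m, isM adj a m ∧ IsLeast {x | adj a x ∧ pf k.2.1 x = pf k.2.1 m} k.2.2.2.1
  inB := fun k d => k.2.1 < K ∧ k.1 = 0 ∧ k.2.2.1 = 0 ∧ k.2.2.2.2 = 0 ∧ d = k.2.2.2.1
  sound := by
    rintro ⟨s, i, j, u, v⟩ a d ⟨_, _, _, _, m, _, h⟩ ⟨_, _, _, _, rfl⟩
    exact h.1.1
  cntA := by
    intro x
    apply cnt_one (fun k => (k.2.1, 0))
    · rintro ⟨s, i, j, u, v⟩ ⟨h, _⟩
      simp only at *
      exact ⟨h, by omega⟩
    · rintro ⟨s, i, j, u, v⟩ ⟨s', i', j', u', v'⟩ ⟨_, h1, h2, h3, m, hm, h4⟩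
        ⟨_, h1', h2', h3', m', hm', h4'⟩ hg
      simp only [Prod.mk.injEq] at *
      obtain ⟨rfl, _⟩ := hg
      obtain rfl := hm.unique hm'
      exact ⟨by omega, rfl, by omega, h4.unique h4', by omega⟩
  cntB := by
    intro x
    apply cnt_one (fun k => (k.2.1, 0))
    · rintro ⟨s, i, j, u, v⟩ ⟨h, _⟩
      simp only at *
      exact ⟨h, by omega⟩
    · rintro ⟨s, i, j, u, v⟩ ⟨s', i', j', u', v'⟩ ⟨_, h1, h2, h3, h4⟩ ⟨_, h1', h2', h3', h4'⟩ hg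
      simp only [Prod.mk.injEq] at *
      obtain ⟨rfl, _⟩ := hg
      exact ⟨by omega, rfl, by omega, by omega, by omega⟩

/-- membership of `a` in the family `T` -/
def tA (adj : ℤ → ℤ → Prop) (K s i : ℕ) (u : ℤ) (a : ℤ) : Prop :=
  pf s a % 2 = 0 ∧ i < s ∧ s < K ∧
    (∃ r, isR adj s a r ∧ pf (i + 1) r = u ∧ pf i r % 2 = 0) ∧ ∃ e, adj a e ∧ u < pf (i + 1) e

/-- membership of `d` in the family `T` -/
def tB (adj : ℤ → ℤ → Prop) (K s i : ℕ) (u : ℤ) (d : ℤ) : Prop :=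
  pf s d % 2 = 1 ∧ i < s ∧ s < K ∧ pf (i + 1) d = u ∧ pf i d % 2 = 1 ∧
    (∃ b, adj d b ∧ pf s b = pf s d ∧ pf (i + 1) b < u) ∧ freeB adj s d

include hs H in
lemma t_sound {s i : ℕ} {u a d : ℤ} (hA : tA adj K s i u a) (hB : tB adj K s i u d) :
    adj a d := by
  obtain ⟨ha, his, _, ⟨r, hr, hru, hr0⟩, e, hae, he⟩ := hA
  obtain ⟨hd, _, _, hdu, hd1, ⟨b, hdb, hb1, hb2⟩, f, hdf, hf⟩ := hB
  have hrs : pf s r = pf s d := pf_eq_of_le (k := s) his (by rw [hru, hdu])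
  have hra := hr.1.2
  refine H f a b r d e ?_ ?_ ?_ ?_ ?_ hr.1.1 hae (hs _ _ hdb) (hs _ _ hdf)
  · apply lt_of_pf_lt (i := s + 1)
    have : pf (s + 1) a = pf (s + 1) d := by rw [pf_succ, pf_succ]; omega
    omega
  · apply lt_of_pf_lt (i := s); omega
  · apply lt_of_pf_lt (i := i + 1); omega
  · apply lt_of_pf_lt (i := i)
    have h1 := hru
    have h2 := hdu
    rw [pf_succ] at h1 h2
    omega
  · apply lt_of_pf_lt (i := i + 1); omega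

/-- the family `T` -/
def famT : Fam adj K where
  inA := fun k a => k.2.2.1 = 0 ∧ k.2.2.2.2 = 0 ∧ tA adj K k.1 k.2.1 k.2.2.2.1 a
  inB := fun k a => k.2.2.1 = 0 ∧ k.2.2.2.2 = 0 ∧ tB adj K k.1 k.2.1 k.2.2.2.1 a
  sound := by
    rintro ⟨s, i, j, u, v⟩ a d ⟨_, _, h⟩ ⟨_, _, h'⟩
    exact t_sound hs H K h h'
  cntA := by
    intro x
    apply cnt_one (fun k => (k.1, k.2.1))
    · rintro ⟨s, i, j, u, v⟩ ⟨_, _, _, h1, h2, _⟩
      simp only at *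
      exact ⟨h2, by omega⟩
    · rintro ⟨s, i, j, u, v⟩ ⟨s', i', j', u', v'⟩ ⟨h1, h2, _, _, _, ⟨r, hr, hru, _⟩, _⟩
        ⟨h1', h2', _, _, _, ⟨r', hr', hru', _⟩, _⟩ hg
      simp only [Prod.mk.injEq] at *
      obtain ⟨rfl, rfl⟩ := hg
      obtain rfl := hr.unique hr'
      exact ⟨rfl, rfl, by omega, by omega, by omega⟩
  cntB := by
    intro x
    apply cnt_one (fun k => (k.1, k.2.1))
    · rintro ⟨s, i, j, u, v⟩ ⟨_, _, _, h1, h2, _⟩
      simp only at *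
      exact ⟨h2, by omega⟩
    · rintro ⟨s, i, j, u, v⟩ ⟨s', i', j', u', v'⟩ ⟨h1, h2, _, _, _, hu, _⟩
        ⟨h1', h2', _, _, _, hu', _⟩ hg
      simp only [Prod.mk.injEq] at *
      obtain ⟨rfl, rfl⟩ := hg
      exact ⟨rfl, rfl, by omega, by omega, by omega⟩

/-- membership of `a` in the family `U` -/
def uA (adj : ℤ → ℤ → Prop) (K s i j : ℕ) (u v : ℤ) (a : ℤ) : Prop :=
  pf s a % 2 = 0 ∧ i < s ∧ j < s ∧ s < K ∧ pf (i + 1) a = u ∧ pf i a % 2 = 0 ∧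
    (∃ r, isR adj s a r ∧ pf (j + 1) r = v ∧ pf j r % 2 = 0) ∧
    (∃ e, adj a e ∧ v < pf (j + 1) e) ∧ (critA adj s a ∨ nsA adj s i a)

/-- membership of `d` in the family `U` -/
def uB (adj : ℤ → ℤ → Prop) (K s i j : ℕ) (u v : ℤ) (d : ℤ) : Prop :=
  pf s d % 2 = 1 ∧ i < s ∧ j < s ∧ s < K ∧ pf (j + 1) d = v ∧ pf j d % 2 = 1 ∧
    (∃ l, isL adj s d l ∧ pf (i + 1) l = u ∧ pf i l % 2 = 1) ∧
    (∃ f, adj d f ∧ pf (i + 1) f < u) ∧ (critB adj s d ∨ nsB adj s j d)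

include hs H in
lemma u_sound {s i j : ℕ} {u v a d : ℤ} (hA : uA adj K s i j u v a)
    (hB : uB adj K s i j u v d) : adj a d := by
  obtain ⟨ha, his, hjs, _, hau, ha0, ⟨r, hr, hru, hr0⟩, ⟨e, hae, he⟩, _⟩ := hA
  obtain ⟨hd, _, _, _, hdu, hd1, ⟨l, hl, hlu, hl1⟩, ⟨f, hdf, hf⟩, _⟩ := hB
  have hrs : pf s r = pf s d := pf_eq_of_le (k := s) hjs (by rw [hru, hdu])
  have hra := hr.1.2
  have hld := hl.1.2
  refine H f a l r d e ?_ ?_ ?_ ?_ ?_ hr.1.1 hae (hs _ _ hl.1.1) (hs _ _ hdf)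
  · apply lt_of_pf_lt (i := i + 1); omega
  · apply lt_of_pf_lt (i := i)
    have h1 := hau
    have h2 := hlu
    rw [pf_succ] at h1 h2
    omega
  · apply lt_of_pf_lt (i := s); omega
  · apply lt_of_pf_lt (i := j)
    have h1 := hru
    have h2 := hdu
    rw [pf_succ] at h1 h2
    omega
  · apply lt_of_pf_lt (i := j + 1); omega

/-- the family `U` -/
def famU : Fam adj K where
  inA := fun k a => uA adj K k.1 k.2.1 k.2.2.1 k.2.2.2.1 k.2.2.2.2 a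
  inB := fun k a => uB adj K k.1 k.2.1 k.2.2.1 k.2.2.2.1 k.2.2.2.2 a
  sound := by
    rintro ⟨s, i, j, u, v⟩ a d h h'
    exact u_sound hs H K h h'
  cntA := by
    intro x
    apply cnt_two (P1 := fun k => uA adj K k.1 k.2.1 k.2.2.1 k.2.2.2.1 k.2.2.2.2 x ∧ critA adj k.1 x)
      (P2 := fun k => uA adj K k.1 k.2.1 k.2.2.1 k.2.2.2.1 k.2.2.2.2 x ∧ nsA adj k.1 k.2.1 x)
      ?_ (fun k => (k.2.1, k.2.2.1))
    · rintro ⟨s, i, j, u, v⟩ ⟨⟨_, h1, h2, h3, _⟩, _⟩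
      simp only at *
      omega
    · rintro ⟨s, i, j, u, v⟩ ⟨⟨_, h1, h2, h3, _⟩, _⟩
      simp only at *
      omega
    · rintro ⟨s, i, j, u, v⟩ ⟨s', i', j', u', v'⟩
        ⟨⟨_, _, _, _, hu, _, ⟨r, hr, hrv, _⟩, _⟩, hc⟩
        ⟨⟨_, _, _, _, hu', _, ⟨r', hr', hrv', _⟩, _⟩, hc'⟩ hg
      simp only [Prod.mk.injEq] at *
      obtain ⟨rfl, rfl⟩ := hg
      obtain rfl := crit_unique hc hc' hr.1.1 hr.1.2 hr'.1.1 hr'.1.2
      obtain rfl := hr.unique hr'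
      exact ⟨rfl, rfl, rfl, by omega, by omega⟩
    · rintro ⟨s, i, j, u, v⟩ ⟨s', i', j', u', v'⟩
        ⟨⟨hp, hi, _, _, hu, _, ⟨r, hr, hrv, _⟩, _⟩, hc⟩
        ⟨⟨hp', hi', _, _, hu', _, ⟨r', hr', hrv', _⟩, _⟩, hc'⟩ hg
      simp only [Prod.mk.injEq] at *
      obtain ⟨rfl, rfl⟩ := hg
      obtain rfl := nsA_unique hi hi' hp hp' hc hc' hr.1.1 hr.1.2 hr'.1.1 hr'.1.2
      obtain rfl := hr.unique hr'
      exact ⟨rfl, rfl, rfl, by omega, by omega⟩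
    · rintro k h
      obtain ⟨_, _, _, _, _, _, _, _, h1 | h1⟩ := id h
      · exact Or.inl ⟨h, h1⟩
      · exact Or.inr ⟨h, h1⟩
  cntB := by
    intro x
    apply cnt_two (P1 := fun k => uB adj K k.1 k.2.1 k.2.2.1 k.2.2.2.1 k.2.2.2.2 x ∧ critB adj k.1 x)
      (P2 := fun k => uB adj K k.1 k.2.1 k.2.2.1 k.2.2.2.1 k.2.2.2.2 x ∧ nsB adj k.1 k.2.2.1 x)
      ?_ (fun k => (k.2.1, k.2.2.1))
    · rintro ⟨s, i, j, u, v⟩ ⟨⟨_, h1, h2, h3, _⟩, _⟩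
      simp only at *
      omega
    · rintro ⟨s, i, j, u, v⟩ ⟨⟨_, h1, h2, h3, _⟩, _⟩
      simp only at *
      omega
    · rintro ⟨s, i, j, u, v⟩ ⟨s', i', j', u', v'⟩
        ⟨⟨_, _, _, _, hu, _, ⟨r, hr, hrv, _⟩, _⟩, hc⟩
        ⟨⟨_, _, _, _, hu', _, ⟨r', hr', hrv', _⟩, _⟩, hc'⟩ hg
      simp only [Prod.mk.injEq] at *
      obtain ⟨rfl, rfl⟩ := hg
      obtain rfl := critB_unique hc hc' hr.1.1 hr.1.2 hr'.1.1 hr'.1.2
      obtain rfl := hr.unique hr'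
      exact ⟨rfl, rfl, rfl, by omega, by omega⟩
    · rintro ⟨s, i, j, u, v⟩ ⟨s', i', j', u', v'⟩
        ⟨⟨hp, _, hi, _, hu, _, ⟨r, hr, hrv, _⟩, _⟩, hc⟩
        ⟨⟨hp', _, hi', _, hu', _, ⟨r', hr', hrv', _⟩, _⟩, hc'⟩ hg
      simp only [Prod.mk.injEq] at *
      obtain ⟨rfl, rfl⟩ := hg
      obtain rfl := nsB_unique hi hi' hp hp' hc hc' hr.1.1 hr.1.2 hr'.1.1 hr'.1.2
      obtain rfl := hr.unique hr'
      exact ⟨rfl, rfl, rfl, by omega, by omega⟩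
    · rintro k h
      obtain ⟨_, _, _, _, _, _, _, _, h1 | h1⟩ := id h
      · exact Or.inl ⟨h, h1⟩
      · exact Or.inr ⟨h, h1⟩

/-- membership of `a` in the family `V` -/
def vA (adj : ℤ → ℤ → Prop) (K s i j : ℕ) (u v : ℤ) (a : ℤ) : Prop :=
  pf s a % 2 = 0 ∧ i < s ∧ j < s ∧ s < K ∧ pf (i + 1) a = u ∧ pf i a % 2 = 0 ∧ critA adj s a ∧
    (∃ r, isR adj s a r ∧ pf (j + 1) r < v) ∧
    (∃ m, isM adj a m ∧ pf (j + 1) m = v ∧ pf j m % 2 = 1)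

/-- membership of `d` in the family `V` -/
def vB (adj : ℤ → ℤ → Prop) (K s i j : ℕ) (u v : ℤ) (d : ℤ) : Prop :=
  pf s d % 2 = 1 ∧ i < s ∧ j < s ∧ s < K ∧ pf (j + 1) d = v ∧ pf j d % 2 = 0 ∧
    (∃ l, isL adj s d l ∧ pf (i + 1) l = u ∧ pf i l % 2 = 1) ∧
    (∃ f, adj d f ∧ pf (i + 1) f < u) ∧ (critB adj s d ∨ nsB adj s j d)

/-- position of the last neighbour of a critical vertex -/
lemma crit_pos {s : ℕ} {a r m : ℤ} (ha : pf s a % 2 = 0) (hc : critA adj s a)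
    (hr : isR adj s a r) (hm : isM adj a m) : pf s m = pf s a + 1 := by
  have h1 := hc m hm.1
  have h2 : r ≤ m := hm.2 hr.1.1
  have h3 := pf_mono s h2
  have h4 := hr.1.2
  rw [pf_succ, pf_succ] at h1
  omega

include hs H in
lemma v_sound {s i j : ℕ} {u v a d : ℤ} (hA : vA adj K s i j u v a)
    (hB : vB adj K s i j u v d) : adj a d := by
  obtain ⟨ha, his, hjs, _, hau, ha0, hc, ⟨r, hr, hru⟩, ⟨m, hm, hmv, hm1⟩⟩ := hA
  obtain ⟨hd, _, _, _, hdu, hd1, ⟨l, hl, hlu, hl1⟩, ⟨f, hdf, hf⟩, _⟩ := hB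
  have hms := crit_pos ha hc hr hm
  have hmd : pf s m = pf s d := pf_eq_of_le (k := s) hjs (by rw [hmv, hdu])
  have hra := hr.1.2
  have hld := hl.1.2
  refine H f a l r d m ?_ ?_ ?_ ?_ ?_ hr.1.1 hm.1 (hs _ _ hl.1.1) (hs _ _ hdf)
  · apply lt_of_pf_lt (i := i + 1); omega
  · apply lt_of_pf_lt (i := i)
    have h1 := hau
    have h2 := hlu
    rw [pf_succ] at h1 h2
    omega
  · apply lt_of_pf_lt (i := s); omega
  · apply lt_of_pf_lt (i := j + 1); omega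
  · apply lt_of_pf_lt (i := j)
    have h1 := hmv
    have h2 := hdu
    rw [pf_succ] at h1 h2
    omega

/-- the family `V` -/
def famV : Fam adj K where
  inA := fun k a => vA adj K k.1 k.2.1 k.2.2.1 k.2.2.2.1 k.2.2.2.2 a
  inB := fun k a => vB adj K k.1 k.2.1 k.2.2.1 k.2.2.2.1 k.2.2.2.2 a
  sound := by
    rintro ⟨s, i, j, u, v⟩ a d h h'
    exact v_sound hs H K h h'
  cntA := by
    intro x
    apply cnt_one (fun k => (k.2.1, k.2.2.1))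
    · rintro ⟨s, i, j, u, v⟩ ⟨_, h1, h2, h3, _⟩
      simp only at *
      omega
    · rintro ⟨s, i, j, u, v⟩ ⟨s', i', j', u', v'⟩
        ⟨_, _, _, _, hu, _, hc, ⟨r, hr, _⟩, ⟨m, hm, hmv, _⟩⟩
        ⟨_, _, _, _, hu', _, hc', ⟨r', hr', _⟩, ⟨m', hm', hmv', _⟩⟩ hg
      simp only [Prod.mk.injEq] at *
      obtain ⟨rfl, rfl⟩ := hg
      obtain rfl := crit_unique hc hc' hr.1.1 hr.1.2 hr'.1.1 hr'.1.2
      obtain rfl := hm.unique hm'
      exact ⟨rfl, rfl, rfl, by omega, by omega⟩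
  cntB := by
    intro x
    apply cnt_two (P1 := fun k => vB adj K k.1 k.2.1 k.2.2.1 k.2.2.2.1 k.2.2.2.2 x ∧ critB adj k.1 x)
      (P2 := fun k => vB adj K k.1 k.2.1 k.2.2.1 k.2.2.2.1 k.2.2.2.2 x ∧ nsB adj k.1 k.2.2.1 x)
      ?_ (fun k => (k.2.1, k.2.2.1))
    · rintro ⟨s, i, j, u, v⟩ ⟨⟨_, h1, h2, h3, _⟩, _⟩
      simp only at *
      omega
    · rintro ⟨s, i, j, u, v⟩ ⟨⟨_, h1, h2, h3, _⟩, _⟩
      simp only at *
      omega
    · rintro ⟨s, i, j, u, v⟩ ⟨s', i', j', u', v'⟩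
        ⟨⟨_, _, _, _, hu, _, ⟨r, hr, hrv, _⟩, _⟩, hc⟩
        ⟨⟨_, _, _, _, hu', _, ⟨r', hr', hrv', _⟩, _⟩, hc'⟩ hg
      simp only [Prod.mk.injEq] at *
      obtain ⟨rfl, rfl⟩ := hg
      obtain rfl := critB_unique hc hc' hr.1.1 hr.1.2 hr'.1.1 hr'.1.2
      obtain rfl := hr.unique hr'
      exact ⟨rfl, rfl, rfl, by omega, by omega⟩
    · rintro ⟨s, i, j, u, v⟩ ⟨s', i', j', u', v'⟩
        ⟨⟨hp, _, hi, _, hu, _, ⟨r, hr, hrv, _⟩, _⟩, hc⟩
        ⟨⟨hp', _, hi', _, hu', _, ⟨r', hr', hrv', _⟩, _⟩, hc'⟩ hg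
      simp only [Prod.mk.injEq] at *
      obtain ⟨rfl, rfl⟩ := hg
      obtain rfl := nsB_unique hi hi' hp hp' hc hc' hr.1.1 hr.1.2 hr'.1.1 hr'.1.2
      obtain rfl := hr.unique hr'
      exact ⟨rfl, rfl, rfl, by omega, by omega⟩
    · rintro k h
      obtain ⟨_, _, _, _, _, _, _, _, h1 | h1⟩ := id h
      · exact Or.inl ⟨h, h1⟩
      · exact Or.inr ⟨h, h1⟩

/-- membership of `a` in the family `C` -/
def cA (adj : ℤ → ℤ → Prop) (K s i j : ℕ) (u v : ℤ) (a : ℤ) : Prop :=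
  pf s a % 2 = 0 ∧ i < s ∧ j < s ∧ s < K ∧ pf (i + 1) a = u ∧ pf i a % 2 = 1 ∧ critA adj s a ∧
    (∃ r, isR adj s a r ∧ pf (j + 1) r < v) ∧
    (∃ m, isM adj a m ∧ pf (j + 1) m = v ∧ pf j m % 2 = 1)

/-- membership of `d` in the family `C` -/
def cB (adj : ℤ → ℤ → Prop) (K s i j : ℕ) (u v : ℤ) (d : ℤ) : Prop :=
  pf s d % 2 = 1 ∧ i < s ∧ j < s ∧ s < K ∧ pf (j + 1) d = v ∧ pf j d % 2 = 0 ∧ critB adj s d ∧
    (∃ l, isL adj s d l ∧ u < pf (i + 1) l) ∧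
    (∃ m, isMu adj d m ∧ pf (i + 1) m = u ∧ pf i m % 2 = 0)

include hs H in
lemma c_sound {s i j : ℕ} {u v a d : ℤ} (hA : cA adj K s i j u v a)
    (hB : cB adj K s i j u v d) : adj a d := by
  obtain ⟨ha, his, hjs, _, hau, ha0, hc, ⟨r, hr, hru⟩, ⟨m, hm, hmv, hm1⟩⟩ := hA
  obtain ⟨hd, _, _, _, hdu, hd1, hc', ⟨l, hl, hlu⟩, ⟨f, hf, hfu, hf0⟩⟩ := hB
  have hms := crit_pos ha hc hr hm
  have hmd : pf s m = pf s d := pf_eq_of_le (k := s) hjs (by rw [hmv, hdu])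
  have hra := hr.1.2
  have hld := hl.1.2
  refine H f a l r d m ?_ ?_ ?_ ?_ ?_ hr.1.1 hm.1 (hs _ _ hl.1.1) (hs _ _ hf.1)
  · apply lt_of_pf_lt (i := i)
    have h1 := hau
    have h2 := hfu
    rw [pf_succ] at h1 h2
    omega
  · apply lt_of_pf_lt (i := i + 1); omega
  · apply lt_of_pf_lt (i := s); omega
  · apply lt_of_pf_lt (i := j + 1); omega
  · apply lt_of_pf_lt (i := j)
    have h1 := hmv
    have h2 := hdu
    rw [pf_succ] at h1 h2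
    omega

/-- the family `C` -/
def famC : Fam adj K where
  inA := fun k a => cA adj K k.1 k.2.1 k.2.2.1 k.2.2.2.1 k.2.2.2.2 a
  inB := fun k a => cB adj K k.1 k.2.1 k.2.2.1 k.2.2.2.1 k.2.2.2.2 a
  sound := by
    rintro ⟨s, i, j, u, v⟩ a d h h'
    exact c_sound hs H K h h'
  cntA := by
    intro x
    apply cnt_one (fun k => (k.2.1, k.2.2.1))
    · rintro ⟨s, i, j, u, v⟩ ⟨_, h1, h2, h3, _⟩
      simp only at *
      omega
    · rintro ⟨s, i, j, u, v⟩ ⟨s', i', j', u', v'⟩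
        ⟨_, _, _, _, hu, _, hc, ⟨r, hr, _⟩, ⟨m, hm, hmv, _⟩⟩
        ⟨_, _, _, _, hu', _, hc', ⟨r', hr', _⟩, ⟨m', hm', hmv', _⟩⟩ hg
      simp only [Prod.mk.injEq] at *
      obtain ⟨rfl, rfl⟩ := hg
      obtain rfl := crit_unique hc hc' hr.1.1 hr.1.2 hr'.1.1 hr'.1.2
      obtain rfl := hm.unique hm'
      exact ⟨rfl, rfl, rfl, by omega, by omega⟩
  cntB := by
    intro x
    apply cnt_one (fun k => (k.2.1, k.2.2.1))
    · rintro ⟨s, i, j, u, v⟩ ⟨_, h1, h2, h3, _⟩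
      simp only at *
      omega
    · rintro ⟨s, i, j, u, v⟩ ⟨s', i', j', u', v'⟩
        ⟨_, _, _, _, hv, _, hc, ⟨r, hr, _⟩, ⟨m, hm, hmu, _⟩⟩
        ⟨_, _, _, _, hv', _, hc', ⟨r', hr', _⟩, ⟨m', hm', hmu', _⟩⟩ hg
      simp only [Prod.mk.injEq] at *
      obtain ⟨rfl, rfl⟩ := hg
      obtain rfl := critB_unique hc hc' hr.1.1 hr.1.2 hr'.1.1 hr'.1.2
      obtain rfl := hm.unique hm'
      exact ⟨rfl, rfl, rfl, by omega, by omega⟩

/-- the first neighbour of `d` in its half and the bit separating it from `d` -/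
def gSp (adj : ℤ → ℤ → Prop) (s i : ℕ) (d : ℤ) : Prop :=
  ∃ g, IsLeast {y | adj d y ∧ pf s y = pf s d} g ∧ Sp i g d

/-- membership of `a` in the family `W1` -/
def w1A (adj : ℤ → ℤ → Prop) (K s i j : ℕ) (v : ℤ) (a : ℤ) : Prop :=
  pf s a % 2 = 0 ∧ i < s ∧ j < i ∧ s < K ∧ critA adj s a ∧
    (∃ m, isM adj a m ∧ pf s m = pf s a + 1 ∧ pf (j + 1) m = v ∧ pf j m % 2 = 1 ∧
      ∃ t, adj a t ∧ pf i t = pf i m ∧ pf (j + 1) t < v)

/-- membership of `d` in the family `W1` -/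
def w1B (adj : ℤ → ℤ → Prop) (K s i j : ℕ) (v : ℤ) (d : ℤ) : Prop :=
  pf s d % 2 = 1 ∧ i < s ∧ j < i ∧ s < K ∧ pf (j + 1) d = v ∧ pf j d % 2 = 0 ∧
    freeB adj s d ∧ gSp adj s i d

include hs H in
lemma w1_sound {s i j : ℕ} {v a d : ℤ} (hA : w1A adj K s i j v a)
    (hB : w1B adj K s i j v d) : adj a d := by
  obtain ⟨ha, his, hji, _, hc, ⟨m, hm, hms, hmv, hm1, t, hat, hti, htv⟩⟩ := hA
  obtain ⟨hd, _, _, _, hdv, hd0, ⟨f, hdf, hf⟩, ⟨g, hg, hgd⟩⟩ := hB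
  have hmdi : pf i m = pf i d := pf_eq_of_le (k := i) hji (by rw [hmv, hdv])
  have hmd : pf s m = pf s d := pf_eq_of_le his.le hmdi
  have hgs := hg.1.2
  have hg2 := hgd.2
  refine H f a g t d m ?_ ?_ ?_ ?_ ?_ hat hm.1 (hs _ _ hg.1.1) (hs _ _ hdf)
  · apply lt_of_pf_lt (i := s + 1)
    have : pf (s + 1) a = pf (s + 1) d := by rw [pf_succ, pf_succ]; omega
    omega
  · apply lt_of_pf_lt (i := s); omega
  · apply lt_of_pf_lt (i := i); omega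
  · apply lt_of_pf_lt (i := j + 1); omega
  · apply lt_of_pf_lt (i := j)
    have h1 := hmv
    have h2 := hdv
    rw [pf_succ] at h1 h2
    omega

/-- the family `W1` -/
def famW1 : Fam adj K where
  inA := fun k a => k.2.2.2.1 = 0 ∧ w1A adj K k.1 k.2.1 k.2.2.1 k.2.2.2.2 a
  inB := fun k a => k.2.2.2.1 = 0 ∧ w1B adj K k.1 k.2.1 k.2.2.1 k.2.2.2.2 a
  sound := by
    rintro ⟨s, i, j, u, v⟩ a d ⟨_, h⟩ ⟨_, h'⟩
    exact w1_sound hs H K h h'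
  cntA := by
    intro x
    apply cnt_one (fun k => (k.2.1, k.2.2.1))
    · rintro ⟨s, i, j, u, v⟩ ⟨_, _, h1, h2, h3, _⟩
      simp only at *
      omega
    · rintro ⟨s, i, j, u, v⟩ ⟨s', i', j', u', v'⟩
        ⟨hu, _, _, _, _, hc, ⟨m, hm, hms, hmv, _⟩⟩
        ⟨hu', _, _, _, _, hc', ⟨m', hm', hms', hmv', _⟩⟩ hg
      simp only [Prod.mk.injEq] at *
      obtain ⟨rfl, rfl⟩ := hg
      obtain rfl := crit_unique hc hc' hm.1 hms hm'.1 hms'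
      obtain rfl := hm.unique hm'
      exact ⟨rfl, rfl, rfl, by omega, by omega⟩
  cntB := by
    intro x
    apply cnt_one (fun k => (k.1, k.2.2.1))
    · rintro ⟨s, i, j, u, v⟩ ⟨_, _, h1, h2, h3, _⟩
      simp only at *
      omega
    · rintro ⟨s, i, j, u, v⟩ ⟨s', i', j', u', v'⟩
        ⟨hu, _, _, _, _, hv, _, _, ⟨g, hg, hgd⟩⟩
        ⟨hu', _, _, _, _, hv', _, _, ⟨g', hg', hgd'⟩⟩ hgg
      simp only [Prod.mk.injEq] at *
      obtain ⟨rfl, rfl⟩ := hgg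
      obtain rfl := hg.unique hg'
      obtain rfl := sp_unique hgd hgd'
      exact ⟨rfl, rfl, rfl, by omega, by omega⟩

/-- membership of `a` in the family `W2` -/
def w2A (adj : ℤ → ℤ → Prop) (K s i j : ℕ) (v : ℤ) (a : ℤ) : Prop :=
  pf s a % 2 = 0 ∧ i < s ∧ j < i ∧ s < K ∧ critA adj s a ∧
    (∃ m, isM adj a m ∧ pf s m = pf s a + 1 ∧ v < pf (j + 1) m ∧
      ∃ t, IsLeast {x | adj a x ∧ pf i x = pf i m} t ∧ pf (j + 1) t = v ∧ pf j t % 2 = 0)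

/-- membership of `d` in the family `W2` -/
def w2B (adj : ℤ → ℤ → Prop) (K s i j : ℕ) (v : ℤ) (d : ℤ) : Prop :=
  pf s d % 2 = 1 ∧ i < s ∧ j < i ∧ s < K ∧ pf (j + 1) d = v ∧ pf j d % 2 = 1 ∧
    freeB adj s d ∧ gSp adj s i d

include hs H in
lemma w2_sound {s i j : ℕ} {v a d : ℤ} (hA : w2A adj K s i j v a)
    (hB : w2B adj K s i j v d) : adj a d := by
  obtain ⟨ha, his, hji, _, hc, ⟨m, hm, hms, hmv, t, ht, htv, ht0⟩⟩ := hA
  obtain ⟨hd, _, _, _, hdv, hd1, ⟨f, hdf, hf⟩, ⟨g, hg, hgd⟩⟩ := hB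
  have htdi : pf i t = pf i d := pf_eq_of_le (k := i) hji (by rw [htv, hdv])
  have hti := ht.1.2
  have hmdi : pf i m = pf i d := by rw [← hti, htdi]
  have hmd : pf s m = pf s d := pf_eq_of_le his.le hmdi
  have hgs := hg.1.2
  have hg2 := hgd.2
  refine H f a g t d m ?_ ?_ ?_ ?_ ?_ ht.1.1 hm.1 (hs _ _ hg.1.1) (hs _ _ hdf)
  · apply lt_of_pf_lt (i := s + 1)
    have : pf (s + 1) a = pf (s + 1) d := by rw [pf_succ, pf_succ]; omega
    omega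
  · apply lt_of_pf_lt (i := s); omega
  · apply lt_of_pf_lt (i := i); omega
  · apply lt_of_pf_lt (i := j)
    have h1 := htv
    have h2 := hdv
    rw [pf_succ] at h1 h2
    omega
  · apply lt_of_pf_lt (i := j + 1); omega

/-- the family `W2` -/
def famW2 : Fam adj K where
  inA := fun k a => k.2.2.2.1 = 0 ∧ w2A adj K k.1 k.2.1 k.2.2.1 k.2.2.2.2 a
  inB := fun k a => k.2.2.2.1 = 0 ∧ w2B adj K k.1 k.2.1 k.2.2.1 k.2.2.2.2 a
  sound := by
    rintro ⟨s, i, j, u, v⟩ a d ⟨_, h⟩ ⟨_, h'⟩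
    exact w2_sound hs H K h h'
  cntA := by
    intro x
    apply cnt_one (fun k => (k.2.1, k.2.2.1))
    · rintro ⟨s, i, j, u, v⟩ ⟨_, _, h1, h2, h3, _⟩
      simp only at *
      omega
    · rintro ⟨s, i, j, u, v⟩ ⟨s', i', j', u', v'⟩
        ⟨hu, _, _, _, _, hc, ⟨m, hm, hms, hmv, t, ht, htv, _⟩⟩
        ⟨hu', _, _, _, _, hc', ⟨m', hm', hms', hmv', t', ht', htv', _⟩⟩ hg
      simp only [Prod.mk.injEq] at *
      obtain ⟨rfl, rfl⟩ := hg
      obtain rfl := crit_unique hc hc' hm.1 hms hm'.1 hms'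
      obtain rfl := hm.unique hm'
      obtain rfl := ht.unique ht'
      exact ⟨rfl, rfl, rfl, by omega, by omega⟩
  cntB := by
    intro x
    apply cnt_one (fun k => (k.1, k.2.2.1))
    · rintro ⟨s, i, j, u, v⟩ ⟨_, _, h1, h2, h3, _⟩
      simp only at *
      omega
    · rintro ⟨s, i, j, u, v⟩ ⟨s', i', j', u', v'⟩
        ⟨hu, _, _, _, _, hv, _, _, ⟨g, hg, hgd⟩⟩
        ⟨hu', _, _, _, _, hv', _, _, ⟨g', hg', hgd'⟩⟩ hgg
      simp only [Prod.mk.injEq] at *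
      obtain ⟨rfl, rfl⟩ := hgg
      obtain rfl := hg.unique hg'
      obtain rfl := sp_unique hgd hgd'
      exact ⟨rfl, rfl, rfl, by omega, by omega⟩

end Pool.Agent.VisGraph
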