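import Pool.Agent.VisGraph.Slit

/-!
# The Jordan curve theorem for polygons, via winding numbers
-/

namespace Pool.Agent.VisGraph

open Complex Set Filter Topology

/-- A simple closed polygon whose vertices are indexed periodically by natural numbers. -/
structure SP (n : ℕ) (p : ℕ → ℂ) : Prop where
  three_le : 3 ≤ n
  per : ∀ k, p (k + n) = p k
  inj : ∀ i j, i < j → j < i + n → p i ≠ p j
  consec : ∀ k, segment ℝ (p k) (p (k + 1)) ∩ segment ℝ (p (k + 1)) (p (k + 2)) = {p (k + 1)}
  disj : ∀ i j, i + 1 < j → j + 1 < i + n →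
    segment ℝ (p i) (p (i + 1)) ∩ segment ℝ (p j) (p (j + 1)) = ∅

/-- The polygonal path through `p a, …, p c`. -/
def chain (p : ℕ → ℂ) (a c : ℕ) : Set ℂ := {z | ∃ k, a ≤ k ∧ k < c ∧ z ∈ segment ℝ (p k) (p (k + 1))}

/-- The angle under which the path `p a, …, p c` is seen from `z`. -/
noncomputable def A (p : ℕ → ℂ) (a c : ℕ) (z : ℂ) : ℝ :=
  ∑ k ∈ Finset.Ico a c, ang z (p k) (p (k + 1))

lemma isCompact_chain (p : ℕ → ℂ) (a c : ℕ) : IsCompact (chain p a c) := by
  have : chain p a c = ⋃ k ∈ Finset.Ico a c, segment ℝ (p k) (p (k + 1)) := by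
    ext z
    simp only [chain, mem_ofPred_eq, mem_iUnion, Finset.mem_Ico, exists_prop, and_assoc]
  rw [this]
  exact (Finset.Ico a c).isCompact_biUnion fun k _ => isCompact_seg _ _

lemma isClosed_chain (p : ℕ → ℂ) (a c : ℕ) : IsClosed (chain p a c) :=
  (isCompact_chain p a c).isClosed

lemma mem_chain_of_mem {p : ℕ → ℂ} {a c k : ℕ} {z : ℂ} (h1 : a ≤ k) (h2 : k < c)
    (hz : z ∈ segment ℝ (p k) (p (k + 1))) : z ∈ chain p a c := ⟨k, h1, h2, hz⟩

lemma chain_mono {p : ℕ → ℂ} {a a' c c' : ℕ} (h1 : a' ≤ a) (h2 : c ≤ c') :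
    chain p a c ⊆ chain p a' c' := fun _ ⟨k, hk1, hk2, hz⟩ => ⟨k, by omega, by omega, hz⟩

lemma chain_union {p : ℕ → ℂ} {a b c : ℕ} (h1 : a ≤ b) (h2 : b ≤ c) :
    chain p a c = chain p a b ∪ chain p b c := by
  ext z
  constructor
  · rintro ⟨k, hk1, hk2, hz⟩
    by_cases h : k < b
    · exact Or.inl ⟨k, hk1, h, hz⟩
    · exact Or.inr ⟨k, by omega, hk2, hz⟩
  · rintro (h | h)
    · exact chain_mono le_rfl h2 h
    · exact chain_mono h1 le_rfl h

lemma chain_one {p : ℕ → ℂ} (a : ℕ) : chain p a (a + 1) = segment ℝ (p a) (p (a + 1)) := by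
  ext z
  constructor
  · rintro ⟨k, hk1, hk2, hz⟩
    have : k = a := by omega
    rwa [this] at hz
  · intro hz
    exact ⟨a, le_rfl, by omega, hz⟩

lemma left_mem_chain {p : ℕ → ℂ} {a c : ℕ} (h : a < c) : p a ∈ chain p a c :=
  ⟨a, le_rfl, h, left_mem_segment ℝ _ _⟩

lemma right_mem_chain {p : ℕ → ℂ} {a c : ℕ} (h : a < c) : p c ∈ chain p a c := by
  refine ⟨c - 1, by omega, by omega, ?_⟩
  have : c - 1 + 1 = c := by omega
  rw [this]
  exact right_mem_segment ℝ _ _

lemma mid_mem_chain {p : ℕ → ℂ} {a b c : ℕ} (h : a ≤ b) (h' : b < c) : p b ∈ chain p a c :=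
  ⟨b, h, h', left_mem_segment ℝ _ _⟩

lemma A_add {p : ℕ → ℂ} {a b c : ℕ} (h1 : a ≤ b) (h2 : b ≤ c) (z : ℂ) :
    A p a b z + A p b c z = A p a c z := Finset.sum_Ico_consecutive _ h1 h2

lemma A_one {p : ℕ → ℂ} (a : ℕ) (z : ℂ) : A p a (a + 1) z = ang z (p a) (p (a + 1)) := by
  simp [A]

lemma Rot.chain {p : ℕ → ℂ} {a c : ℕ} (h : a ≤ c) {z : ℂ} (hz : z ∉ chain p a c) :
    Rot z (p a) (p c) (A p a c z) := by
  induction c, h using Nat.le_induction with
  | base => simpa [A] using Rot.refl z (p a)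
  | succ c hc ih =>
    have h1 := ih fun h => hz (chain_mono le_rfl (Nat.le_succ c) h)
    have h2 : z ∉ segment ℝ (p c) (p (c + 1)) := fun h => hz ⟨c, hc, by omega, h⟩
    have h3 := h1.trans (Rot.ang h2)
    rwa [← A_one, A_add hc (Nat.le_succ c)] at h3

lemma continuousAt_A {p : ℕ → ℂ} {a c : ℕ} {z : ℂ} (hz : z ∉ chain p a c) :
    ContinuousAt (A p a c) z := by
  unfold A ContinuousAt
  apply tendsto_finsetSum
  intro k hk
  rw [Finset.mem_Ico] at hk
  exact continuousAt_ang fun h => hz ⟨k, hk.1, hk.2, h⟩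

lemma tendsto_A (p : ℕ → ℂ) (a c : ℕ) :
    Tendsto (A p a c) (Bornology.cobounded ℂ) (𝓝 0) := by
  have h : Tendsto (fun z => ∑ k ∈ Finset.Ico a c, ang z (p k) (p (k + 1)))
      (Bornology.cobounded ℂ) (𝓝 (∑ k ∈ Finset.Ico a c, 0)) :=
    tendsto_finsetSum _ fun k _ => tendsto_ang_cobounded _ _
  rw [Finset.sum_const_zero] at h
  exact h

/-- The angle along a path closed up by a segment is a multiple of `2π`. -/
lemma closed_int {p : ℕ → ℂ} {a c : ℕ} (h : a ≤ c) {z : ℂ} (hz : z ∉ chain p a c)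
    (hz' : z ∉ segment ℝ (p c) (p a)) :
    ∃ k : ℤ, A p a c z + ang z (p c) (p a) = 2 * Real.pi * k := by
  have h1 := (Rot.chain h hz).trans (Rot.ang hz')
  refine Rot.closed ?_ h1
  rintro rfl
  exact hz' (right_mem_segment ℝ _ _)

namespace SP

variable {n : ℕ} {p : ℕ → ℂ} (h : SP n p)

include h

lemma chain_per (a : ℕ) : chain p a (a + n) = chain p 0 n := by
  induction a with
  | zero => simp
  | succ a ih =>
    rw [← ih]
    have hn := h.three_le
    rw [chain_union (show a ≤ a + 1 by omega) (show a + 1 ≤ a + n by omega),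
      chain_union (show a + 1 ≤ a + n by omega) (show a + n ≤ a + 1 + n by omega), union_comm]
    congr 1
    rw [show a + 1 + n = a + n + 1 by ring, chain_one, chain_one, show a + n + 1 = a + 1 + n by ring,
      h.per, h.per]

lemma A_per (a : ℕ) (z : ℂ) : A p a (a + n) z = A p 0 n z := by
  induction a with
  | zero => simp
  | succ a ih =>
    rw [← ih]
    have hn := h.three_le
    rw [← A_add (show a ≤ a + 1 by omega) (show a + 1 ≤ a + n by omega),
      ← A_add (show a + 1 ≤ a + n by omega) (show a + n ≤ a + 1 + n by omega), add_comm]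
    congr 1
    rw [show a + 1 + n = a + n + 1 by ring, A_one, A_one, show a + n + 1 = a + 1 + n by ring,
      h.per, h.per]

lemma ne_succ (k : ℕ) : p k ≠ p (k + 1) := h.inj k (k + 1) (by omega) (by have := h.three_le; omega)

/-- An edge meets an earlier arc only in its starting point. -/
lemma arc_inter {m k : ℕ} (hm : m + 1 < n) (hk : k < m) {z : ℂ}
    (hz : z ∈ segment ℝ (p m) (p (m + 1))) (hzk : z ∈ segment ℝ (p k) (p (k + 1))) : z = p m := by
  by_cases h1 : k + 1 = m
  · subst h1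
    have := h.consec k
    have h2 : z ∈ segment ℝ (p k) (p (k + 1)) ∩ segment ℝ (p (k + 1)) (p (k + 2)) := ⟨hzk, hz⟩
    rw [this] at h2
    exact h2
  · have h2 : z ∈ segment ℝ (p k) (p (k + 1)) ∩ segment ℝ (p m) (p (m + 1)) := ⟨hzk, hz⟩
    rw [h.disj k m (by omega) (by omega)] at h2
    exact absurd h2 (by simp)

/-- The interior of an edge is disjoint from the rest of the boundary. -/
lemma open_notMem {j : ℕ} {q : ℂ} (hq : q ∈ openSegment ℝ (p j) (p (j + 1))) :
    q ∉ chain p (j + 1) (j + n) := by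
  have hn := h.three_le
  have hq' := openSegment_subset_segment ℝ _ _ hq
  have hco := (mem_openSegment_iff_co (h.ne_succ j) q).1 hq
  have hq1 : q ≠ p j := by
    rintro rfl
    have : co (p j) (p (j + 1)) (p j) = 0 := by simp [co]
    rw [this] at hco
    simp at hco
  have hq2 : q ≠ p (j + 1) := by
    rintro rfl
    have : co (p j) (p (j + 1)) (p (j + 1)) = 1 := by
      unfold co
      exact div_self (sub_ne_zero.2 (h.ne_succ j).symm)
    rw [this] at hco
    simp at hco
  rintro ⟨k, hk1, hk2, hz⟩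
  by_cases e1 : k = j + 1
  · subst e1
    have h2 : q ∈ segment ℝ (p j) (p (j + 1)) ∩ segment ℝ (p (j + 1)) (p (j + 2)) := ⟨hq', hz⟩
    rw [h.consec j] at h2
    exact hq2 h2
  · by_cases e2 : k + 1 = j + n
    · have e3 : segment ℝ (p j) (p (j + 1)) = segment ℝ (p (k + 1)) (p (k + 2)) := by
        rw [e2, h.per, show k + 2 = j + 1 + n by omega, h.per]
      rw [e3] at hq'
      have h2 : q ∈ segment ℝ (p k) (p (k + 1)) ∩ segment ℝ (p (k + 1)) (p (k + 2)) := ⟨hz, hq'⟩
      rw [h.consec k, e2, h.per] at h2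
      exact hq1 h2
    · have h2 : q ∈ segment ℝ (p j) (p (j + 1)) ∩ segment ℝ (p k) (p (k + 1)) := ⟨hq', hz⟩
      rw [h.disj j k (by omega) (by omega)] at h2
      exact absurd h2 (by simp)

/-- The complement of a proper sub-arc is connected. -/
lemma arc_compl {m : ℕ} (hm : m < n) : IsPreconnected ({p 0} ∪ chain p 0 m)ᶜ := by
  induction m with
  | zero =>
    have : chain p 0 0 = ∅ := by
      ext z; simp [chain]
    rw [this, union_empty]
    exact (isConnected_compl_singleton_of_one_lt_rank (by simp) (p 0)).isPreconnected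
  | succ m ih =>
    have ih' := ih (by omega)
    have key : ∀ z ∈ segment ℝ (p m) (p (m + 1)), z ∈ ({p 0} ∪ chain p 0 m : Set ℂ) → z = p m := by
      intro z hz hz'
      rcases hz' with hz' | ⟨k, -, hk, hzk⟩
      · rw [mem_singleton_iff] at hz'
        by_cases hm0 : m = 0
        · rw [hz', hm0]
        · refine h.arc_inter (k := 0) hm (by omega) hz ?_
          rw [hz']; exact left_mem_segment ℝ _ _
      · exact h.arc_inter hm hk hz hzk
    have hpm : p m ∈ ({p 0} ∪ chain p 0 m : Set ℂ) := by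
      by_cases hm0 : m = 0
      · left; rw [hm0]; rfl
      · right; exact right_mem_chain (by omega)
    have hopen : IsOpen ({p 0} ∪ chain p 0 m)ᶜ :=
      (isClosed_singleton.union (isClosed_chain p 0 m)).isOpen_compl
    have h1 := slit_free hopen ih' (h.ne_succ m)
      (by
        intro z hz hz'
        have := key z (openSegment_subset_segment ℝ _ _ hz) hz'
        subst this
        have hco := (mem_openSegment_iff_co (h.ne_succ m) _).1 hz
        have h3 : co (p m) (p (m + 1)) (p m) = 0 := by simp [co]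
        rw [h3] at hco
        simp at hco)
      (fun hh => hh hpm)
      (by
        intro hh
        exact h.ne_succ m (key _ (right_mem_segment ℝ _ _) hh).symm)
    have h2 : ({p 0} ∪ chain p 0 m)ᶜ \ segment ℝ (p m) (p (m + 1)) =
        ({p 0} ∪ chain p 0 (m + 1))ᶜ := by
      rw [chain_union (Nat.zero_le m) (Nat.le_succ m), Nat.succ_eq_add_one, chain_one,
        ← union_assoc, compl_union ({p 0} ∪ chain p 0 m), sdiff_eq]
    rwa [h2] at h1

/-- The jump of the winding number across an edge. -/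
lemma edge_jump (j : ℕ) {q : ℂ} (hq : q ∈ openSegment ℝ (p j) (p (j + 1))) :
    ∃ r > 0, (∀ z, dist z q < r → orient (p j) (p (j + 1)) z ≠ 0 → z ∉ chain p 0 n) ∧
      ∀ z z', dist z q < r → dist z' q < r → orient (p j) (p (j + 1)) z < 0 →
        0 < orient (p j) (p (j + 1)) z' → A p 0 n z' = A p 0 n z + 2 * Real.pi := by
  have hn := h.three_le
  have hq1 := h.open_notMem hq
  have hWe : ∀ z, A p 0 n z = A p (j + 1) (j + n) z + ang z (p j) (p (j + 1)) := by
    intro z
    rw [← h.A_per j, ← A_add (show j ≤ j + 1 by omega) (show j + 1 ≤ j + n by omega), A_one,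
      add_comm]
  have hbd : chain p 0 n = segment ℝ (p j) (p (j + 1)) ∪ chain p (j + 1) (j + n) := by
    rw [← h.chain_per j, chain_union (show j ≤ j + 1 by omega) (show j + 1 ≤ j + n by omega),
      chain_one]
  have hev : ∀ᶠ z in 𝓝 q, z ∉ chain p (j + 1) (j + n) :=
    (isClosed_chain p (j + 1) (j + n)).isOpen_compl.mem_nhds hq1
  have hoff : ∀ᶠ z in 𝓝 q, orient (p j) (p (j + 1)) z ≠ 0 → z ∉ chain p 0 n := by
    filter_upwards [hev] with z hz ho hz'
    rw [hbd] at hz'
    rcases hz' with hz' | hz'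
    · exact ho (orient_eq_zero_of_mem hz')
    · exact hz hz'
  obtain ⟨r, hr, hj⟩ := jump (h.ne_succ j) hq (continuousAt_A hq1) (by
    filter_upwards [hoff, hev] with z hz hz2 ho
    have h1 : z ∉ segment ℝ (p j) (p (j + 1)) := by
      intro hh
      exact ho (orient_eq_zero_of_mem hh)
    have h2 := closed_int (show j + 1 ≤ j + n by omega) hz2 (by rw [h.per]; exact h1)
    rwa [h.per] at h2)
  obtain ⟨r', hr', hoff'⟩ := Metric.eventually_nhds_iff.1 hoff
  refine ⟨min r r', lt_min hr hr', ?_, ?_⟩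
  · intro z hz ho
    exact hoff' (lt_of_lt_of_le hz (min_le_right _ _)) ho
  · intro z z' hz hz' ho ho'
    rw [hWe, hWe]
    exact hj z z' (lt_of_lt_of_le hz (min_le_left _ _)) (lt_of_lt_of_le hz' (min_le_left _ _))
      ho ho'

lemma W_int {z : ℂ} (hz : z ∉ chain p 0 n) : ∃ k : ℤ, A p 0 n z = 2 * Real.pi * k := by
  have hn := h.three_le
  have h1 := Rot.chain (Nat.zero_le n) hz
  have h2 : p n = p 0 := by
    have := h.per 0
    rwa [zero_add] at this
  rw [h2] at h1
  refine Rot.closed ?_ h1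
  rintro rfl
  exact hz (left_mem_chain (by omega))

end SP

/-- The closed region bounded by a polygon. -/
def reg (n : ℕ) (p : ℕ → ℂ) : Set ℂ :=
  chain p 0 n ∪ {z | z ∉ chain p 0 n ∧ Bornology.IsBounded (connectedComponentIn (chain p 0 n)ᶜ z)}

/-- The data given by the Jordan curve theorem. -/
structure JData (n : ℕ) (p : ℕ → ℂ) (ε : ℝ) (U : Set ℂ) : Prop where
  eps : ε = 1 ∨ ε = -1
  isOpen : IsOpen U
  conn : IsPreconnected U
  unbdd : ¬ Bornology.IsBounded U
  sub : U ⊆ (chain p 0 n)ᶜ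
  reg_eq : reg n p = Uᶜ
  W_out : ∀ z ∈ U, A p 0 n z = 0
  W_in : ∀ z, z ∉ U → z ∉ chain p 0 n → A p 0 n z = 2 * Real.pi * ε
  bdd : Bornology.IsBounded Uᶜ
  clos : chain p 0 n ⊆ closure U

lemma not_isBounded_compl {S : Set ℂ} (hS : Bornology.IsBounded S) :
    ¬ Bornology.IsBounded Sᶜ := by
  intro h
  have := h.union hS
  rw [compl_union_self] at this
  exact NormedSpace.unbounded_univ ℝ ℂ this

lemma jordan_aux {n : ℕ} {p : ℕ → ℂ} (h : SP n p) {z1 z2 : ℂ} {ε : ℝ} (hε : ε = 1 ∨ ε = -1)
    (hz1 : z1 ∉ chain p 0 n) (hz2 : z2 ∉ chain p 0 n)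
    (hcov : ∀ z, z ∉ chain p 0 n → z ∈ connectedComponentIn (chain p 0 n)ᶜ z1 ∨
      z ∈ connectedComponentIn (chain p 0 n)ᶜ z2)
    (hW : A p 0 n z2 = A p 0 n z1 + 2 * Real.pi * ε)
    (hub : ¬ Bornology.IsBounded (connectedComponentIn (chain p 0 n)ᶜ z1)) :
    JData n p ε (connectedComponentIn (chain p 0 n)ᶜ z1) := by
  have hpi := Real.pi_pos
  have hn := h.three_le
  set B := chain p 0 n with hB
  have hBc : IsCompact B := isCompact_chain p 0 n
  have hBo : IsOpen Bᶜ := hBc.isClosed.isOpen_compl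
  have hcont : ∀ x, ContinuousOn (A p 0 n) (connectedComponentIn Bᶜ x) := by
    intro x z hz
    exact (continuousAt_A (connectedComponentIn_subset _ _ hz)).continuousWithinAt
  have hint : ∀ x, ∀ z ∈ connectedComponentIn Bᶜ x, ∃ k : ℤ, A p 0 n z = 2 * Real.pi * k :=
    fun x z hz => h.W_int (connectedComponentIn_subset _ _ hz)
  have hconst : ∀ x ∈ Bᶜ, ∀ z ∈ connectedComponentIn Bᶜ x, A p 0 n z = A p 0 n x := by
    intro x hx z hz
    exact const_of_preconnected isPreconnected_connectedComponentIn (hcont x) (hint x) hz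
      (mem_connectedComponentIn hx)
  have hzero : ∀ x ∈ Bᶜ, ¬ Bornology.IsBounded (connectedComponentIn Bᶜ x) →
      A p 0 n x = 0 := by
    intro x hx hx2
    exact zero_of_unbounded isPreconnected_connectedComponentIn hx2 (hcont x) (hint x)
      (tendsto_A p 0 n) (mem_connectedComponentIn hx)
  have hW1 : A p 0 n z1 = 0 := hzero z1 hz1 hub
  have hW2 : A p 0 n z2 = 2 * Real.pi * ε := by rw [hW, hW1, zero_add]
  have hne : 2 * Real.pi * ε ≠ 0 := by
    rcases hε with rfl | rfl
    · positivity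
    · intro h0
      linarith
  have hb2 : Bornology.IsBounded (connectedComponentIn Bᶜ z2) := by
    by_contra hcon
    exact hne (hW2.symm.trans (hzero z2 hz2 hcon))
  have hcompl : (connectedComponentIn Bᶜ z1)ᶜ = B ∪ connectedComponentIn Bᶜ z2 := by
    ext z
    constructor
    · intro hz
      by_cases hzB : z ∈ B
      · exact Or.inl hzB
      · rcases hcov z hzB with h1 | h1
        · exact absurd h1 hz
        · exact Or.inr h1
    · rintro (hz | hz) hz'
      · exact connectedComponentIn_subset _ _ hz' hz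
      · have e1 := hconst z1 hz1 z hz'
        have e2 := hconst z2 hz2 z hz
        rw [e1, hW1, hW2] at e2
        exact hne e2.symm
  refine ⟨hε, hBo.connectedComponentIn, isPreconnected_connectedComponentIn, hub,
    connectedComponentIn_subset _ _, ?_, ?_, ?_, ?_, ?_⟩
  · ext z
    rw [hcompl]
    constructor
    · rintro (hz | ⟨hz, hzb⟩)
      · exact Or.inl hz
      · rcases hcov z hz with h1 | h1
        · rw [← connectedComponentIn_eq h1] at hzb
          exact absurd hzb hub
        · exact Or.inr h1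
    · rintro (hz | hz)
      · exact Or.inl hz
      · refine Or.inr ⟨connectedComponentIn_subset _ _ hz, ?_⟩
        rw [← connectedComponentIn_eq hz]
        exact hb2
  · intro z hz
    rw [hconst z1 hz1 z hz, hW1]
  · intro z hz hzB
    rcases hcov z hzB with h1 | h1
    · exact absurd h1 hz
    · rw [hconst z2 hz2 z h1, hW2]
  · rw [hcompl]
    exact hBc.isBounded.union hb2
  · -- every boundary point is a limit of outer points
    have hopenseg : ∀ j, openSegment ℝ (p j) (p (j + 1)) ⊆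
        closure (connectedComponentIn Bᶜ z1) := by
      intro j q hq
      obtain ⟨r, hr, hoff, hjmp⟩ := h.edge_jump j hq
      rw [Metric.mem_closure_iff]
      intro δ hδ
      have hq0 := orient_eq_zero_of_mem (openSegment_subset_segment ℝ _ _ hq)
      have hmin : 0 < min r δ := lt_min hr hδ
      obtain ⟨y1, hy1, ho1⟩ := exists_neg (h.ne_succ j) Metric.isOpen_ball
        (Metric.mem_ball_self hmin) hq0.le
      obtain ⟨y2, hy2, ho2⟩ := exists_pos (h.ne_succ j) Metric.isOpen_ball
        (Metric.mem_ball_self hmin) hq0.ge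
      rw [Metric.mem_ball] at hy1 hy2
      have e1 := hjmp y1 y2 (lt_of_lt_of_le hy1 (min_le_left _ _))
        (lt_of_lt_of_le hy2 (min_le_left _ _)) ho1 ho2
      have hy1B := hoff y1 (lt_of_lt_of_le hy1 (min_le_left _ _)) ho1.ne
      have hy2B := hoff y2 (lt_of_lt_of_le hy2 (min_le_left _ _)) ho2.ne'
      have hd1 : dist q y1 < δ := by
        rw [dist_comm]; exact lt_of_lt_of_le hy1 (min_le_right _ _)
      have hd2 : dist q y2 < δ := by
        rw [dist_comm]; exact lt_of_lt_of_le hy2 (min_le_right _ _)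
      rcases hcov y1 hy1B with c1 | c1
      · exact ⟨y1, c1, hd1⟩
      · rcases hcov y2 hy2B with c2 | c2
        · exact ⟨y2, c2, hd2⟩
        · exfalso
          rw [hconst z2 hz2 y1 c1, hconst z2 hz2 y2 c2] at e1
          linarith
    rintro z ⟨j, -, -, hz⟩
    have := closure_mono (hopenseg j)
    rw [closure_openSegment, closure_closure] at this
    exact this hz

/-- **Jordan curve theorem for polygons.** -/
theorem jordan {n : ℕ} {p : ℕ → ℂ} (h : SP n p) : ∃ (ε : ℝ) (U : Set ℂ), JData n p ε U := by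
  have hn := h.three_le
  obtain ⟨N, rfl⟩ : ∃ N, n = N + 1 := ⟨n - 1, by omega⟩
  set B := chain p 0 (N + 1) with hB
  have hBc : IsCompact B := isCompact_chain p 0 (N + 1)
  have hp0 : p (N + 1) = p 0 := by
    have := h.per 0
    rwa [zero_add] at this
  set Ua : Set ℂ := ({p 0} ∪ chain p 0 N)ᶜ with hUa
  have hUo : IsOpen Ua := (isClosed_singleton.union (isClosed_chain p 0 N)).isOpen_compl
  have hUc : IsPreconnected Ua := h.arc_compl (by omega)
  have hdiff : Ua \ segment ℝ (p N) (p (N + 1)) = Bᶜ := by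
    have h0 : p 0 ∈ chain p 0 N := left_mem_chain (by omega)
    have h1 : ({p 0} ∪ chain p 0 N : Set ℂ) = chain p 0 N := by
      apply union_eq_right.2
      simpa using h0
    rw [hUa, h1, hB, chain_union (Nat.zero_le N) (Nat.le_succ N), Nat.succ_eq_add_one, chain_one,
      compl_union, sdiff_eq]
  have hv : p N ∉ Ua := fun hh => hh (Or.inr (right_mem_chain (by omega)))
  have hw : p (N + 1) ∉ Ua := by
    rw [hp0]
    exact fun hh => hh (Or.inl rfl)
  have hseg : openSegment ℝ (p N) (p (N + 1)) ⊆ Ua := by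
    intro q hq hq'
    have h1 := h.open_notMem hq
    apply h1
    have h2 : q ∈ chain p 0 N := by
      rcases hq' with hq' | hq'
      · rw [hq']; exact left_mem_chain (by omega)
      · exact hq'
    obtain ⟨k, -, hk, hz⟩ := h2
    refine ⟨k + (N + 1), by omega, by omega, ?_⟩
    rw [show k + (N + 1) + 1 = (k + 1) + (N + 1) by ring, h.per, h.per]
    exact hz
  set m : ℂ := (1 / 2 : ℝ) • p N + (1 / 2 : ℝ) • p (N + 1) with hm
  have hmo : m ∈ openSegment ℝ (p N) (p (N + 1)) :=
    ⟨1 / 2, 1 / 2, by norm_num, by norm_num, by norm_num, rfl⟩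
  obtain ⟨r, hr, hoff, hjmp⟩ := h.edge_jump N hmo
  have hnh : Ua ∩ {z | 0 < (co (p N) (p (N + 1)) z).re ∧ (co (p N) (p (N + 1)) z).re < 1} ∈ 𝓝 m :=
    inter_mem (hUo.mem_nhds (hseg hmo)) (openSegment_nhds (h.ne_succ N) hmo)
  obtain ⟨r', hr', hball⟩ := Metric.mem_nhds_iff.1 hnh
  have hmin : 0 < min r r' := lt_min hr hr'
  have hq0 := orient_eq_zero_of_mem (openSegment_subset_segment ℝ _ _ hmo)
  obtain ⟨y1, hy1, ho1⟩ := exists_neg (h.ne_succ N) Metric.isOpen_ball
    (Metric.mem_ball_self hmin) hq0.le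
  obtain ⟨y2, hy2, ho2⟩ := exists_pos (h.ne_succ N) Metric.isOpen_ball
    (Metric.mem_ball_self hmin) hq0.ge
  have hy1' : dist y1 m < min r r' := hy1
  have hy2' : dist y2 m < min r r' := hy2
  have e1 := hjmp y1 y2 (lt_of_lt_of_le hy1' (min_le_left _ _))
    (lt_of_lt_of_le hy2' (min_le_left _ _)) ho1 ho2
  have hy1B := hoff y1 (lt_of_lt_of_le hy1' (min_le_left _ _)) ho1.ne
  have hy2B := hoff y2 (lt_of_lt_of_le hy2' (min_le_left _ _)) ho2.ne'
  have hbs : Metric.ball m (min r r') ⊆ Metric.ball m r' :=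
    Metric.ball_subset_ball (min_le_right _ _)
  have hcov : ∀ z, z ∉ B → z ∈ connectedComponentIn Bᶜ y2 ∨ z ∈ connectedComponentIn Bᶜ y1 := by
    intro z hz
    have h1 : z ∈ Ua \ segment ℝ (p N) (p (N + 1)) := by rw [hdiff]; exact hz
    have := slit_two hUo hUc (h.ne_succ N) hseg hv hw hmin hmo
      (fun z hz => (hball (hbs hz)).1)
      (fun z hz ho => mem_segment_of_orient (h.ne_succ N) (hball (hbs hz)).2 ho)
      hy2 ho2 hy1 ho1 h1
    rwa [hdiff] at this
  by_cases hub : Bornology.IsBounded (connectedComponentIn Bᶜ y1)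
  · have hub2 : ¬ Bornology.IsBounded (connectedComponentIn Bᶜ y2) := by
      intro hb
      have := not_isBounded_compl hBc.isBounded
      apply this
      refine (hb.union hub).subset ?_
      intro z hz
      exact hcov z hz
    refine ⟨-1, _, jordan_aux h (Or.inr rfl) hy2B hy1B hcov ?_ hub2⟩
    rw [e1]; ring
  · refine ⟨1, _, jordan_aux h (Or.inl rfl) hy1B hy2B (fun z hz => (hcov z hz).symm) ?_ hub⟩
    rw [e1]; ring

end Pool.Agent.VisGraph
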