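import Pool.Agent.VisGraph.Pits
import Pool.Agent.VisGraph.Basic

/-!
# The lower bound `f(n) ≥ c n log³ n`
-/

namespace Pool.Agent.VisGraph

open Finset

section

variable {N r : ℕ} (hN : 0 < N)

lemma poly_nat {k : ℕ} (hk : k < (pits N r hN).n) :
    (pits N r hN).poly (k : ZMod (pits N r hN).n) = (pits N r hN).V k := by
  unfold Chains.poly natPoly
  rw [ZMod.val_natCast, Nat.mod_eq_of_lt hk]

lemma poly_left {a : ℕ} (ha : a < N * N) :
    (pits N r hN).poly ((r + 1 + 3 * a + 1 : ℕ) : ZMod (pits N r hN).n) = apL N a := by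
  have hn := pits_n N r hN
  have hp : (pits N r hN).p = r + 1 + 3 * (N * N) := rfl
  rw [poly_nat hN (by omega), Chains.V_left _ (by omega)]
  unfold Chains.vl apL
  change (⟨xL N r (r + 1 + 3 * a + 1), yL N r (r + 1 + 3 * a + 1)⟩ : ℂ) = _
  rw [xL_apex ha, yL_apex ha]

lemma poly_right {b : ℕ} (hb : b < N * N) :
    (pits N r hN).poly ((6 * (N * N) + 1 + r - 3 * b : ℕ) : ZMod (pits N r hN).n) = apR N b := by
  have hn := pits_n N r hN
  have hp : (pits N r hN).p = r + 1 + 3 * (N * N) := rfl
  rw [poly_nat hN (by omega), Chains.V_right _ (by omega)]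
  have e : (pits N r hN).n - 1 - (6 * (N * N) + 1 + r - 3 * b) = 1 + 3 * b + 1 := by omega
  rw [e]
  unfold Chains.vr apR
  change (⟨xR N (1 + 3 * b + 1), yR N r (1 + 3 * b + 1)⟩ : ℂ) = _
  rw [xR_apex hb, yR_apex hb]

lemma sees_iff {i j i' j' : ℕ} (hj : j < N) (hi' : i' < N) :
    sees N (i * N + j) (j' * N + i') ↔ i < i' ∧ j < j' := by
  unfold sees
  have e1 : (i * N + j) % N = j := by
    rw [Nat.add_comm, Nat.add_mul_mod_self_right, Nat.mod_eq_of_lt hj]
  have e2 : (j' * N + i') % N = i' := by
    rw [Nat.add_comm, Nat.add_mul_mod_self_right, Nat.mod_eq_of_lt hi']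
  rw [e1, e2]
  constructor
  · rintro ⟨h1, h2⟩
    constructor
    · by_contra hno
      have : i' * N ≤ i * N := Nat.mul_le_mul_right _ (by omega)
      omega
    · by_contra hno
      have : (j' + 1) * N ≤ (j + 1) * N := Nat.mul_le_mul_right _ (by omega)
      have e : (j' + 1) * N = j' * N + N := by ring
      omega
  · rintro ⟨h1, h2⟩
    constructor
    · have : (j + 1) * N ≤ j' * N := Nat.mul_le_mul_right _ (by omega)
      omega
    · have : (i + 1) * N ≤ i' * N := Nat.mul_le_mul_right _ (by omega)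
      have e : (i + 1) * N = i * N + N := by ring
      omega

theorem pits_lower (C : Covering (visGraph (pits N r hN).poly)) :
    tot N ^ 2 ≤ 8 * (C.size : ℝ) := by
  have hn := pits_n N r hN
  have hlt : ∀ a ∈ range N ×ˢ range N, a.1 * N + a.2 < N * N := by
    intro a ha
    simp only [mem_product, mem_range] at ha
    have : (a.1 + 1) * N ≤ N * N := Nat.mul_le_mul_right _ (by omega)
    have e : (a.1 + 1) * N = a.1 * N + N := by ring
    omega
  have hlt' : ∀ a ∈ range N ×ˢ range N, a.2 * N + a.1 < N * N := by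
    intro a ha
    simp only [mem_product, mem_range] at ha
    have : (a.2 + 1) * N ≤ N * N := Nat.mul_le_mul_right _ (by omega)
    have e : (a.2 + 1) * N = a.2 * N + N := by ring
    omega
  have cast_inj : ∀ x y : ℕ, x < (pits N r hN).n → y < (pits N r hN).n →
      ((x : ZMod (pits N r hN).n) = (y : ZMod (pits N r hN).n)) → x = y := by
    intro x y hx hy hxy
    have := congrArg ZMod.val hxy
    rwa [ZMod.val_natCast, ZMod.val_natCast, Nat.mod_eq_of_lt hx, Nat.mod_eq_of_lt hy] at this
  have divmod : ∀ x y x' y' : ℕ, y < N → y' < N → x * N + y = x' * N + y' → x = x' ∧ y = y' := by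
    intro x y x' y' hy hy' h
    have h1 : (x * N + y) % N = (x' * N + y') % N := by rw [h]
    have e1 : (x * N + y) % N = y := by
      rw [Nat.add_comm, Nat.add_mul_mod_self_right, Nat.mod_eq_of_lt hy]
    have e2 : (x' * N + y') % N = y' := by
      rw [Nat.add_comm, Nat.add_mul_mod_self_right, Nat.mod_eq_of_lt hy']
    rw [e1, e2] at h1
    refine ⟨?_, h1⟩
    have h2 : x * N = x' * N := by omega
    exact Nat.eq_of_mul_eq_mul_right hN h2
  apply cover_size_lower (G := visGraph (pits N r hN).poly) N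
    (fun a => ((r + 1 + 3 * (a.1 * N + a.2) + 1 : ℕ) : ZMod (pits N r hN).n))
    (fun b => ((6 * (N * N) + 1 + r - 3 * (b.2 * N + b.1) : ℕ) : ZMod (pits N r hN).n))
  · intro a ha b hb hab
    have ha' := hlt a (Finset.mem_coe.mp ha)
    have hb' := hlt b (Finset.mem_coe.mp hb)
    have := cast_inj _ _ (by omega) (by omega) hab
    have ha2 := Finset.mem_coe.mp ha
    have hb2 := Finset.mem_coe.mp hb
    simp only [mem_product, mem_range] at ha2 hb2
    have := divmod a.1 a.2 b.1 b.2 ha2.2 hb2.2 (by omega)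
    exact Prod.ext this.1 this.2
  · intro a ha b hb hab
    have ha' := hlt' a (Finset.mem_coe.mp ha)
    have hb' := hlt' b (Finset.mem_coe.mp hb)
    have := cast_inj _ _ (by omega) (by omega) hab
    have ha2 := Finset.mem_coe.mp ha
    have hb2 := Finset.mem_coe.mp hb
    simp only [mem_product, mem_range] at ha2 hb2
    have := divmod a.2 a.1 b.2 b.1 ha2.1 hb2.1 (by omega)
    exact Prod.ext this.2 this.1
  · intro a ha b hb hab
    have ha' := hlt a ha
    have hb' := hlt' b hb
    have := cast_inj _ _ (by omega) (by omega) hab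
    omega
  · intro a ha b hb
    have ha' := hlt a ha
    have hb' := hlt' b hb
    change (_ ≠ _ ∧ segment ℝ ((pits N r hN).poly _) ((pits N r hN).poly _) ⊆ _) ↔ _
    rw [poly_left hN ha', poly_right hN hb', Chains.region_eq, visible_iff hN ha' hb']
    simp only [mem_product, mem_range] at ha hb
    rw [sees_iff ha.2 hb.1]
    constructor
    · exact fun h => h.2
    · intro h
      refine ⟨?_, h⟩
      intro hab
      have := cast_inj _ _ (by omega) (by omega) hab
      omega

end

/-- For every large `n` the pit polygons with `n` vertices need covers of size `≥ c n log² n`. -/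
theorem exists_hard_polygon {n : ℕ} (hn : 20736 ≤ n) :
    ∃ P : ZMod n → ℂ, IsSimplePolygon P ∧ ∀ C : Covering (visGraph P),
      (n : ℝ) * Real.log n ^ 2 / 18432 ≤ C.size := by
  set N := Nat.sqrt (n / 8) with hNdef
  have h1 : N * N ≤ n / 8 := Nat.sqrt_le (n / 8)
  have h2 : n / 8 < (N + 1) * (N + 1) := Nat.lt_succ_sqrt (n / 8)
  have hN3 : 50 ≤ N := by
    have : 50 * 50 ≤ n / 8 := by omega
    exact Nat.le_sqrt.mpr this
  have hN : 0 < N := by omega
  obtain ⟨r, hr⟩ : ∃ r, n = 6 * (N * N) + 4 + r := ⟨n - (6 * (N * N) + 4), by omega⟩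
  have hn' : n = (pits N r hN).n := by rw [pits_n]; exact hr
  have key : ∀ C : Covering (visGraph (pits N r hN).poly), tot N ^ 2 ≤ 8 * (C.size : ℝ) :=
    fun C => pits_lower hN C
  have hsimple := (pits N r hN).simple
  -- numeric estimate
  have hest : (n : ℝ) * Real.log n ^ 2 / 2304 ≤ tot N ^ 2 := by
    have hn0 : (0 : ℝ) < n := by
      have : 0 < n := by omega
      exact_mod_cast this
    set s := Real.sqrt n with hs
    have hs2 : s ^ 2 = n := Real.sq_sqrt hn0.le
    have hs144 : 144 ≤ s := by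
      rw [hs]
      apply Real.le_sqrt_of_sq_le
      have : (20736 : ℝ) ≤ n := by exact_mod_cast hn
      linarith
    have hs3 : s ≤ 3 * ((N : ℝ) + 1) := by
      have h3 : n < 8 * ((N + 1) * (N + 1)) := by omega
      have h4 : (n : ℝ) < 8 * (((N : ℝ) + 1) * ((N : ℝ) + 1)) := by exact_mod_cast h3
      rw [hs]
      apply Real.sqrt_le_iff.mpr
      constructor
      · positivity
      · nlinarith
    have hNs : s / 6 ≤ (N : ℝ) := by linarith
    have hN2 : s / 12 ≤ ((N / 2 : ℕ) : ℝ) := by
      have h5 : N ≤ 2 * (N / 2) + 1 := by omega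
      have h6 : (N : ℝ) ≤ 2 * ((N / 2 : ℕ) : ℝ) + 1 := by exact_mod_cast h5
      linarith
    have hlog : Real.log n / 4 ≤ Real.log ((N : ℝ) / 2) := by
      have h7 : s / 12 ≤ (N : ℝ) / 2 := by linarith
      have h8 : Real.log (s / 12) ≤ Real.log ((N : ℝ) / 2) :=
        Real.log_le_log (by positivity) h7
      have h9 : Real.log (s / 12) = Real.log n / 2 - Real.log 12 := by
        rw [Real.log_div (by positivity) (by norm_num), hs, Real.log_sqrt hn0.le]
      have h10 : 4 * Real.log 12 ≤ Real.log n := by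
        have : (4 : ℝ) * Real.log 12 = Real.log (12 ^ 4) := by
          rw [Real.log_pow]; norm_num
        rw [this]
        apply Real.log_le_log (by norm_num)
        have : (20736 : ℝ) ≤ n := by exact_mod_cast hn
        calc (12 : ℝ) ^ 4 = 20736 := by norm_num
          _ ≤ n := this
      linarith
    have hlogn : 0 ≤ Real.log n := Real.log_nonneg (by
      have : (20736 : ℝ) ≤ n := by exact_mod_cast hn
      linarith)
    have htot := tot_ge N (by omega)
    have h11 : s / 12 * (Real.log n / 4) ≤ tot N := by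
      refine le_trans ?_ htot
      apply mul_le_mul hN2 hlog (by positivity) (by positivity)
    have h12 : (s / 12 * (Real.log n / 4)) ^ 2 ≤ tot N ^ 2 := by
      apply pow_le_pow_left₀ (by positivity) h11
    refine le_trans (le_of_eq ?_) h12
    rw [← hs2]
    ring
  clear_value N
  subst hn'
  refine ⟨(pits N r hN).poly, hsimple, fun C => ?_⟩
  have := key C
  linarith

/-- The lower bound. -/
theorem f_lower {n : ℕ} (hn : 20736 ≤ n) :
    (n : ℝ) * Real.log n ^ 3 / 18432 ≤ f n := by
  obtain ⟨P, hP, hC⟩ := exists_hard_polygon hn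
  have hne : NeZero n := ⟨by omega⟩
  obtain ⟨C, hCb⟩ := exists_bits_eq_beta (visGraph P)
  have h1 : (beta (visGraph P) : ℝ) ≤ f n := by exact_mod_cast le_f hP
  have h2 := hC C
  have hn0 : (20736 : ℝ) ≤ n := by exact_mod_cast hn
  have hlog0 : 0 ≤ Real.log n := Real.log_nonneg (by linarith)
  have h3 : Real.log n ≤ (Nat.clog 2 n : ℝ) := by
    have h4 : (n : ℝ) ≤ 2 ^ (Nat.clog 2 n) := by
      exact_mod_cast Nat.le_pow_clog (by norm_num) n
    have h5 : Real.log n ≤ Real.log (2 ^ (Nat.clog 2 n)) := Real.log_le_log (by linarith) h4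
    rw [Real.log_pow] at h5
    have h6 : Real.log 2 ≤ 1 := by
      have := Real.log_two_lt_d9
      linarith
    have h7 : (0 : ℝ) ≤ (Nat.clog 2 n : ℝ) := by positivity
    nlinarith
  have h4 : (C.bits : ℝ) = (Nat.clog 2 n : ℝ) * C.size := by
    unfold Covering.bits
    push_cast
    ring
  rw [← hCb, h4] at h1
  refine le_trans ?_ h1
  calc (n : ℝ) * Real.log n ^ 3 / 18432 = Real.log n * ((n : ℝ) * Real.log n ^ 2 / 18432) := by ring
    _ ≤ (Nat.clog 2 n : ℝ) * C.size := by
        apply mul_le_mul h3 h2 (by positivity) (by positivity)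

end Pool.Agent.VisGraph
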