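import Pool.Agent.VisGraph.Defs

/-!
# Polygons made of two facing vertical chains

Geometry of a polygon whose boundary is a left chain and a right chain, both with strictly
increasing heights, joined by a horizontal top edge and a horizontal bottom edge.
-/

namespace Pool.Agent.VisGraph

open Finset

/-- A polygon from a vertex function on the natural numbers. -/
def natPoly (n : ℕ) (V : ℕ → ℂ) : ZMod n → ℂ := fun i => V i.val

lemma natPoly_succ {n : ℕ} [NeZero n] (V : ℕ → ℂ) (i : ZMod n) :
    natPoly n V (i + 1) = V ((i.val + 1) % n) := by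
  unfold natPoly
  rw [ZMod.val_add]
  rcases Nat.lt_or_ge 1 n with h | h
  · have : Fact (1 < n) := ⟨h⟩
    rw [ZMod.val_one]
  · have hn : n = 1 := by
      have := NeZero.ne n
      omega
    subst hn
    simp [Nat.mod_one]

/-- Criterion for a natural-number-indexed closed polygon to be simple. -/
lemma isSimplePolygon_natPoly {n : ℕ} (hn : 3 ≤ n) (V : ℕ → ℂ)
    (hinj : ∀ i < n, ∀ j < n, V i = V j → i = j)
    (hcons : ∀ i < n, segment ℝ (V i) (V ((i + 1) % n)) ∩
      segment ℝ (V ((i + 1) % n)) (V ((i + 2) % n)) ⊆ {V ((i + 1) % n)})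
    (hdisj : ∀ i < n, ∀ j < n, i + 1 < j → ¬ (i = 0 ∧ j = n - 1) →
      segment ℝ (V i) (V (i + 1)) ∩ segment ℝ (V j) (V ((j + 1) % n)) = ∅) :
    IsSimplePolygon (natPoly n V) := by
  have : NeZero n := ⟨by omega⟩
  have : Fact (1 < n) := ⟨by omega⟩
  have hsucc : ∀ i : ZMod n, (i + 1).val = (i.val + 1) % n := by
    intro i
    rw [ZMod.val_add, ZMod.val_one]
  refine ⟨hn, ?_, ?_, ?_⟩
  · intro i j hij
    have := hinj i.val (ZMod.val_lt i) j.val (ZMod.val_lt j) hij
    exact ZMod.val_injective n this
  · intro i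
    have e2 : i + 2 = (i + 1) + 1 := by ring
    have h1 : natPoly n V (i + 1) = V ((i.val + 1) % n) := natPoly_succ V i
    have h2 : natPoly n V (i + 2) = V ((i.val + 2) % n) := by
      rw [e2, natPoly_succ, hsucc]
      congr 1
      rw [Nat.mod_add_mod]
    rw [h1, h2]
    apply Set.Subset.antisymm
    · exact hcons i.val (ZMod.val_lt i)
    · intro z hz
      rw [Set.mem_singleton_iff] at hz
      subst hz
      exact ⟨right_mem_segment ℝ _ _, left_mem_segment ℝ _ _⟩
  · intro i j hji hji1 hij1
    have key : ∀ i j : ZMod n, i.val < j.val → j ≠ i + 1 → i ≠ j + 1 →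
        segment ℝ (natPoly n V i) (natPoly n V (i + 1)) ∩
        segment ℝ (natPoly n V j) (natPoly n V (j + 1)) = ∅ := by
      intro i j hlt h1 h2
      have hi := ZMod.val_lt i
      have hj := ZMod.val_lt j
      rw [natPoly_succ, natPoly_succ]
      have hi1 : (i.val + 1) % n = i.val + 1 := Nat.mod_eq_of_lt (by omega)
      rw [hi1]
      apply hdisj i.val hi j.val hj
      · rcases Nat.lt_or_ge (i.val + 1) j.val with h | h
        · exact h
        · exfalso
          apply h1
          apply ZMod.val_injective n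
          rw [hsucc, hi1]
          omega
      · rintro ⟨h3, h4⟩
        apply h2
        apply ZMod.val_injective n
        rw [hsucc, h3, h4]
        have : n - 1 + 1 = n := by omega
        rw [this, Nat.mod_self]
    rcases Nat.lt_trichotomy i.val j.val with h | h | h
    · exact key i j h hji1 hij1
    · exact absurd (ZMod.val_injective n h).symm hji
    · rw [Set.inter_comm]
      exact key j i h hij1 hji1

/-! ### Segments and heights -/

lemma seg_im_mem {a b z : ℂ} (hab : a.im ≤ b.im) (hz : z ∈ segment ℝ a b) :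
    a.im ≤ z.im ∧ z.im ≤ b.im := by
  obtain ⟨s, t, hs, ht, hst, rfl⟩ := hz
  simp only [Complex.add_im, Complex.real_smul, Complex.mul_im, Complex.ofReal_re,
    Complex.ofReal_im, zero_mul, add_zero]
  obtain rfl : s = 1 - t := by linarith
  constructor <;> nlinarith

lemma seg_re_le {a b z : ℂ} {c : ℝ} (ha : a.re ≤ c) (hb : b.re ≤ c) (hz : z ∈ segment ℝ a b) :
    z.re ≤ c := by
  obtain ⟨s, t, hs, ht, hst, rfl⟩ := hz
  simp only [Complex.add_re, Complex.real_smul, Complex.mul_re, Complex.ofReal_re,
    Complex.ofReal_im, zero_mul, sub_zero]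
  obtain rfl : s = 1 - t := by linarith
  nlinarith

lemma seg_re_ge {a b z : ℂ} {c : ℝ} (ha : c ≤ a.re) (hb : c ≤ b.re) (hz : z ∈ segment ℝ a b) :
    c ≤ z.re := by
  obtain ⟨s, t, hs, ht, hst, rfl⟩ := hz
  simp only [Complex.add_re, Complex.real_smul, Complex.mul_re, Complex.ofReal_re,
    Complex.ofReal_im, zero_mul, sub_zero]
  obtain rfl : s = 1 - t := by linarith
  nlinarith

lemma seg_eq_right {a b z : ℂ} (hab : a.im < b.im) (hz : z ∈ segment ℝ a b) (h : z.im = b.im) :
    z = b := by
  obtain ⟨s, t, hs, ht, hst, rfl⟩ := hz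
  simp only [Complex.add_im, Complex.real_smul, Complex.mul_im, Complex.ofReal_re,
    Complex.ofReal_im, zero_mul, add_zero] at h
  have hs0 : s = 0 := by
    have h1 : s * (b.im - a.im) = 0 := by
      have : t = 1 - s := by linarith
      subst this
      linarith
    rcases mul_eq_zero.mp h1 with h2 | h2
    · exact h2
    · linarith
  have ht1 : t = 1 := by linarith
  subst hs0 ht1
  simp

lemma seg_eq_left {a b z : ℂ} (hab : a.im < b.im) (hz : z ∈ segment ℝ a b) (h : z.im = a.im) :
    z = a := by
  obtain ⟨s, t, hs, ht, hst, rfl⟩ := hz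
  simp only [Complex.add_im, Complex.real_smul, Complex.mul_im, Complex.ofReal_re,
    Complex.ofReal_im, zero_mul, add_zero] at h
  have ht0 : t = 0 := by
    have h1 : t * (b.im - a.im) = 0 := by
      have : s = 1 - t := by linarith
      subst this
      linarith
    rcases mul_eq_zero.mp h1 with h2 | h2
    · exact h2
    · linarith
  have hs1 : s = 1 := by linarith
  subst ht0 hs1
  simp

/-- Description of a non-horizontal segment by its height. -/
lemma mem_seg_iff {a b z : ℂ} (hab : a.im < b.im) :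
    z ∈ segment ℝ a b ↔ a.im ≤ z.im ∧ z.im ≤ b.im ∧
      z.re = a.re + (b.re - a.re) / (b.im - a.im) * (z.im - a.im) := by
  constructor
  · intro hz
    obtain ⟨h1, h2⟩ := seg_im_mem hab.le hz
    refine ⟨h1, h2, ?_⟩
    obtain ⟨s, t, hs, ht, hst, rfl⟩ := hz
    simp only [Complex.add_im, Complex.real_smul, Complex.mul_im, Complex.ofReal_re,
      Complex.ofReal_im, zero_mul, add_zero, Complex.add_re, Complex.mul_re, sub_zero]
    have : s = 1 - t := by linarith
    subst this
    have hne : b.im - a.im ≠ 0 := by linarith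
    field_simp
    ring
  · rintro ⟨h1, h2, h3⟩
    have hpos : 0 < b.im - a.im := by linarith
    refine ⟨1 - (z.im - a.im) / (b.im - a.im), (z.im - a.im) / (b.im - a.im), ?_, ?_, by ring, ?_⟩
    · rw [sub_nonneg, div_le_one hpos]
      linarith
    · apply div_nonneg <;> linarith
    · apply Complex.ext
      · simp only [Complex.add_re, Complex.real_smul, Complex.mul_re, Complex.ofReal_re,
          Complex.ofReal_im, zero_mul, sub_zero]
        rw [h3]
        field_simp
        ring
      · simp only [Complex.add_im, Complex.real_smul, Complex.mul_im, Complex.ofReal_re,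
          Complex.ofReal_im, zero_mul, add_zero]
        field_simp
        ring

/-! ### Piecewise linear interpolation -/

/-- The piecewise linear function through the points `(y k, x k)`, `k = 0, …, p`. -/
noncomputable def interp (p : ℕ) (x y : ℕ → ℝ) (t : ℝ) : ℝ :=
  x 0 + ∑ k ∈ range p, (x (k + 1) - x k) / (y (k + 1) - y k) *
    min (max (t - y k) 0) (y (k + 1) - y k)

lemma continuous_interp (p : ℕ) (x y : ℕ → ℝ) : Continuous (interp p x y) := by
  unfold interp
  fun_prop

lemma mono_of_step {p : ℕ} {y : ℕ → ℝ} (hy : ∀ k < p, y k < y (k + 1)) {i j : ℕ}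
    (hij : i ≤ j) (hj : j ≤ p) : y i ≤ y j := by
  induction j, hij using Nat.le_induction with
  | base => exact le_rfl
  | succ j hij ih => exact le_trans (ih (by omega)) (hy j (by omega)).le

lemma interp_eq {p : ℕ} {x y : ℕ → ℝ} (hy : ∀ k < p, y k < y (k + 1)) {k : ℕ} (hk : k < p)
    {t : ℝ} (h1 : y k ≤ t) (h2 : t ≤ y (k + 1)) :
    interp p x y t = x k + (x (k + 1) - x k) / (y (k + 1) - y k) * (t - y k) := by
  unfold interp
  have hp : p = k + 1 + (p - (k + 1)) := by omega
  rw [hp, Finset.sum_range_add, Finset.sum_range_succ]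
  have e1 : ∑ j ∈ range k, (x (j + 1) - x j) / (y (j + 1) - y j) *
      min (max (t - y j) 0) (y (j + 1) - y j) = x k - x 0 := by
    rw [← Finset.sum_range_sub x k]
    apply Finset.sum_congr rfl
    intro j hj
    simp only [mem_range] at hj
    have h3 : y (j + 1) ≤ y k := mono_of_step hy (by omega) (by omega)
    have h4 : y j < y (j + 1) := hy j (by omega)
    have h5 : min (max (t - y j) 0) (y (j + 1) - y j) = y (j + 1) - y j := by
      rw [max_eq_left (by linarith)]
      exact min_eq_right (by linarith)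
    rw [h5, div_mul_cancel₀ _ (by linarith)]
  have e2 : ∑ j ∈ range (p - (k + 1)), (x (k + 1 + j + 1) - x (k + 1 + j)) /
      (y (k + 1 + j + 1) - y (k + 1 + j)) *
      min (max (t - y (k + 1 + j)) 0) (y (k + 1 + j + 1) - y (k + 1 + j)) = 0 := by
    apply Finset.sum_eq_zero
    intro j hj
    simp only [mem_range] at hj
    have h3 : y (k + 1) ≤ y (k + 1 + j) := mono_of_step hy (by omega) (by omega)
    have h4 : y (k + 1 + j) < y (k + 1 + j + 1) := hy _ (by omega)
    rw [max_eq_right (by linarith), min_eq_left (by linarith), mul_zero]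
  have e3 : min (max (t - y k) 0) (y (k + 1) - y k) = t - y k := by
    rw [max_eq_left (by linarith)]
    exact min_eq_left (by linarith)
  rw [e1, e2, e3]
  ring

lemma exists_slab {p : ℕ} {y : ℕ → ℝ} (hp : 0 < p) {t : ℝ} (h1 : y 0 ≤ t) (h2 : t ≤ y p) :
    ∃ k < p, y k ≤ t ∧ t ≤ y (k + 1) := by
  induction p with
  | zero => omega
  | succ p ih =>
    rcases Nat.eq_zero_or_pos p with h | h
    · subst h
      exact ⟨0, by omega, h1, h2⟩
    · rcases le_total t (y p) with h3 | h3
      · obtain ⟨k, hk, h4⟩ := ih h h3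
        exact ⟨k, by omega, h4⟩
      · exact ⟨p, by omega, h3, h2⟩

lemma interp_le {p : ℕ} {x y : ℕ → ℝ} (hy : ∀ k < p, y k < y (k + 1)) (hp : 0 < p) {c : ℝ}
    (hx : ∀ k ≤ p, x k ≤ c) {t : ℝ} (h1 : y 0 ≤ t) (h2 : t ≤ y p) : interp p x y t ≤ c := by
  obtain ⟨k, hk, h3, h4⟩ := exists_slab hp h1 h2
  rw [interp_eq hy hk h3 h4]
  have hxk := hx k hk.le
  have hxk1 := hx (k + 1) hk
  have hpos : 0 < y (k + 1) - y k := by linarith [hy k hk]
  have e : x k + (x (k + 1) - x k) / (y (k + 1) - y k) * (t - y k) =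
      (x k * (y (k + 1) - t) + x (k + 1) * (t - y k)) / (y (k + 1) - y k) := by
    field_simp
    ring
  rw [e, div_le_iff₀ hpos]
  nlinarith

lemma le_interp {p : ℕ} {x y : ℕ → ℝ} (hy : ∀ k < p, y k < y (k + 1)) (hp : 0 < p) {c : ℝ}
    (hx : ∀ k ≤ p, c ≤ x k) {t : ℝ} (h1 : y 0 ≤ t) (h2 : t ≤ y p) : c ≤ interp p x y t := by
  obtain ⟨k, hk, h3, h4⟩ := exists_slab hp h1 h2
  rw [interp_eq hy hk h3 h4]
  have hxk := hx k hk.le
  have hxk1 := hx (k + 1) hk
  have hpos : 0 < y (k + 1) - y k := by linarith [hy k hk]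
  have e : x k + (x (k + 1) - x k) / (y (k + 1) - y k) * (t - y k) =
      (x k * (y (k + 1) - t) + x (k + 1) * (t - y k)) / (y (k + 1) - y k) := by
    field_simp
    ring
  rw [e, le_div_iff₀ hpos]
  nlinarith

end Pool.Agent.VisGraph
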