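import Pool.Agent.VisGraph.Schur

/-!
# Total weight, and the lower bound for covering sets of a graph containing strict dominance
-/

namespace Pool.Agent.VisGraph

open Finset

/-- The one-dimensional total weight. -/
noncomputable def tot (N : ℕ) : ℝ :=
  ∑ x ∈ range N, ∑ y ∈ range N, if x < y then 1 / ((y : ℝ) - x) else 0

lemma total_weight (N : ℕ) :
    ∑ a ∈ range N ×ˢ range N, ∑ b ∈ range N ×ˢ range N,
      (if a.1 < b.1 ∧ a.2 < b.2 then wt a b else 0) = tot N ^ 2 := by
  have e : ∀ a b : ℕ × ℕ, (if a.1 < b.1 ∧ a.2 < b.2 then wt a b else 0) =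
      (if a.1 < b.1 then 1 / ((b.1 : ℝ) - a.1) else 0) *
      (if a.2 < b.2 then 1 / ((b.2 : ℝ) - a.2) else 0) := by
    intro a b
    by_cases h1 : a.1 < b.1 <;> by_cases h2 : a.2 < b.2 <;> simp [h1, h2, wt, mul_comm]
  simp_rw [e]
  rw [Finset.sum_product]
  simp_rw [Finset.sum_product]
  unfold tot
  rw [sq, Finset.sum_mul_sum]
  apply Finset.sum_congr rfl
  intro x _
  apply Finset.sum_congr rfl
  intro x' _
  rw [Finset.sum_mul_sum]

lemma row_harmonic (N x : ℕ) (hx : x < N) :
    ∑ y ∈ range N, (if x < y then 1 / ((y : ℝ) - x) else 0) = (harmonic (N - 1 - x) : ℝ) := by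
  rw [← Finset.sum_filter]
  unfold harmonic
  push_cast
  apply Finset.sum_nbij' (fun y => y - x - 1) (fun k => k + x + 1)
  · intro y hy
    simp only [mem_filter, mem_range] at hy ⊢
    omega
  · intro k hk
    simp only [mem_filter, mem_range] at hk ⊢
    omega
  · intro y hy
    simp only [mem_filter, mem_range] at hy
    omega
  · intro k hk
    omega
  · intro y hy
    simp only [mem_filter, mem_range] at hy
    have : ((y - x - 1 : ℕ) : ℝ) + 1 = (y : ℝ) - x := by
      have h1 : (y - x - 1) + 1 + x = y := by omega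
      have h2 : (((y - x - 1) + 1 + x : ℕ) : ℝ) = y := by rw [h1]
      push_cast at h2
      linarith
    rw [this, one_div]

lemma tot_ge (N : ℕ) (hN : 2 ≤ N) : ((N / 2 : ℕ) : ℝ) * Real.log ((N : ℝ) / 2) ≤ tot N := by
  unfold tot
  have h1 : ∀ x ∈ range N, (0 : ℝ) ≤ ∑ y ∈ range N, (if x < y then 1 / ((y : ℝ) - x) else 0) := by
    intro x _
    apply Finset.sum_nonneg
    intro y _
    split_ifs with h
    · have : (x : ℝ) < y := by exact_mod_cast h
      have h2 : 0 < (y : ℝ) - x := by linarith
      positivity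
    · exact le_rfl
  have hsub : range (N / 2) ⊆ range N := by
    intro x; simp only [mem_range]; omega
  refine le_trans ?_ (Finset.sum_le_sum_of_subset_of_nonneg hsub (fun x hx _ => h1 x hx))
  have h2 : ∀ x ∈ range (N / 2), Real.log ((N : ℝ) / 2) ≤
      ∑ y ∈ range N, (if x < y then 1 / ((y : ℝ) - x) else 0) := by
    intro x hx
    simp only [mem_range] at hx
    rw [row_harmonic N x (by omega)]
    refine le_trans ?_ (log_add_one_le_harmonic _)
    apply Real.log_le_log (by positivity)
    have h3 : N ≤ 2 * ((N - 1 - x) + 1) := by omega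
    have h4 : (N : ℝ) ≤ 2 * (((N - 1 - x : ℕ) : ℝ) + 1) := by exact_mod_cast h3
    rw [Nat.cast_add_one]
    linarith
  calc ((N / 2 : ℕ) : ℝ) * Real.log ((N : ℝ) / 2) = ∑ x ∈ range (N / 2), Real.log ((N : ℝ) / 2) := by
        simp
    _ ≤ _ := Finset.sum_le_sum h2

section Cover

variable {V : Type*} [DecidableEq V] {G : SimpleGraph V}

/-- Grid points mapped into `S` by `u`. -/
noncomputable def pre (N : ℕ) (u : ℕ × ℕ → V) (S : Finset V) : Finset (ℕ × ℕ) :=
  (range N ×ˢ range N).filter fun a => u a ∈ S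

lemma pre_card_add (N : ℕ) (u v : ℕ × ℕ → V) (S : Finset V)
    (hu : Set.InjOn u (range N ×ˢ range N : Finset (ℕ × ℕ)))
    (hv : Set.InjOn v (range N ×ˢ range N : Finset (ℕ × ℕ)))
    (huv : ∀ a ∈ range N ×ˢ range N, ∀ b ∈ range N ×ˢ range N, u a ≠ v b) :
    (pre N u S).card + (pre N v S).card ≤ S.card := by
  have h1 : (pre N u S).card = ((pre N u S).image u).card := by
    rw [Finset.card_image_of_injOn]
    intro a ha b hb hab
    apply hu _ _ hab
    · exact Finset.mem_coe.mpr (Finset.mem_filter.mp ha).1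
    · exact Finset.mem_coe.mpr (Finset.mem_filter.mp hb).1
  have h2 : (pre N v S).card = ((pre N v S).image v).card := by
    rw [Finset.card_image_of_injOn]
    intro a ha b hb hab
    apply hv _ _ hab
    · exact Finset.mem_coe.mpr (Finset.mem_filter.mp ha).1
    · exact Finset.mem_coe.mpr (Finset.mem_filter.mp hb).1
  rw [h1, h2, ← Finset.card_union_of_disjoint]
  · apply Finset.card_le_card
    intro x hx
    rcases Finset.mem_union.mp hx with hx | hx
    · obtain ⟨a, ha, rfl⟩ := Finset.mem_image.mp hx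
      exact (Finset.mem_filter.mp ha).2
    · obtain ⟨a, ha, rfl⟩ := Finset.mem_image.mp hx
      exact (Finset.mem_filter.mp ha).2
  · rw [Finset.disjoint_left]
    intro x hx hx'
    obtain ⟨a, ha, rfl⟩ := Finset.mem_image.mp hx
    obtain ⟨b, hb, hab⟩ := Finset.mem_image.mp hx'
    exact huv a (Finset.mem_filter.mp ha).1 b (Finset.mem_filter.mp hb).1 hab.symm

/-- If the bipartite part of `G` between the images of `u` and `v` is the strict dominance
relation on an `N × N` grid, then every covering set of `G` is large. -/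
theorem cover_size_lower (N : ℕ) (u v : ℕ × ℕ → V)
    (hu : Set.InjOn u (range N ×ˢ range N : Finset (ℕ × ℕ)))
    (hv : Set.InjOn v (range N ×ˢ range N : Finset (ℕ × ℕ)))
    (huv : ∀ a ∈ range N ×ˢ range N, ∀ b ∈ range N ×ˢ range N, u a ≠ v b)
    (hadj : ∀ a ∈ range N ×ˢ range N, ∀ b ∈ range N ×ˢ range N,
      (G.Adj (u a) (v b) ↔ a.1 < b.1 ∧ a.2 < b.2))
    (C : Covering G) : tot N ^ 2 ≤ 8 * (C.size : ℝ) := by
  classical
  set R := range N ×ˢ range N with hR
  rw [← total_weight]
  -- weight of a pair counted in a rectangle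
  set cW : Finset V → ℝ := fun S =>
    ∑ a ∈ R, ∑ b ∈ R, if (u a ∈ S ∧ v b ∈ S) then |wt a b| else 0 with hcW
  set bW : Finset V × Finset V → ℝ := fun B =>
    ∑ a ∈ R, ∑ b ∈ R, (if (u a ∈ B.1 ∧ v b ∈ B.2) then |wt a b| else 0) +
    ∑ a ∈ R, ∑ b ∈ R, (if (u a ∈ B.2 ∧ v b ∈ B.1) then |wt a b| else 0) with hbW
  -- bound of a rectangle
  have rect : ∀ X Y : Finset V, (∀ a ∈ R, ∀ b ∈ R, u a ∈ X → v b ∈ Y → a.1 < b.1 ∧ a.2 < b.2) →
      (∑ a ∈ R, ∑ b ∈ R, if (u a ∈ X ∧ v b ∈ Y) then |wt a b| else 0) ≤
      8 * ((pre N u X).card + (pre N v Y).card) := by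
    intro X Y hXY
    have h1 := rect_weight (pre N u X) (pre N v Y) (by
      intro a ha b hb
      have ha' := Finset.mem_filter.mp ha
      have hb' := Finset.mem_filter.mp hb
      exact hXY a ha'.1 b hb'.1 ha'.2 hb'.2)
    refine le_trans (le_of_eq ?_) h1
    unfold pre
    rw [Finset.sum_filter]
    apply Finset.sum_congr rfl
    intro a ha
    rw [Finset.sum_filter]
    by_cases hX : u a ∈ X
    · rw [if_pos hX]
      apply Finset.sum_congr rfl
      intro b hb
      by_cases hY : v b ∈ Y
      · rw [if_pos ⟨hX, hY⟩, if_pos hY]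
        obtain ⟨l1, l2⟩ := hXY a ha b hb hX hY
        apply abs_of_nonneg
        unfold wt
        have l1' : (a.1 : ℝ) < b.1 := by exact_mod_cast l1
        have l2' : (a.2 : ℝ) < b.2 := by exact_mod_cast l2
        have : 0 < (b.1 : ℝ) - a.1 := by linarith
        have : 0 < (b.2 : ℝ) - a.2 := by linarith
        positivity
      · rw [if_neg (fun h => hY h.2), if_neg hY]
    · rw [if_neg hX]
      apply Finset.sum_eq_zero
      intro b _
      rw [if_neg (fun h => hX h.1)]
  have hcle : ∀ S ∈ C.cliques, cW S ≤ 8 * S.card := by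
    intro S hS
    have h1 := rect S S (by
      intro a ha b hb haS hbS
      rw [← hadj a ha b hb]
      exact C.clique_adj S hS _ haS _ hbS (huv a ha b hb))
    have h2 := pre_card_add N u v S hu hv huv
    have h3 : ((pre N u S).card : ℝ) + (pre N v S).card ≤ S.card := by exact_mod_cast h2
    calc cW S ≤ 8 * ((pre N u S).card + (pre N v S).card) := h1
      _ ≤ 8 * S.card := by linarith
  have hble : ∀ B ∈ C.bicliques, bW B ≤ 8 * ((B.1.card + B.2.card : ℕ) : ℝ) := by
    intro B hB
    obtain ⟨_, _, _, hB4⟩ := C.biclique_adj B hB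
    have h1 := rect B.1 B.2 (by
      intro a ha b hb haS hbS
      rw [← hadj a ha b hb]
      exact hB4 _ haS _ hbS)
    have h2 := rect B.2 B.1 (by
      intro a ha b hb haS hbS
      rw [← hadj a ha b hb]
      exact (hB4 _ hbS _ haS).symm)
    have h3 := pre_card_add N u v B.1 hu hv huv
    have h4 := pre_card_add N u v B.2 hu hv huv
    have h5 : ((pre N u B.1).card : ℝ) + (pre N v B.1).card ≤ B.1.card := by exact_mod_cast h3
    have h6 : ((pre N u B.2).card : ℝ) + (pre N v B.2).card ≤ B.2.card := by exact_mod_cast h4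
    push_cast
    calc bW B ≤ 8 * ((pre N u B.1).card + (pre N v B.2).card) +
        8 * ((pre N u B.2).card + (pre N v B.1).card) := add_le_add h1 h2
      _ ≤ _ := by linarith
  -- each dominance pair is covered
  have hcov : ∑ a ∈ R, ∑ b ∈ R, (if a.1 < b.1 ∧ a.2 < b.2 then wt a b else 0) ≤
      (C.cliques.map cW).sum + (C.bicliques.map bW).sum := by
    have e1 : (C.cliques.map cW).sum = ∑ a ∈ R, ∑ b ∈ R,
        (C.cliques.map fun S => if (u a ∈ S ∧ v b ∈ S) then |wt a b| else 0).sum := by
      simp only [hcW]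
      change (C.cliques.map fun S => (R.val.map fun a => ∑ b ∈ R, _).sum).sum = _
      rw [Multiset.sum_map_sum_map]
      apply Finset.sum_congr rfl
      intro a _
      change (C.cliques.map fun S => (R.val.map fun b => _).sum).sum = _
      rw [Multiset.sum_map_sum_map]
      rfl
    have e2 : (C.bicliques.map bW).sum = ∑ a ∈ R, ∑ b ∈ R,
        (C.bicliques.map fun B => (if (u a ∈ B.1 ∧ v b ∈ B.2) then |wt a b| else 0) +
          (if (u a ∈ B.2 ∧ v b ∈ B.1) then |wt a b| else 0)).sum := by
      simp only [hbW]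
      have : (fun B : Finset V × Finset V => ∑ a ∈ R, ∑ b ∈ R, (if (u a ∈ B.1 ∧ v b ∈ B.2) then |wt a b| else 0) +
          ∑ a ∈ R, ∑ b ∈ R, (if (u a ∈ B.2 ∧ v b ∈ B.1) then |wt a b| else 0)) =
          (fun B : Finset V × Finset V => ∑ a ∈ R, ∑ b ∈ R, ((if (u a ∈ B.1 ∧ v b ∈ B.2) then |wt a b| else 0) +
          (if (u a ∈ B.2 ∧ v b ∈ B.1) then |wt a b| else 0))) := by
        funext B
        rw [← Finset.sum_add_distrib]
        apply Finset.sum_congr rfl
        intro a _
        rw [← Finset.sum_add_distrib]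
      rw [this]
      change (C.bicliques.map fun S => (R.val.map fun a => ∑ b ∈ R, _).sum).sum = _
      rw [Multiset.sum_map_sum_map]
      apply Finset.sum_congr rfl
      intro a _
      change (C.bicliques.map fun S => (R.val.map fun b => _).sum).sum = _
      rw [Multiset.sum_map_sum_map]
      rfl
    rw [e1, e2, ← Finset.sum_add_distrib]
    apply Finset.sum_le_sum
    intro a ha
    rw [← Finset.sum_add_distrib]
    apply Finset.sum_le_sum
    intro b hb
    have hn1 : 0 ≤ (C.cliques.map fun S => if (u a ∈ S ∧ v b ∈ S) then |wt a b| else 0).sum := by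
      apply Multiset.sum_nonneg
      intro x hx
      obtain ⟨S, _, rfl⟩ := Multiset.mem_map.mp hx
      split_ifs <;> positivity
    have hn2 : 0 ≤ (C.bicliques.map fun B => (if (u a ∈ B.1 ∧ v b ∈ B.2) then |wt a b| else 0) +
          (if (u a ∈ B.2 ∧ v b ∈ B.1) then |wt a b| else 0)).sum := by
      apply Multiset.sum_nonneg
      intro x hx
      obtain ⟨S, _, rfl⟩ := Multiset.mem_map.mp hx
      split_ifs <;> positivity
    split_ifs with h
    · have hG := (hadj a ha b hb).mpr h
      rcases C.covers _ _ hG with ⟨S, hS, h1, h2⟩ | ⟨B, hB, h12⟩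
      · have : |wt a b| ≤ (C.cliques.map fun S => if (u a ∈ S ∧ v b ∈ S) then |wt a b| else 0).sum := by
          have := Multiset.single_le_sum (s := C.cliques.map fun S => if (u a ∈ S ∧ v b ∈ S) then |wt a b| else 0)
            (by
              intro x hx
              obtain ⟨S, _, rfl⟩ := Multiset.mem_map.mp hx
              split_ifs <;> positivity) _ (Multiset.mem_map_of_mem _ hS)
          rwa [if_pos ⟨h1, h2⟩] at this
        have h5 := le_abs_self (wt a b)
        linarith
      · have h6 := Multiset.single_le_sum (s := C.bicliques.map fun B => (if (u a ∈ B.1 ∧ v b ∈ B.2) then |wt a b| else 0) +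
          (if (u a ∈ B.2 ∧ v b ∈ B.1) then |wt a b| else 0))
            (by
              intro x hx
              obtain ⟨S, _, rfl⟩ := Multiset.mem_map.mp hx
              split_ifs <;> positivity) _ (Multiset.mem_map_of_mem _ hB)
        have h5 := le_abs_self (wt a b)
        have h7 : |wt a b| ≤ (if (u a ∈ B.1 ∧ v b ∈ B.2) then |wt a b| else 0) +
          (if (u a ∈ B.2 ∧ v b ∈ B.1) then |wt a b| else 0) := by
          have h0 := abs_nonneg (wt a b)
          rcases h12 with h12 | h12
          · rw [if_pos h12]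
            split_ifs <;> linarith
          · rw [if_pos h12]
            split_ifs <;> linarith
        linarith
    · linarith
  have s1 : (C.cliques.map cW).sum ≤ 8 * ((C.cliques.map fun S => S.card).sum : ℕ) := by
    have : (C.cliques.map cW).sum ≤ (C.cliques.map fun S => 8 * (S.card : ℝ)).sum :=
      Multiset.sum_map_le_sum_map _ _ hcle
    refine le_trans this (le_of_eq ?_)
    rw [Multiset.sum_map_mul_left]
    push_cast
    rw [Multiset.map_map]
    rfl
  have s2 : (C.bicliques.map bW).sum ≤ 8 * ((C.bicliques.map fun B => B.1.card + B.2.card).sum : ℕ) := by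
    have : (C.bicliques.map bW).sum ≤ (C.bicliques.map fun B => 8 * ((B.1.card + B.2.card : ℕ) : ℝ)).sum :=
      Multiset.sum_map_le_sum_map _ _ hble
    refine le_trans this (le_of_eq ?_)
    rw [Multiset.sum_map_mul_left]
    rw [Nat.cast_multiset_sum, Multiset.map_map]
    rfl
  calc _ ≤ _ := hcov
    _ ≤ 8 * ((C.cliques.map fun S => S.card).sum : ℕ) +
        8 * ((C.bicliques.map fun B => B.1.card + B.2.card).sum : ℕ) := add_le_add s1 s2
    _ = 8 * (C.size : ℝ) := by
        unfold Covering.size
        push_cast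
        ring

end Cover

end Pool.Agent.VisGraph
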