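import Pool.Agent.VisGraph.Chains
import Pool.Agent.VisGraph.Weight

/-!
# The polygon with pits realising strict dominance
-/

namespace Pool.Agent.VisGraph

open Finset

section Params

variable (N : ℕ)

/-- the scale -/
noncomputable def lam : ℝ := 16 * ((N * N : ℕ) : ℝ)

/-- depth of the lower lip of the left pit `a` -/
noncomputable def dl (a : ℕ) : ℝ :=
  (((N * N : ℕ) : ℝ) + a - ((((a % N + 1) * N : ℕ) : ℝ) - 1 / 2)) / lam N

/-- height of the upper lip of the right pit `b` -/
noncomputable def dr (b : ℕ) : ℝ :=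
  (((N * N : ℕ) : ℝ) + ((b % N * N : ℕ) : ℝ) - 1 / 2 - b) / lam N

variable {N}

lemma lam_pos (hN : 0 < N) : 0 < lam N := by
  unfold lam
  have : 0 < N * N := Nat.mul_pos hN hN
  have : (0 : ℝ) < ((N * N : ℕ) : ℝ) := by exact_mod_cast this
  linarith

lemma mod_mul_le (hN : 0 < N) (a : ℕ) : (a % N + 1) * N ≤ N * N := by
  apply Nat.mul_le_mul_right
  exact Nat.mod_lt a hN

lemma dl_pos (hN : 0 < N) (a : ℕ) : 0 < dl N a := by
  unfold dl
  apply div_pos _ (lam_pos hN)
  have h := mod_mul_le hN a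
  have h' : (((a % N + 1) * N : ℕ) : ℝ) ≤ ((N * N : ℕ) : ℝ) := by exact_mod_cast h
  have : (0 : ℝ) ≤ a := by positivity
  linarith

lemma dl_lt (hN : 0 < N) {a : ℕ} (ha : a < N * N) : dl N a < 1 / 4 := by
  unfold dl
  rw [div_lt_iff₀ (lam_pos hN)]
  unfold lam
  have h1 : (a : ℝ) + 1 ≤ ((N * N : ℕ) : ℝ) := by exact_mod_cast ha
  have h2 : (0 : ℝ) ≤ (((a % N + 1) * N : ℕ) : ℝ) := by positivity
  have h3 : (0 : ℝ) < ((N * N : ℕ) : ℝ) := by exact_mod_cast (Nat.mul_pos hN hN)
  linarith

lemma dr_pos (hN : 0 < N) {b : ℕ} (hb : b < N * N) : 0 < dr N b := by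
  unfold dr
  apply div_pos _ (lam_pos hN)
  have h1 : (b : ℝ) + 1 ≤ ((N * N : ℕ) : ℝ) := by exact_mod_cast hb
  have h2 : (0 : ℝ) ≤ ((b % N * N : ℕ) : ℝ) := by positivity
  linarith

lemma dr_lt (hN : 0 < N) (b : ℕ) : dr N b < 1 / 4 := by
  unfold dr
  rw [div_lt_iff₀ (lam_pos hN)]
  unfold lam
  have h := mod_mul_le hN b
  have h' : ((b % N * N : ℕ) : ℝ) ≤ ((N * N : ℕ) : ℝ) := by
    have : b % N * N ≤ N * N := le_trans (Nat.mul_le_mul_right _ (by omega)) h
    exact_mod_cast this
  have h2 : (0 : ℝ) ≤ (b : ℝ) := by positivity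
  have h3 : (0 : ℝ) < ((N * N : ℕ) : ℝ) := by exact_mod_cast (Nat.mul_pos hN hN)
  linarith

end Params

/-- heights of the left chain -/
noncomputable def yL (N r k : ℕ) : ℝ :=
  if k ≤ r then (k : ℝ) - r - 1
  else if k - r - 1 < 3 * (N * N) then
    (if (k - r - 1) % 3 = 0 then ((N * N : ℕ) : ℝ) + ((k - r - 1) / 3 : ℕ) - dl N ((k - r - 1) / 3)
     else if (k - r - 1) % 3 = 1 then ((N * N : ℕ) : ℝ) + ((k - r - 1) / 3 : ℕ)
     else ((N * N : ℕ) : ℝ) + ((k - r - 1) / 3 : ℕ) + 1 / 4)
  else 2 * ((N * N : ℕ) : ℝ) + 1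

/-- abscissae of the left chain -/
noncomputable def xL (N r k : ℕ) : ℝ :=
  if k ≤ r then -((k % 2 : ℕ) : ℝ)
  else if k - r - 1 < 3 * (N * N) ∧ (k - r - 1) % 3 = 1 then -1 else 0

/-- heights of the right chain -/
noncomputable def yR (N r k : ℕ) : ℝ :=
  if k = 0 then -(r : ℝ) - 1
  else if k - 1 < 3 * (N * N) then
    (if (k - 1) % 3 = 0 then (((k - 1) / 3 : ℕ) : ℝ) - 1 / 4
     else if (k - 1) % 3 = 1 then (((k - 1) / 3 : ℕ) : ℝ)
     else (((k - 1) / 3 : ℕ) : ℝ) + dr N ((k - 1) / 3))
  else 2 * ((N * N : ℕ) : ℝ) + 1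

/-- abscissae of the right chain -/
noncomputable def xR (N k : ℕ) : ℝ :=
  if k ≠ 0 ∧ k - 1 < 3 * (N * N) ∧ (k - 1) % 3 = 1 then lam N - 1 else lam N - 2

lemma yL_pad {N r k : ℕ} (h : k ≤ r) : yL N r k = (k : ℝ) - r - 1 := by
  unfold yL; rw [if_pos h]

lemma yL_top {N r k : ℕ} (h : r + 1 + 3 * (N * N) ≤ k) : yL N r k = 2 * ((N * N : ℕ) : ℝ) + 1 := by
  unfold yL; rw [if_neg (by omega), if_neg (by omega)]

lemma yL_low {N r a : ℕ} (h : a < N * N) :
    yL N r (r + 1 + 3 * a) = ((N * N : ℕ) : ℝ) + a - dl N a := by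
  have e : r + 1 + 3 * a - r - 1 = 3 * a := by omega
  have e2 : 3 * a / 3 = a := by omega
  unfold yL; rw [if_neg (by omega), e, if_pos (by omega), if_pos (by omega), e2]

lemma yL_apex {N r a : ℕ} (h : a < N * N) :
    yL N r (r + 1 + 3 * a + 1) = ((N * N : ℕ) : ℝ) + a := by
  have e : r + 1 + 3 * a + 1 - r - 1 = 3 * a + 1 := by omega
  have e2 : (3 * a + 1) / 3 = a := by omega
  unfold yL; rw [if_neg (by omega), e, if_pos (by omega), if_neg (by omega), if_pos (by omega), e2]

lemma yL_up {N r a : ℕ} (h : a < N * N) :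
    yL N r (r + 1 + 3 * a + 2) = ((N * N : ℕ) : ℝ) + a + 1 / 4 := by
  have e : r + 1 + 3 * a + 2 - r - 1 = 3 * a + 2 := by omega
  have e2 : (3 * a + 2) / 3 = a := by omega
  unfold yL; rw [if_neg (by omega), e, if_pos (by omega), if_neg (by omega), if_neg (by omega), e2]

lemma xL_low {N r a : ℕ} : xL N r (r + 1 + 3 * a) = 0 := by
  have e : r + 1 + 3 * a - r - 1 = 3 * a := by omega
  unfold xL; rw [if_neg (by omega), e, if_neg (by omega)]

lemma xL_apex {N r a : ℕ} (h : a < N * N) : xL N r (r + 1 + 3 * a + 1) = -1 := by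
  have e : r + 1 + 3 * a + 1 - r - 1 = 3 * a + 1 := by omega
  unfold xL; rw [if_neg (by omega), e, if_pos (by omega)]

lemma xL_le {N r k : ℕ} : xL N r k ≤ 0 := by
  unfold xL
  split_ifs
  · have : (0 : ℝ) ≤ ((k % 2 : ℕ) : ℝ) := by positivity
    linarith
  · norm_num
  · exact le_rfl

lemma yR_top {N r k : ℕ} (h : 1 + 3 * (N * N) ≤ k) : yR N r k = 2 * ((N * N : ℕ) : ℝ) + 1 := by
  unfold yR; rw [if_neg (by omega), if_neg (by omega)]

lemma yR_low {N r b : ℕ} (h : b < N * N) : yR N r (1 + 3 * b) = (b : ℝ) - 1 / 4 := by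
  have e : 1 + 3 * b - 1 = 3 * b := by omega
  have e2 : 3 * b / 3 = b := by omega
  unfold yR; rw [if_neg (by omega), e, if_pos (by omega), if_pos (by omega), e2]

lemma yR_apex {N r b : ℕ} (h : b < N * N) : yR N r (1 + 3 * b + 1) = (b : ℝ) := by
  have e : 1 + 3 * b + 1 - 1 = 3 * b + 1 := by omega
  have e2 : (3 * b + 1) / 3 = b := by omega
  unfold yR; rw [if_neg (by omega), e, if_pos (by omega), if_neg (by omega), if_pos (by omega), e2]

lemma yR_up {N r b : ℕ} (h : b < N * N) : yR N r (1 + 3 * b + 2) = (b : ℝ) + dr N b := by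
  have e : 1 + 3 * b + 2 - 1 = 3 * b + 2 := by omega
  have e2 : (3 * b + 2) / 3 = b := by omega
  unfold yR; rw [if_neg (by omega), e, if_pos (by omega), if_neg (by omega), if_neg (by omega), e2]

lemma xR_up {N b : ℕ} : xR N (1 + 3 * b + 2) = lam N - 2 := by
  have e : 1 + 3 * b + 2 - 1 = 3 * b + 2 := by omega
  unfold xR; rw [e, if_neg (by omega)]

lemma xR_apex {N b : ℕ} (h : b < N * N) : xR N (1 + 3 * b + 1) = lam N - 1 := by
  have e : 1 + 3 * b + 1 - 1 = 3 * b + 1 := by omega
  unfold xR; rw [e, if_pos (by omega)]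

lemma xR_ge {N k : ℕ} : lam N - 2 ≤ xR N k := by
  unfold xR; split_ifs <;> linarith

lemma yL_step {N r : ℕ} (hN : 0 < N) (k : ℕ) (hk : k < r + 1 + 3 * (N * N)) :
    yL N r k < yL N r (k + 1) := by
  have hM : 0 < N * N := Nat.mul_pos hN hN
  have hM' : (1 : ℝ) ≤ ((N * N : ℕ) : ℝ) := by exact_mod_cast hM
  rcases Nat.lt_or_ge k (r + 1) with h | h
  · rw [yL_pad (by omega)]
    rcases Nat.lt_or_ge k r with h2 | h2
    · rw [yL_pad (by omega)]
      push_cast
      linarith
    · have hkr : k = r := by omega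
      subst hkr
      have := yL_low (N := N) (r := k) (a := 0) hM
      rw [mul_zero, add_zero] at this
      rw [this]
      have := dl_lt hN hM
      push_cast at *
      linarith
  · obtain ⟨a, c, hc, hkac⟩ : ∃ a c, c < 3 ∧ k = r + 1 + 3 * a + c :=
      ⟨(k - r - 1) / 3, (k - r - 1) % 3, by omega, by omega⟩
    have ha : a < N * N := by omega
    have hda := dl_pos hN a
    have hda2 := dl_lt hN ha
    have ha' : (a : ℝ) + 1 ≤ ((N * N : ℕ) : ℝ) := by exact_mod_cast ha
    interval_cases c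
    · rw [hkac, add_zero, yL_low ha, yL_apex ha]
      linarith
    · rw [hkac, yL_apex ha]
      have := yL_up (r := r) ha
      rw [show r + 1 + 3 * a + 1 + 1 = r + 1 + 3 * a + 2 by ring, this]
      linarith
    · rw [hkac, yL_up ha]
      rcases Nat.lt_or_ge (a + 1) (N * N) with h3 | h3
      · have := yL_low (r := r) h3
        rw [show r + 1 + 3 * a + 2 + 1 = r + 1 + 3 * (a + 1) by ring, this]
        have := dl_lt hN h3
        push_cast at *
        linarith
      · rw [yL_top (by omega)]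
        linarith

lemma yR_step {N r : ℕ} (hN : 0 < N) (k : ℕ) (hk : k < 1 + 3 * (N * N)) :
    yR N r k < yR N r (k + 1) := by
  have hM : 0 < N * N := Nat.mul_pos hN hN
  have hM' : (1 : ℝ) ≤ ((N * N : ℕ) : ℝ) := by exact_mod_cast hM
  rcases Nat.eq_zero_or_pos k with h | h
  · subst h
    have := yR_low (N := N) (r := r) (b := 0) hM
    rw [mul_zero, add_zero] at this
    rw [this]
    unfold yR
    rw [if_pos rfl]
    have : (0 : ℝ) ≤ r := by positivity
    push_cast
    linarith
  · obtain ⟨b, c, hc, hkbc⟩ : ∃ b c, c < 3 ∧ k = 1 + 3 * b + c :=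
      ⟨(k - 1) / 3, (k - 1) % 3, by omega, by omega⟩
    have hb : b < N * N := by omega
    have hda := dr_pos hN hb
    have hda2 := dr_lt hN b
    have hb' : (b : ℝ) + 1 ≤ ((N * N : ℕ) : ℝ) := by exact_mod_cast hb
    interval_cases c
    · rw [hkbc, add_zero, yR_low hb, yR_apex hb]
      linarith
    · rw [hkbc, yR_apex hb]
      have := yR_up (r := r) hb
      rw [show 1 + 3 * b + 1 + 1 = 1 + 3 * b + 2 by ring, this]
      linarith
    · rw [hkbc, yR_up hb]
      rcases Nat.lt_or_ge (b + 1) (N * N) with h3 | h3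
      · have := yR_low (r := r) h3
        rw [show 1 + 3 * b + 2 + 1 = 1 + 3 * (b + 1) by ring, this]
        push_cast at *
        linarith
      · rw [yR_top (by omega)]
        linarith

/-- The pit polygon. -/
noncomputable def pits (N r : ℕ) (hN : 0 < N) : Chains where
  p := r + 1 + 3 * (N * N)
  q := 1 + 3 * (N * N)
  xl := xL N r
  yl := yL N r
  xr := xR N
  yr := yR N r
  W := lam N - 2
  hp := by omega
  hq := by omega
  hyl := yL_step hN
  hyr := yR_step hN
  hbot := by
    rw [yL_pad (by omega)]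
    unfold yR
    rw [if_pos rfl]
    push_cast
    ring
  htop := by
    rw [yL_top le_rfl, yR_top le_rfl]
  hxl := fun _ _ => xL_le
  hxr := fun _ _ => xR_ge
  hW := by
    unfold lam
    have : (1 : ℝ) ≤ ((N * N : ℕ) : ℝ) := by exact_mod_cast Nat.mul_pos hN hN
    linarith

lemma pits_n (N r : ℕ) (hN : 0 < N) : (pits N r hN).n = 6 * (N * N) + 4 + r := by
  unfold Chains.n pits
  simp only
  omega

/-- The two constraints for the apexes `a` (left) and `b` (right) to see each other. -/
def sees (N a b : ℕ) : Prop := (a % N + 1) * N ≤ b ∧ a < b % N * N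

section Vis

variable {N r : ℕ} (hN : 0 < N)

/-- left apex -/
noncomputable def apL (N a : ℕ) : ℂ := ⟨-1, ((N * N : ℕ) : ℝ) + a⟩
/-- right apex -/
noncomputable def apR (N b : ℕ) : ℂ := ⟨lam N - 1, b⟩

lemma L_pit {a : ℕ} (ha : a < N * N) {t : ℝ} (h1 : ((N * N : ℕ) : ℝ) + a - dl N a ≤ t)
    (h2 : t ≤ ((N * N : ℕ) : ℝ) + a) :
    (pits N r hN).L t = -1 + (((N * N : ℕ) : ℝ) + a - t) / dl N a := by
  have hk : r + 1 + 3 * a < (pits N r hN).p := by
    change _ < r + 1 + 3 * (N * N)
    omega
  have h := interp_eq (x := (pits N r hN).xl) (pits N r hN).hyl hk (t := t)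
    (by change yL N r (r + 1 + 3 * a) ≤ t; rw [yL_low ha]; exact h1)
    (by change t ≤ yL N r (r + 1 + 3 * a + 1); rw [yL_apex ha]; exact h2)
  rw [Chains.L, h]
  change xL N r (r + 1 + 3 * a) + (xL N r (r + 1 + 3 * a + 1) - xL N r (r + 1 + 3 * a)) /
    (yL N r (r + 1 + 3 * a + 1) - yL N r (r + 1 + 3 * a)) * (t - yL N r (r + 1 + 3 * a)) = _
  rw [xL_low, xL_apex ha, yL_low ha, yL_apex ha]
  have := dl_pos hN a
  have e : ((N * N : ℕ) : ℝ) + a - (((N * N : ℕ) : ℝ) + a - dl N a) = dl N a := by ring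
  rw [e]
  field_simp
  ring

lemma R_pit {b : ℕ} (hb : b < N * N) {t : ℝ} (h1 : (b : ℝ) ≤ t) (h2 : t ≤ b + dr N b) :
    (pits N r hN).R t = lam N - 1 - (t - b) / dr N b := by
  have hk : 1 + 3 * b + 1 < (pits N r hN).q := by
    change _ < 1 + 3 * (N * N)
    omega
  have h := interp_eq (x := (pits N r hN).xr) (pits N r hN).hyr hk (t := t)
    (by change yR N r (1 + 3 * b + 1) ≤ t; rw [yR_apex hb]; exact h1)
    (by change t ≤ yR N r (1 + 3 * b + 2); rw [yR_up hb]; exact h2)
  rw [Chains.R, h]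
  change xR N (1 + 3 * b + 1) + (xR N (1 + 3 * b + 2) - xR N (1 + 3 * b + 1)) /
    (yR N r (1 + 3 * b + 2) - yR N r (1 + 3 * b + 1)) * (t - yR N r (1 + 3 * b + 1)) = _
  rw [xR_up, xR_apex hb, yR_up hb, yR_apex hb]
  have := dr_pos hN hb
  have e : (b : ℝ) + dr N b - b = dr N b := by ring
  rw [e]
  field_simp
  ring

include hN in
lemma lam_dl (a : ℕ) :
    lam N * dl N a = ((N * N : ℕ) : ℝ) + a - ((((a % N + 1) * N : ℕ) : ℝ) - 1 / 2) := by
  unfold dl
  rw [mul_div_cancel₀ _ (lam_pos hN).ne']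

include hN in
lemma lam_dr (b : ℕ) :
    lam N * dr N b = ((N * N : ℕ) : ℝ) + ((b % N * N : ℕ) : ℝ) - 1 / 2 - b := by
  unfold dr
  rw [mul_div_cancel₀ _ (lam_pos hN).ne']

lemma pits_bot : (pits N r hN).yl 0 = -(r : ℝ) - 1 := by
  change yL N r 0 = _
  rw [yL_pad (by omega)]
  push_cast
  ring

lemma pits_top : (pits N r hN).yl (pits N r hN).p = 2 * ((N * N : ℕ) : ℝ) + 1 := by
  change yL N r (r + 1 + 3 * (N * N)) = _
  rw [yL_top le_rfl]

theorem visible_iff {a b : ℕ} (ha : a < N * N) (hb : b < N * N) :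
    segment ℝ (apL N a) (apR N b) ⊆ (pits N r hN).Cl ↔ sees N a b := by
  have ha' : (a : ℝ) + 1 ≤ ((N * N : ℕ) : ℝ) := by exact_mod_cast ha
  have hb' : (b : ℝ) + 1 ≤ ((N * N : ℕ) : ℝ) := by exact_mod_cast hb
  have ha0 : (0 : ℝ) ≤ a := by positivity
  have hb0 : (0 : ℝ) ≤ b := by positivity
  have hr0 : (0 : ℝ) ≤ r := by positivity
  have hM : (1 : ℝ) ≤ ((N * N : ℕ) : ℝ) := by linarith
  have hlam := lam_pos hN
  have hlam' : 16 ≤ lam N := by unfold lam; linarith
  have hdl := dl_pos hN a
  have hdl2 := dl_lt hN ha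
  have hdr := dr_pos hN hb
  have hdr2 := dr_lt hN b
  have e1 := lam_dl hN a
  have e2 := lam_dr hN b
  set M : ℝ := ((N * N : ℕ) : ℝ) with hMdef
  set g : ℝ := M + a - b with hg
  have hg1 : 1 ≤ g := by rw [hg]; linarith
  constructor
  · intro h
    constructor
    · -- lower lip of the left pit
      by_contra hno
      push Not at hno
      have hno' : (b : ℝ) + 1 ≤ (((a % N + 1) * N : ℕ) : ℝ) := by exact_mod_cast hno
      set t : ℝ := dl N a / g with ht
      have ht0 : 0 ≤ t := by positivity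
      have ht1 : t ≤ 1 := by rw [ht, div_le_one (by linarith)]; linarith
      have htg : t * g = dl N a := by rw [ht]; field_simp
      have hmem : (1 - t) • apL N a + t • apR N b ∈ (pits N r hN).Cl :=
        h ⟨1 - t, t, by linarith, ht0, by ring, rfl⟩
      obtain ⟨_, _, h3, _⟩ := hmem
      have him : ((1 - t) • apL N a + t • apR N b).im = M + a - dl N a := by
        simp only [apL, apR, Complex.add_im, Complex.smul_im, smul_eq_mul]
        rw [← htg, hg]; ring
      have hre : ((1 - t) • apL N a + t • apR N b).re = -1 + t * lam N := by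
        simp only [apL, apR, Complex.add_re, Complex.smul_re, smul_eq_mul]
        ring
      rw [him, hre, L_pit hN ha le_rfl (by linarith)] at h3
      have e3 : (M + a - (M + a - dl N a)) / dl N a = 1 := by
        rw [show M + a - (M + a - dl N a) = dl N a by ring]
        exact div_self hdl.ne'
      rw [e3] at h3
      have h4 : t * lam N < 1 := by
        rw [ht, div_mul_eq_mul_div, div_lt_one (by linarith), mul_comm, e1, hg]
        linarith
      linarith
    · by_contra hno
      push Not at hno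
      have hno' : ((b % N * N : ℕ) : ℝ) ≤ a := by exact_mod_cast hno
      set t : ℝ := dr N b / g with ht
      have ht0 : 0 ≤ t := by positivity
      have ht1 : t ≤ 1 := by rw [ht, div_le_one (by linarith)]; linarith
      have htg : t * g = dr N b := by rw [ht]; field_simp
      have hmem : t • apL N a + (1 - t) • apR N b ∈ (pits N r hN).Cl :=
        h ⟨t, 1 - t, ht0, by linarith, by ring, rfl⟩
      obtain ⟨_, _, _, h3⟩ := hmem
      have him : (t • apL N a + (1 - t) • apR N b).im = b + dr N b := by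
        simp only [apL, apR, Complex.add_im, Complex.smul_im, smul_eq_mul]
        rw [← htg, hg]; ring
      have hre : (t • apL N a + (1 - t) • apR N b).re = lam N - 1 - t * lam N := by
        simp only [apL, apR, Complex.add_re, Complex.smul_re, smul_eq_mul]
        ring
      rw [him, hre, R_pit hN hb (by linarith) le_rfl] at h3
      have e3 : ((b : ℝ) + dr N b - b) / dr N b = 1 := by
        rw [show (b : ℝ) + dr N b - b = dr N b by ring]
        exact div_self hdr.ne'
      rw [e3] at h3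
      have h4 : t * lam N < 1 := by
        rw [ht, div_mul_eq_mul_div, div_lt_one (by linarith), mul_comm, e2, hg]
        linarith
      linarith
  · rintro ⟨s1, s2⟩ z ⟨s, t, hs, ht, hst, rfl⟩
    have s1' : (((a % N + 1) * N : ℕ) : ℝ) ≤ b := by exact_mod_cast s1
    have s2' : (a : ℝ) + 1 ≤ ((b % N * N : ℕ) : ℝ) := by exact_mod_cast s2
    obtain rfl : s = 1 - t := by linarith
    have ht1 : t ≤ 1 := by linarith
    have him : ((1 - t) • apL N a + t • apR N b).im = M + a - t * g := by
      simp only [apL, apR, Complex.add_im, Complex.smul_im, smul_eq_mul]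
      rw [hg]; ring
    have hre : ((1 - t) • apL N a + t • apR N b).re = -1 + t * lam N := by
      simp only [apL, apR, Complex.add_re, Complex.smul_re, smul_eq_mul]
      ring
    have htg : t * g ≤ g := by nlinarith
    have htg0 : 0 ≤ t * g := by positivity
    have hlow : -(r : ℝ) - 1 ≤ M + a - t * g := by rw [hg] at *; linarith
    have hupp : M + a - t * g ≤ 2 * M + 1 := by linarith
    have hbot := pits_bot (r := r) hN
    have htop := pits_top (r := r) hN
    refine ⟨?_, ?_, ?_, ?_⟩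
    · rw [him, hbot]; exact hlow
    · rw [him, htop]; exact hupp
    · rw [him, hre]
      rcases le_total (1 / lam N) t with h | h
      · have h1 : 1 ≤ t * lam N := by rwa [div_le_iff₀ hlam] at h
        have := (pits N r hN).L_le (t := M + a - t * g) (by rw [hbot]; exact hlow) (by rw [htop]; exact hupp)
        linarith
      · -- inside the pit
        have h1 : t * lam N ≤ 1 := by rwa [le_div_iff₀ hlam] at h
        have h2 : g ≤ lam N * dl N a := by rw [e1, hg]; linarith
        have h3 : t * g ≤ dl N a := by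
          calc t * g ≤ t * (lam N * dl N a) := mul_le_mul_of_nonneg_left h2 ht
            _ = (t * lam N) * dl N a := by ring
            _ ≤ 1 * dl N a := mul_le_mul_of_nonneg_right h1 hdl.le
            _ = dl N a := one_mul _
        rw [L_pit hN ha (by linarith) (by linarith)]
        have e3 : M + a - (M + a - t * g) = t * g := by ring
        rw [e3]
        have h4 : t * g / dl N a ≤ t * lam N := by
          rw [div_le_iff₀ hdl]
          calc t * g ≤ t * (lam N * dl N a) := mul_le_mul_of_nonneg_left h2 ht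
            _ = t * lam N * dl N a := by ring
        linarith
    · rw [him, hre]
      rcases le_total (1 / lam N) (1 - t) with h | h
      · have h1 : 1 ≤ (1 - t) * lam N := by rwa [div_le_iff₀ hlam] at h
        have := (pits N r hN).le_R (t := M + a - t * g) (by rw [hbot]; exact hlow) (by rw [htop]; exact hupp)
        have hWW : (pits N r hN).W = lam N - 2 := rfl
        rw [hWW] at this
        linarith
      · have h1 : (1 - t) * lam N ≤ 1 := by rwa [le_div_iff₀ hlam] at h
        have h2 : g ≤ lam N * dr N b := by rw [e2, hg]; linarith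
        have ht' : 0 ≤ 1 - t := by linarith
        have h3 : (1 - t) * g ≤ dr N b := by
          calc (1 - t) * g ≤ (1 - t) * (lam N * dr N b) := mul_le_mul_of_nonneg_left h2 ht'
            _ = ((1 - t) * lam N) * dr N b := by ring
            _ ≤ 1 * dr N b := mul_le_mul_of_nonneg_right h1 hdr.le
            _ = dr N b := one_mul _
        have h5 : 0 ≤ (1 - t) * g := by positivity
        have e4 : M + a - t * g = b + (1 - t) * g := by rw [hg]; ring
        rw [e4, R_pit hN hb (by linarith) (by linarith)]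
        have e3 : (b : ℝ) + (1 - t) * g - b = (1 - t) * g := by ring
        rw [e3]
        have h4 : (1 - t) * g / dr N b ≤ (1 - t) * lam N := by
          rw [div_le_iff₀ hdr]
          calc (1 - t) * g ≤ (1 - t) * (lam N * dr N b) := mul_le_mul_of_nonneg_left h2 ht'
            _ = (1 - t) * lam N * dr N b := by ring
        linarith

end Vis

end Pool.Agent.VisGraph
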