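import Pool.Agent.VisGraph.Defs

/-!
# The weighting argument for the lower bound
-/

namespace Pool.Agent.VisGraph

open Finset

lemma inv_sqrt_step (x : ℝ) (hx : 0 ≤ x) :
    1 / Real.sqrt (x + 1) ≤ 2 * (Real.sqrt (x + 1) - Real.sqrt x) := by
  have h1 : 0 < Real.sqrt (x + 1) := Real.sqrt_pos.mpr (by linarith)
  have h0 : 0 ≤ Real.sqrt x := Real.sqrt_nonneg x
  have hs1 : Real.sqrt (x + 1) ^ 2 = x + 1 := Real.sq_sqrt (by linarith)
  have hs0 : Real.sqrt x ^ 2 = x := Real.sq_sqrt hx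
  rw [div_le_iff₀ h1]
  nlinarith [sq_nonneg (Real.sqrt (x + 1) - Real.sqrt x)]

lemma inv_step2 (x : ℝ) (hx : 0 < x) :
    1 / ((x + 1) * Real.sqrt (x + 1)) ≤ 2 * (1 / Real.sqrt x - 1 / Real.sqrt (x + 1)) := by
  have h1 : 0 < Real.sqrt (x + 1) := Real.sqrt_pos.mpr (by linarith)
  have h0 : 0 < Real.sqrt x := Real.sqrt_pos.mpr hx
  have hs1 : Real.sqrt (x + 1) ^ 2 = x + 1 := Real.sq_sqrt (by linarith)
  have hs0 : Real.sqrt x ^ 2 = x := Real.sq_sqrt hx.le
  have hle : Real.sqrt x ≤ Real.sqrt (x + 1) := Real.sqrt_le_sqrt (by linarith)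
  have e : 2 * (1 / Real.sqrt x - 1 / Real.sqrt (x + 1))
      = 2 * (Real.sqrt (x + 1) - Real.sqrt x) / (Real.sqrt x * Real.sqrt (x + 1)) := by
    field_simp
  rw [e, div_le_div_iff₀ (by positivity) (by positivity)]
  set s := Real.sqrt (x + 1) with hs
  set t := Real.sqrt x with ht
  have hx1 : x + 1 = s ^ 2 := hs1.symm
  have hst : s ^ 2 = t ^ 2 + 1 := by rw [hs1, hs0]
  rw [hx1]
  -- 1 * (t * s) ≤ 2 * (s - t) * (s ^ 2 * s)
  have h3 : (s - t) * (s + t) = 1 := by nlinarith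
  have h4 : 1 ≤ 2 * (s - t) * s := by nlinarith
  have h5 : t * s ≤ s ^ 2 := by nlinarith
  have h6 : 0 < s ^ 2 := by positivity
  nlinarith

/-- The potential bounding the partial sums in a row of the Hilbert kernel. -/
lemma hilbert_row (i m : ℕ) :
    ∑ j ∈ range m, 1 / (((i : ℝ) + j + 1) * Real.sqrt (j + 1)) ≤
      if m ≤ i + 1 then 2 * Real.sqrt m / (i + 1)
      else 4 / Real.sqrt (i + 1) - 2 / Real.sqrt m := by
  induction m with
  | zero => simp
  | succ m ih =>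
    rw [Finset.sum_range_succ]
    have hi : (0 : ℝ) < (i : ℝ) + 1 := by positivity
    have hsi : 0 < Real.sqrt ((i : ℝ) + 1) := Real.sqrt_pos.mpr hi
    have hsi2 : Real.sqrt ((i : ℝ) + 1) ^ 2 = (i : ℝ) + 1 := Real.sq_sqrt hi.le
    have hm1 : 0 < Real.sqrt ((m : ℝ) + 1) := Real.sqrt_pos.mpr (by positivity)
    by_cases h : m + 1 ≤ i + 1
    · rw [if_pos (by omega)] at ih
      rw [if_pos h]
      have h2 : 1 / (((i : ℝ) + m + 1) * Real.sqrt (m + 1)) ≤
          2 * (Real.sqrt (m + 1) - Real.sqrt m) / (i + 1) := by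
        have h3 := inv_sqrt_step (m : ℝ) (by positivity)
        calc 1 / (((i : ℝ) + m + 1) * Real.sqrt (m + 1))
            ≤ 1 / (((i : ℝ) + 1) * Real.sqrt (m + 1)) := by
              apply one_div_le_one_div_of_le (by positivity)
              apply mul_le_mul_of_nonneg_right _ hm1.le
              have : (0 : ℝ) ≤ m := by positivity
              linarith
          _ = (1 / Real.sqrt (m + 1)) / (i + 1) := by field_simp
          _ ≤ _ := by
              apply div_le_div_of_nonneg_right h3 hi.le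
      push_cast
      calc _ ≤ 2 * Real.sqrt m / (i + 1) + 2 * (Real.sqrt (m + 1) - Real.sqrt m) / (i + 1) :=
            add_le_add ih h2
        _ = _ := by ring
    · rw [if_neg h]
      have hmi : i + 1 ≤ m := by omega
      have hmpos : 0 < (m : ℝ) := by
        have : 0 < m := by omega
        exact_mod_cast this
      have hsm : 0 < Real.sqrt (m : ℝ) := Real.sqrt_pos.mpr hmpos
      have h2 : 1 / (((i : ℝ) + m + 1) * Real.sqrt (m + 1)) ≤
          2 * (1 / Real.sqrt m - 1 / Real.sqrt (m + 1)) := by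
        refine le_trans ?_ (inv_step2 (m : ℝ) hmpos)
        apply one_div_le_one_div_of_le (by positivity)
        apply mul_le_mul_of_nonneg_right _ hm1.le
        have : (0 : ℝ) ≤ i := by positivity
        linarith
      have h3 : ∑ j ∈ range m, 1 / (((i : ℝ) + j + 1) * Real.sqrt (j + 1)) ≤
          4 / Real.sqrt (i + 1) - 2 / Real.sqrt m := by
        refine le_trans ih ?_
        split_ifs with h4
        · have : m = i + 1 := by omega
          subst this
          push_cast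
          have : 2 * Real.sqrt ((i : ℝ) + 1) / ((i : ℝ) + 1) = 2 / Real.sqrt ((i : ℝ) + 1) := by
            rw [div_eq_div_iff hi.ne' hsi.ne']
            nlinarith
          rw [this]
          have : 4 / Real.sqrt ((i : ℝ) + 1) - 2 / Real.sqrt ((i : ℝ) + 1)
            = 2 / Real.sqrt ((i : ℝ) + 1) := by ring
          rw [this]
        · exact le_rfl
      push_cast
      calc _ ≤ (4 / Real.sqrt (i + 1) - 2 / Real.sqrt m)
              + 2 * (1 / Real.sqrt m - 1 / Real.sqrt (m + 1)) := add_le_add h3 h2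
        _ = _ := by ring

lemma hilbert_row' (i m : ℕ) :
    ∑ j ∈ range m, 1 / (((i : ℝ) + j + 1) * Real.sqrt (j + 1)) ≤ 4 / Real.sqrt (i + 1) := by
  refine le_trans (hilbert_row i m) ?_
  have hi : (0 : ℝ) < (i : ℝ) + 1 := by positivity
  have hsi : 0 < Real.sqrt ((i : ℝ) + 1) := Real.sqrt_pos.mpr hi
  have hsi2 : Real.sqrt ((i : ℝ) + 1) ^ 2 = (i : ℝ) + 1 := Real.sq_sqrt hi.le
  split_ifs with h
  · rw [div_le_div_iff₀ hi hsi]
    have hm : Real.sqrt (m : ℝ) ≤ Real.sqrt ((i : ℝ) + 1) := by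
      apply Real.sqrt_le_sqrt
      exact_mod_cast h
    have h0 : 0 ≤ Real.sqrt (m : ℝ) := Real.sqrt_nonneg _
    nlinarith
  · have : 0 ≤ 2 / Real.sqrt (m : ℝ) := by positivity
    linarith

/-- The Schur test in additive form. -/
lemma schur_test {α β : Type*} (A : Finset α) (B : Finset β) (w : α → β → ℝ) (p : α → ℝ)
    (q : β → ℝ) (hp : ∀ a ∈ A, 0 < p a) (hq : ∀ b ∈ B, 0 < q b)
    (hw : ∀ a ∈ A, ∀ b ∈ B, 0 ≤ w a b) (l : ℝ)
    (h1 : ∀ a ∈ A, ∑ b ∈ B, w a b * q b ≤ l * p a)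
    (h2 : ∀ b ∈ B, ∑ a ∈ A, w a b * p a ≤ l * q b) :
    ∑ a ∈ A, ∑ b ∈ B, w a b ≤ l * (A.card + B.card) / 2 := by
  have key : ∑ a ∈ A, ∑ b ∈ B, w a b ≤
      (∑ a ∈ A, ∑ b ∈ B, w a b * q b / p a + ∑ a ∈ A, ∑ b ∈ B, w a b * p a / q b) / 2 := by
    rw [← Finset.sum_add_distrib, Finset.sum_div]
    apply Finset.sum_le_sum
    intro a ha
    rw [← Finset.sum_add_distrib, Finset.sum_div]
    apply Finset.sum_le_sum
    intro b hb
    have hpa := hp a ha
    have hqb := hq b hb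
    have hwab := hw a ha b hb
    have : 2 ≤ q b / p a + p a / q b := by
      rw [div_add_div _ _ hpa.ne' hqb.ne', le_div_iff₀ (by positivity)]
      nlinarith [sq_nonneg (q b - p a)]
    have e : w a b * q b / p a + w a b * p a / q b = w a b * (q b / p a + p a / q b) := by ring
    rw [e]
    nlinarith
  have k1 : ∑ a ∈ A, ∑ b ∈ B, w a b * q b / p a ≤ l * A.card := by
    calc ∑ a ∈ A, ∑ b ∈ B, w a b * q b / p a ≤ ∑ a ∈ A, l := by
          apply Finset.sum_le_sum
          intro a ha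
          rw [← Finset.sum_div, div_le_iff₀ (hp a ha)]
          exact h1 a ha
      _ = l * A.card := by simp [mul_comm]
  have k2 : ∑ a ∈ A, ∑ b ∈ B, w a b * p a / q b ≤ l * B.card := by
    rw [Finset.sum_comm]
    calc ∑ b ∈ B, ∑ a ∈ A, w a b * p a / q b ≤ ∑ b ∈ B, l := by
          apply Finset.sum_le_sum
          intro b hb
          rw [← Finset.sum_div, div_le_iff₀ (hq b hb)]
          exact h2 b hb
      _ = l * B.card := by simp [mul_comm]
  linarith

/-- The weight of a pair of grid points. -/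
noncomputable def wt (a b : ℕ × ℕ) : ℝ :=
  1 / (((b.1 : ℝ) - a.1) * ((b.2 : ℝ) - a.2))

/-- A one-sided kernel sum, reindexed. -/
lemma sum_two (S : Finset (ℕ × ℕ)) (i1 i2 : ℕ) (g : ℕ × ℕ → ℕ × ℕ)
    (hg : Set.InjOn g S) :
    ∑ b ∈ S, (1 / (((i1 : ℝ) + (g b).1 + 1) * Real.sqrt ((g b).1 + 1))) *
      (1 / (((i2 : ℝ) + (g b).2 + 1) * Real.sqrt ((g b).2 + 1))) ≤
      (4 / Real.sqrt (i1 + 1)) * (4 / Real.sqrt (i2 + 1)) := by
  classical
  set F : ℕ × ℕ → ℝ := fun c => (1 / (((i1 : ℝ) + c.1 + 1) * Real.sqrt (c.1 + 1))) *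
      (1 / (((i2 : ℝ) + c.2 + 1) * Real.sqrt (c.2 + 1))) with hF
  have hF0 : ∀ c, 0 ≤ F c := fun c => by simp only [hF]; positivity
  have e1 : ∑ b ∈ S, F (g b) = ∑ c ∈ S.image g, F c := by
    rw [Finset.sum_image hg]
  obtain ⟨M, hM⟩ : ∃ M, S.image g ⊆ range M ×ˢ range M := by
    refine ⟨(S.image g).sup (fun c => max c.1 c.2) + 1, ?_⟩
    intro c hc
    have h1 : max c.1 c.2 ≤ (S.image g).sup (fun c => max c.1 c.2) :=
      Finset.le_sup (f := fun c : ℕ × ℕ => max c.1 c.2) hc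
    have h2 : c.1 ≤ max c.1 c.2 := le_max_left _ _
    have h3 : c.2 ≤ max c.1 c.2 := le_max_right _ _
    simp only [mem_product, mem_range]
    exact ⟨by omega, by omega⟩
  calc ∑ b ∈ S, F (g b) = ∑ c ∈ S.image g, F c := e1
    _ ≤ ∑ c ∈ range M ×ˢ range M, F c :=
        Finset.sum_le_sum_of_subset_of_nonneg hM (fun c _ _ => hF0 c)
    _ = (∑ x ∈ range M, 1 / (((i1 : ℝ) + x + 1) * Real.sqrt (x + 1))) *
        (∑ y ∈ range M, 1 / (((i2 : ℝ) + y + 1) * Real.sqrt (y + 1))) := by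
        rw [Finset.sum_mul_sum, Finset.sum_product]
    _ ≤ _ := by
        apply mul_le_mul (hilbert_row' i1 M) (hilbert_row' i2 M)
        · exact Finset.sum_nonneg (fun _ _ => by positivity)
        · positivity

/-- A rectangle inside the strict dominance relation has small weight. -/
lemma rect_weight (A B : Finset (ℕ × ℕ))
    (h : ∀ a ∈ A, ∀ b ∈ B, a.1 < b.1 ∧ a.2 < b.2) :
    ∑ a ∈ A, ∑ b ∈ B, wt a b ≤ 8 * (A.card + B.card) := by
  classical
  rcases A.eq_empty_or_nonempty with hA | hA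
  · subst hA; simp
  rcases B.eq_empty_or_nonempty with hB | hB
  · subst hB; simp
  -- the maxima of the coordinates over `A`
  obtain ⟨a1, ha1, hm1⟩ := Finset.exists_max_image A Prod.fst hA
  obtain ⟨a2, ha2, hm2⟩ := Finset.exists_max_image A Prod.snd hA
  set m1 := a1.1 with hm1'
  set m2 := a2.2 with hm2'
  have hAle : ∀ a ∈ A, a.1 ≤ m1 ∧ a.2 ≤ m2 := fun a ha => ⟨hm1 a ha, hm2 a ha⟩
  have hBlt : ∀ b ∈ B, m1 < b.1 ∧ m2 < b.2 := fun b hb => ⟨(h a1 ha1 b hb).1, (h a2 ha2 b hb).2⟩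
  set p : ℕ × ℕ → ℝ := fun a => 1 / (Real.sqrt ((m1 - a.1 : ℕ) + 1) * Real.sqrt ((m2 - a.2 : ℕ) + 1))
    with hp
  set q : ℕ × ℕ → ℝ := fun b =>
    1 / (Real.sqrt ((b.1 - m1 - 1 : ℕ) + 1) * Real.sqrt ((b.2 - m2 - 1 : ℕ) + 1)) with hq
  have hwt : ∀ a ∈ A, ∀ b ∈ B, wt a b =
      1 / (((m1 - a.1 : ℕ) + (b.1 - m1 - 1 : ℕ) + 1) * ((m2 - a.2 : ℕ) + (b.2 - m2 - 1 : ℕ) + 1)) := by
    intro a ha b hb
    obtain ⟨h1, h2⟩ := hAle a ha
    obtain ⟨h3, h4⟩ := hBlt b hb
    unfold wt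
    have e1 : ((m1 - a.1 : ℕ) : ℝ) + (b.1 - m1 - 1 : ℕ) + 1 = (b.1 : ℝ) - a.1 := by
      have : (m1 - a.1) + (b.1 - m1 - 1) + 1 + a.1 = b.1 := by omega
      have h5 : (((m1 - a.1) + (b.1 - m1 - 1) + 1 + a.1 : ℕ) : ℝ) = b.1 := by rw [this]
      push_cast at h5
      linarith
    have e2 : ((m2 - a.2 : ℕ) : ℝ) + (b.2 - m2 - 1 : ℕ) + 1 = (b.2 : ℝ) - a.2 := by
      have : (m2 - a.2) + (b.2 - m2 - 1) + 1 + a.2 = b.2 := by omega
      have h5 : (((m2 - a.2) + (b.2 - m2 - 1) + 1 + a.2 : ℕ) : ℝ) = b.2 := by rw [this]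
      push_cast at h5
      linarith
    rw [e1, e2]
  have main := schur_test A B wt p q (fun a _ => by simp only [hp]; positivity)
    (fun b _ => by simp only [hq]; positivity)
    (fun a ha b hb => by rw [hwt a ha b hb]; positivity) 16 ?_ ?_
  · linarith
  · -- rows
    intro a ha
    have := sum_two B (m1 - a.1) (m2 - a.2) (fun b => (b.1 - m1 - 1, b.2 - m2 - 1)) (by
      intro b hb b' hb' hbb
      have h1 := hBlt b hb
      have h2 := hBlt b' hb'
      simp only [Prod.mk.injEq] at hbb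
      ext <;> omega)
    refine le_trans (le_of_eq ?_) (le_trans this (le_of_eq ?_))
    · apply Finset.sum_congr rfl
      intro b hb
      rw [hwt a ha b hb]
      simp only [hq]
      field_simp
    · simp only [hp]
      field_simp
      norm_num
  · -- columns
    intro b hb
    have := sum_two A (b.1 - m1 - 1) (b.2 - m2 - 1) (fun a => (m1 - a.1, m2 - a.2)) (by
      intro a ha a' ha' haa
      have h1 := hAle a ha
      have h2 := hAle a' ha'
      simp only [Prod.mk.injEq] at haa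
      ext <;> omega)
    refine le_trans (le_of_eq ?_) (le_trans this (le_of_eq ?_))
    · apply Finset.sum_congr rfl
      intro a ha
      rw [hwt a ha b hb]
      simp only [hp]
      have e1 : ((m1 - a.1 : ℕ) : ℝ) + (b.1 - m1 - 1 : ℕ) + 1
        = (b.1 - m1 - 1 : ℕ) + ((m1 - a.1 : ℕ) : ℝ) + 1 := by ring
      have e2 : ((m2 - a.2 : ℕ) : ℝ) + (b.2 - m2 - 1 : ℕ) + 1
        = (b.2 - m2 - 1 : ℕ) + ((m2 - a.2 : ℕ) : ℝ) + 1 := by ring
      rw [e1, e2]
      field_simp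
    · simp only [hq]
      field_simp
      norm_num

end Pool.Agent.VisGraph
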