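import Pool.Agent.VisGraph.Wind

/-!
# Removing a segment from a connected plane open set
-/

namespace Pool.Agent.VisGraph

open Complex Set Filter Topology

/-- The affine coordinate sending `v` to `0` and `w` to `1`. -/
noncomputable def co (v w z : ℂ) : ℂ := (z - v) / (w - v)

lemma continuous_co (v w : ℂ) : Continuous (co v w) := by
  unfold co
  fun_prop

lemma orient_eq_co {v w : ℂ} (h : v ≠ w) (z : ℂ) :
    orient v w z = normSq (w - v) * (co v w z).im := by
  have h1 : normSq (w - v) ≠ 0 := by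
    rw [Ne, Complex.normSq_eq_zero, sub_eq_zero]
    exact fun h' => h h'.symm
  unfold co
  rw [Complex.div_im]
  simp only [orient, cr, Complex.sub_re, Complex.sub_im]
  field_simp

lemma co_affine {v w : ℂ} (h : v ≠ w) (z : ℂ) : z = v + co v w z * (w - v) := by
  have : w - v ≠ 0 := sub_ne_zero.2 h.symm
  unfold co
  field_simp
  ring

lemma co_point {v w : ℂ} (h : v ≠ w) (c : ℂ) : co v w (v + c * (w - v)) = c := by
  have : w - v ≠ 0 := sub_ne_zero.2 h.symm
  unfold co
  field_simp
  ring

lemma mem_segment_iff_co {v w : ℂ} (h : v ≠ w) (z : ℂ) :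
    z ∈ segment ℝ v w ↔ (co v w z).im = 0 ∧ 0 ≤ (co v w z).re ∧ (co v w z).re ≤ 1 := by
  constructor
  · rintro ⟨a, b, ha, hb, hab, rfl⟩
    have h1 : a • v + b • w = v + (b : ℂ) * (w - v) := by
      simp only [Complex.real_smul]
      have : (a : ℂ) = 1 - b := by
        have h : a = 1 - b := by linarith
        rw [h]; push_cast; ring
      rw [this]; ring
    rw [h1, co_point h]
    simp
    exact ⟨hb, by linarith⟩
  · rintro ⟨h1, h2, h3⟩
    refine ⟨1 - (co v w z).re, (co v w z).re, by linarith, h2, by ring, ?_⟩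
    conv_rhs => rw [co_affine h z]
    have h4 : co v w z = ((co v w z).re : ℂ) := by
      apply Complex.ext <;> simp [h1]
    conv_rhs => rw [h4]
    simp only [Complex.real_smul]
    push_cast
    ring

lemma mem_openSegment_iff_co {v w : ℂ} (h : v ≠ w) (z : ℂ) :
    z ∈ openSegment ℝ v w ↔ (co v w z).im = 0 ∧ 0 < (co v w z).re ∧ (co v w z).re < 1 := by
  constructor
  · rintro ⟨a, b, ha, hb, hab, rfl⟩
    have h1 : a • v + b • w = v + (b : ℂ) * (w - v) := by
      simp only [Complex.real_smul]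
      have : (a : ℂ) = 1 - b := by
        have h : a = 1 - b := by linarith
        rw [h]; push_cast; ring
      rw [this]; ring
    rw [h1, co_point h]
    simp
    exact ⟨hb, by linarith⟩
  · rintro ⟨h1, h2, h3⟩
    refine ⟨1 - (co v w z).re, (co v w z).re, by linarith, h2, by ring, ?_⟩
    conv_rhs => rw [co_affine h z]
    have h4 : co v w z = ((co v w z).re : ℂ) := by
      apply Complex.ext <;> simp [h1]
    conv_rhs => rw [h4]
    simp only [Complex.real_smul]
    push_cast
    ring

lemma normSq_pos' {v w : ℂ} (h : v ≠ w) : 0 < normSq (w - v) := by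
  rw [Complex.normSq_pos]
  exact sub_ne_zero.2 h.symm

lemma orient_eq_zero_of_mem {v w : ℂ} {z : ℂ} (hz : z ∈ segment ℝ v w) :
    orient v w z = 0 := by
  by_cases h : v = w
  · subst h
    simp [orient, cr]
  · rw [orient_eq_co h, ((mem_segment_iff_co h z).1 hz).1, mul_zero]

lemma co_comb {v w z z' : ℂ} {a b : ℝ} (hab : a + b = 1) :
    co v w (a • z + b • z') = a • co v w z + b • co v w z' := by
  unfold co
  simp only [Complex.real_smul]
  have : (a : ℂ) = 1 - b := by
    have h : a = 1 - b := by linarith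
    rw [h]; push_cast; ring
  rw [this]
  ring

lemma orient_comb {v w z z' : ℂ} {a b : ℝ} (hab : a + b = 1) :
    orient v w (a • z + b • z') = a * orient v w z + b * orient v w z' := by
  have : a = 1 - b := by linarith
  subst this
  simp only [orient, cr, Complex.sub_re, Complex.sub_im, Complex.add_re, Complex.add_im,
    Complex.real_smul, Complex.mul_re, Complex.mul_im, Complex.ofReal_re, Complex.ofReal_im]
  ring

lemma comb_pos {a b x y : ℝ} (ha : 0 ≤ a) (hb : 0 ≤ b) (hab : a + b = 1) (hx : 0 < x)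
    (hy : 0 < y) : 0 < a * x + b * y := by
  rcases ha.eq_or_lt with h | h
  · have : b = 1 := by linarith
    rw [← h, this]; simpa using hy
  · have := mul_pos h hx
    have := mul_nonneg hb hy.le
    linarith

lemma convex_pos (v w : ℂ) : Convex ℝ {z | 0 < orient v w z} := by
  intro z hz z' hz' a b ha hb hab
  show 0 < orient v w (a • z + b • z')
  rw [orient_comb hab]
  exact comb_pos ha hb hab hz hz'

lemma convex_neg (v w : ℂ) : Convex ℝ {z | orient v w z < 0} := by
  intro z hz z' hz' a b ha hb hab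
  show orient v w (a • z + b • z') < 0
  rw [orient_comb hab]
  have h1 : 0 < - orient v w z := by
    have : orient v w z < 0 := hz
    linarith
  have h2 : 0 < - orient v w z' := by
    have : orient v w z' < 0 := hz'
    linarith
  have := comb_pos ha hb hab h1 h2
  linarith

lemma convex_re (v w : ℂ) : Convex ℝ {z | 1 < (co v w z).re} := by
  intro z hz z' hz' a b ha hb hab
  show 1 < (co v w (a • z + b • z')).re
  rw [co_comb hab]
  have h1 : 0 < (co v w z).re - 1 := by
    have : 1 < (co v w z).re := hz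
    linarith
  have h2 : 0 < (co v w z').re - 1 := by
    have : 1 < (co v w z').re := hz'
    linarith
  have := comb_pos ha hb hab h1 h2
  simp only [Complex.add_re, Complex.real_smul, Complex.mul_re, Complex.ofReal_re,
    Complex.ofReal_im, zero_mul, sub_zero]
  nlinarith

lemma exists_pos {v w x : ℂ} (h : v ≠ w) {O : Set ℂ} (hO : IsOpen O) (hx : x ∈ O)
    (h0 : 0 ≤ orient v w x) : ∃ y ∈ O, 0 < orient v w y := by
  have h1 : Continuous fun t : ℝ => x + t * I * (w - v) := by fun_prop
  have h2 : ∀ᶠ t : ℝ in 𝓝 0, x + t * I * (w - v) ∈ O := by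
    apply h1.continuousAt.eventually_mem
    apply hO.mem_nhds
    simpa using hx
  have h3 : ∀ᶠ t : ℝ in 𝓝[>] 0, x + t * I * (w - v) ∈ O ∧ 0 < t :=
    (h2.filter_mono nhdsWithin_le_nhds).and self_mem_nhdsWithin
  obtain ⟨t, ht, ht0⟩ := h3.exists
  refine ⟨_, ht, ?_⟩
  have h4 : orient v w (x + t * I * (w - v)) = orient v w x + t * normSq (w - v) := by
    simp only [orient, cr, Complex.sub_re, Complex.sub_im, Complex.add_re, Complex.add_im,
      Complex.mul_re, Complex.mul_im, Complex.ofReal_re, Complex.ofReal_im, Complex.I_re,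
      Complex.I_im, Complex.normSq_apply]
    ring
  rw [h4]
  have := mul_pos ht0 (normSq_pos' h)
  linarith

lemma exists_neg {v w x : ℂ} (h : v ≠ w) {O : Set ℂ} (hO : IsOpen O) (hx : x ∈ O)
    (h0 : orient v w x ≤ 0) : ∃ y ∈ O, orient v w y < 0 := by
  have h1 : 0 ≤ orient w v x := by rw [orient_swap]; linarith
  obtain ⟨y, hy, hy'⟩ := exists_pos h.symm hO hx h1
  refine ⟨y, hy, ?_⟩
  rw [orient_swap] at hy'
  linarith

lemma openSegment_nhds {v w x : ℂ} (h : v ≠ w) (hx : x ∈ openSegment ℝ v w) :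
    {z | 0 < (co v w z).re ∧ (co v w z).re < 1} ∈ 𝓝 x := by
  have hc := continuous_co v w
  have h1 := (mem_openSegment_iff_co h x).1 hx
  refine IsOpen.mem_nhds ?_ (show x ∈ {z | 0 < (co v w z).re ∧ (co v w z).re < 1} from h1.2)
  apply IsOpen.inter
  · exact isOpen_lt continuous_const (Complex.continuous_re.comp hc)
  · exact isOpen_lt (Complex.continuous_re.comp hc) continuous_const

lemma mem_segment_of_orient {v w z : ℂ} (h : v ≠ w)
    (hz : 0 < (co v w z).re ∧ (co v w z).re < 1) (ho : orient v w z = 0) :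
    z ∈ segment ℝ v w := by
  rw [orient_eq_co h] at ho
  have := normSq_pos' h
  rw [mem_segment_iff_co h]
  refine ⟨?_, hz.1.le, hz.2.le⟩
  rcases mul_eq_zero.1 ho with h1 | h1
  · exact absurd h1 this.ne'
  · exact h1

lemma isCompact_seg (v w : ℂ) : IsCompact (segment ℝ v w) := by
  rw [← convexHull_pair]
  exact (Set.toFinite _).isCompact_convexHull ℝ

lemma isClosed_seg (v w : ℂ) : IsClosed (segment ℝ v w) := (isCompact_seg v w).isClosed

lemma slit_core {U V1 V2 : Set ℂ} {v w : ℂ} (hU : IsOpen U) (hUc : IsPreconnected U)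
    (hvw : v ≠ w) (hseg : openSegment ℝ v w ⊆ U) (hv : v ∉ U) (hV1 : IsOpen V1) (hV2 : IsOpen V2)
    (hcov : U \ segment ℝ v w ⊆ V1 ∪ V2) (hdis : ∀ z ∈ U \ segment ℝ v w, z ∈ V1 → z ∉ V2)
    (hw : w ∈ U → w ∈ interior (V1 ∪ segment ℝ v w)) {m : ℂ} (hm : m ∈ openSegment ℝ v w)
    (hmr : m ∈ interior (V1 ∪ segment ℝ v w)) : U \ segment ℝ v w ⊆ V1 := by
  set S := segment ℝ v w with hS
  set O := interior (V1 ∪ S) with hO
  have hOo : IsOpen O := isOpen_interior
  have hSc : IsClosed S := isClosed_seg v w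
  have hOV : ∀ y ∈ O, y ∉ S → y ∈ V1 := by
    intro y hy hyS
    rcases interior_subset hy with h | h
    · exact h
    · exact absurd h hyS
  have hlineS : ∀ z ∈ S, orient v w z = 0 := fun z hz => orient_eq_zero_of_mem hz
  -- a preconnected subset of `U \ S` which meets `V1` lies in `V1`
  have hmeet : ∀ D : Set ℂ, IsPreconnected D → D ⊆ U \ S → (∃ y ∈ D, y ∈ V1) → D ⊆ V1 := by
    intro D hD hDU ⟨y, hyD, hyV⟩
    rcases isPreconnected_iff_subset_of_disjoint.1 hD V1 V2 hV1 hV2 (hDU.trans hcov)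
      (by
        ext z
        simp only [mem_inter_iff, mem_empty_iff_false, iff_false, not_and]
        intro hz h1
        exact hdis z (hDU hz) h1) with h | h
    · exact h
    · exact absurd (h hyD) (hdis y (hDU hyD) hyV)
  have hopen : openSegment ℝ v w ⊆ O := by
    have hlc : Continuous (AffineMap.lineMap v w : ℝ → ℂ) := AffineMap.lineMap_continuous
    have himg := openSegment_eq_image_lineMap ℝ v w
    have key : Ioo (0 : ℝ) 1 ⊆ (AffineMap.lineMap v w : ℝ → ℂ) ⁻¹' O ∩ Ioo 0 1 := by
      apply isPreconnected_Ioo.subset_of_closure_inter_subset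
      · exact (hOo.preimage hlc).inter isOpen_Ioo
      · rw [himg] at hm
        obtain ⟨t, ht, rfl⟩ := hm
        exact ⟨t, ht, hmr, ht⟩
      · rintro t ⟨htc, ht⟩
        refine ⟨?_, ht⟩
        set x : ℂ := AffineMap.lineMap v w t with hx
        have hxs : x ∈ openSegment ℝ v w := by rw [himg]; exact ⟨t, ht, rfl⟩
        have hnh : U ∩ {z | 0 < (co v w z).re ∧ (co v w z).re < 1} ∈ 𝓝 x :=
          inter_mem (hU.mem_nhds (hseg hxs)) (openSegment_nhds hvw hxs)
        obtain ⟨r, hr, hball⟩ := Metric.mem_nhds_iff.1 hnh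
        -- a nearby good point
        obtain ⟨t', ht', hto, ht'1⟩ := mem_closure_iff.1 htc _ (Metric.isOpen_ball.preimage hlc)
          (Metric.mem_ball_self hr)
        set x' : ℂ := AffineMap.lineMap v w t' with hx'
        have hxs' : x' ∈ openSegment ℝ v w := by rw [himg]; exact ⟨t', ht'1, rfl⟩
        have hx'0 : orient v w x' = 0 := hlineS _ (openSegment_subset_segment _ _ _ hxs')
        have hx'O : x' ∈ O ∩ Metric.ball x r := ⟨hto, ht'⟩
        have hL : Metric.ball x r ∩ {z | 0 < orient v w z} ⊆ V1 := by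
          apply hmeet
          · exact ((convex_ball x r).inter (convex_pos v w)).isPreconnected
          · rintro z ⟨hz1, hz2⟩
            exact ⟨(hball hz1).1, fun hz => (ne_of_gt hz2) (hlineS z hz)⟩
          · obtain ⟨y, ⟨hyO, hyb⟩, hy⟩ := exists_pos hvw (hOo.inter Metric.isOpen_ball) hx'O
              hx'0.ge
            exact ⟨y, ⟨hyb, hy⟩, hOV y hyO fun hz => hy.ne' (hlineS y hz)⟩
        have hR : Metric.ball x r ∩ {z | orient v w z < 0} ⊆ V1 := by
          apply hmeet
          · exact ((convex_ball x r).inter (convex_neg v w)).isPreconnected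
          · rintro z ⟨hz1, hz2⟩
            exact ⟨(hball hz1).1, fun hz => (ne_of_lt hz2) (hlineS z hz)⟩
          · obtain ⟨y, ⟨hyO, hyb⟩, hy⟩ := exists_neg hvw (hOo.inter Metric.isOpen_ball) hx'O
              hx'0.le
            exact ⟨y, ⟨hyb, hy⟩, hOV y hyO fun hz => hy.ne (hlineS y hz)⟩
        show x ∈ O
        rw [hO, mem_interior]
        refine ⟨Metric.ball x r, ?_, Metric.isOpen_ball, Metric.mem_ball_self hr⟩
        intro z hz
        rcases lt_trichotomy (orient v w z) 0 with h | h | h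
        · exact Or.inl (hR ⟨hz, h⟩)
        · exact Or.inr (mem_segment_of_orient hvw (hball hz).2 h)
        · exact Or.inl (hL ⟨hz, h⟩)
    rw [himg]
    rintro _ ⟨t, ht, rfl⟩
    exact (key ht).1
  -- conclusion
  have hcov2 : U ⊆ O ∪ (V2 ∩ Sᶜ) := by
    intro z hz
    by_cases hzS : z ∈ S
    · left
      rw [hS, ← insert_endpoints_openSegment] at hzS
      rcases hzS with h | h | h
      · exact absurd (h ▸ hz) hv
      · rw [h] at hz ⊢
        exact hw hz
      · exact hopen h
    · rcases hcov ⟨hz, hzS⟩ with h | h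
      · left
        rw [hO, mem_interior]
        exact ⟨V1, subset_union_left, hV1, h⟩
      · exact Or.inr ⟨h, hzS⟩
  have hU2 : U ⊆ O := by
    rcases isPreconnected_iff_subset_of_disjoint.1 hUc O (V2 ∩ Sᶜ) hOo
      (hV2.inter hSc.isOpen_compl) hcov2
      (by
        ext z
        simp only [mem_inter_iff, mem_empty_iff_false, iff_false, not_and, mem_compl_iff,
          not_not]
        intro hz h1 h2
        by_contra hzS
        exact hdis z ⟨hz, hzS⟩ (hOV z h1 hzS) h2) with h | h
    · exact h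
    · exact absurd (openSegment_subset_segment _ _ _ hm) (h (hseg hm)).2
  rintro z ⟨hz, hzS⟩
  exact hOV z (hU2 hz) hzS

/-- Removing a segment with one free end leaves a connected open set connected. -/
lemma slit_free {U : Set ℂ} {v w : ℂ} (hU : IsOpen U) (hUc : IsPreconnected U)
    (hvw : v ≠ w) (hseg : openSegment ℝ v w ⊆ U) (hv : v ∉ U) (hwU : w ∈ U) :
    IsPreconnected (U \ segment ℝ v w) := by
  have hlineS : ∀ z ∈ segment ℝ v w, orient v w z = 0 := fun z hz => orient_eq_zero_of_mem hz
  have hcw : co v w w = 1 := by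
    have : w - v ≠ 0 := sub_ne_zero.2 hvw.symm
    unfold co
    exact div_self this
  have hnh : U ∩ {z | 0 < (co v w z).re} ∈ 𝓝 w := by
    refine inter_mem (hU.mem_nhds hwU) (IsOpen.mem_nhds ?_ ?_)
    · exact isOpen_lt continuous_const (Complex.continuous_re.comp (continuous_co v w))
    · show 0 < (co v w w).re
      rw [hcw]; simp
  obtain ⟨r, hr, hball⟩ := Metric.mem_nhds_iff.1 hnh
  have hDeq : Metric.ball w r \ segment ℝ v w =
      ((Metric.ball w r ∩ {z | 0 < orient v w z}) ∪ (Metric.ball w r ∩ {z | 1 < (co v w z).re})) ∪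
      (Metric.ball w r ∩ {z | orient v w z < 0}) := by
    ext z
    constructor
    · rintro ⟨hz, hzS⟩
      rcases lt_trichotomy (orient v w z) 0 with h | h | h
      · exact Or.inr ⟨hz, h⟩
      · left; right
        refine ⟨hz, ?_⟩
        show 1 < (co v w z).re
        by_contra hcon
        push Not at hcon
        apply hzS
        rw [mem_segment_iff_co hvw]
        refine ⟨?_, ?_, hcon⟩
        · rw [orient_eq_co hvw] at h
          rcases mul_eq_zero.1 h with h1 | h1
          · exact absurd h1 (normSq_pos' hvw).ne'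
          · exact h1
        · exact le_of_lt (hball hz).2
      · left; left; exact ⟨hz, h⟩
    · rintro ((⟨hz, h⟩ | ⟨hz, h⟩) | ⟨hz, h⟩)
      · exact ⟨hz, fun hzS => (ne_of_gt h) (hlineS z hzS)⟩
      · refine ⟨hz, fun hzS => ?_⟩
        have h1 : 1 < (co v w z).re := h
        exact absurd ((mem_segment_iff_co hvw z).1 hzS).2.2 (not_le.2 h1)
      · exact ⟨hz, fun hzS => (ne_of_lt h) (hlineS z hzS)⟩
  -- a point beyond `w`
  obtain ⟨w', hw'b, hw'1, hw'0⟩ : ∃ w' ∈ Metric.ball w r, 1 < (co v w w').re ∧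
      orient v w w' = 0 := by
    have h1 : Continuous fun t : ℝ => v + ((1 + t : ℝ) : ℂ) * (w - v) := by fun_prop
    have h2 : ∀ᶠ t : ℝ in 𝓝 0, v + ((1 + t : ℝ) : ℂ) * (w - v) ∈ Metric.ball w r := by
      apply h1.continuousAt.eventually_mem
      apply Metric.isOpen_ball.mem_nhds
      simpa using hr
    have h3 : ∀ᶠ t : ℝ in 𝓝[>] 0, v + ((1 + t : ℝ) : ℂ) * (w - v) ∈ Metric.ball w r ∧ 0 < t :=
      (h2.filter_mono nhdsWithin_le_nhds).and self_mem_nhdsWithin
    obtain ⟨t, ht, ht0⟩ := h3.exists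
    refine ⟨_, ht, ?_, ?_⟩
    · rw [co_point hvw, Complex.ofReal_re]; linarith
    · rw [orient_eq_co hvw, co_point hvw, Complex.ofReal_im, mul_zero]
  have hopen3 : IsOpen (Metric.ball w r ∩ {z | 1 < (co v w z).re}) :=
    Metric.isOpen_ball.inter
      (isOpen_lt continuous_const (Complex.continuous_re.comp (continuous_co v w)))
  have hDpre : IsPreconnected (Metric.ball w r \ segment ℝ v w) := by
    rw [hDeq]
    have hA1 := ((convex_ball w r).inter (convex_pos v w)).isPreconnected
    have hA2 := ((convex_ball w r).inter (convex_neg v w)).isPreconnected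
    have hA3 := ((convex_ball w r).inter (convex_re v w)).isPreconnected
    obtain ⟨y1, ⟨hy1b, hy1c⟩, hy1⟩ := exists_pos hvw hopen3 ⟨hw'b, hw'1⟩ hw'0.ge
    obtain ⟨y2, ⟨hy2b, hy2c⟩, hy2⟩ := exists_neg hvw hopen3 ⟨hw'b, hw'1⟩ hw'0.le
    have h13 : IsPreconnected ((Metric.ball w r ∩ {z | 0 < orient v w z}) ∪
        (Metric.ball w r ∩ {z | 1 < (co v w z).re})) :=
      IsPreconnected.union' ⟨y1, ⟨⟨hy1b, hy1⟩, ⟨hy1b, hy1c⟩⟩⟩ hA1 hA3
    exact IsPreconnected.union' ⟨y2, ⟨Or.inr ⟨hy2b, hy2c⟩, ⟨hy2b, hy2⟩⟩⟩ h13 hA2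
  obtain ⟨m, hmb, hm⟩ : ∃ m ∈ Metric.ball w r, m ∈ openSegment ℝ v w := by
    have h1 : w ∈ closure (openSegment ℝ v w) := by
      rw [closure_openSegment]; exact right_mem_segment ℝ v w
    obtain ⟨m, hmb, hm⟩ := mem_closure_iff.1 h1 _ Metric.isOpen_ball (Metric.mem_ball_self hr)
    exact ⟨m, hmb, hm⟩
  have hDU : Metric.ball w r \ segment ℝ v w ⊆ U \ segment ℝ v w :=
    fun z hz => ⟨(hball hz.1).1, hz.2⟩
  have hint : ∀ V : Set ℂ, Metric.ball w r \ segment ℝ v w ⊆ V → ∀ z ∈ Metric.ball w r,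
      z ∈ interior (V ∪ segment ℝ v w) := by
    intro V hV z hz
    rw [mem_interior]
    refine ⟨Metric.ball w r, ?_, Metric.isOpen_ball, hz⟩
    intro y hy
    by_cases hyS : y ∈ segment ℝ v w
    · exact Or.inr hyS
    · exact Or.inl (hV ⟨hy, hyS⟩)
  rw [isPreconnected_iff_subset_of_disjoint]
  intro V1 V2 hV1 hV2 hcov hdis
  have hdis1 : ∀ z ∈ U \ segment ℝ v w, z ∈ V1 → z ∉ V2 := by
    intro z hz h1 h2
    have : z ∈ (U \ segment ℝ v w) ∩ (V1 ∩ V2) := ⟨hz, h1, h2⟩
    rw [hdis] at this
    exact this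
  rcases isPreconnected_iff_subset_of_disjoint.1 hDpre V1 V2 hV1 hV2 (hDU.trans hcov)
      (by
        ext z
        simp only [mem_inter_iff, mem_empty_iff_false, iff_false, not_and]
        intro hz h1
        exact hdis1 z (hDU hz) h1) with h | h
  · left
    exact slit_core hU hUc hvw hseg hv hV1 hV2 hcov hdis1
      (fun _ => hint V1 h w (Metric.mem_ball_self hr)) hm (hint V1 h m hmb)
  · right
    refine slit_core hU hUc hvw hseg hv hV2 hV1 ?_ (fun z hz h1 h2 => hdis1 z hz h2 h1)
      (fun _ => hint V2 h w (Metric.mem_ball_self hr)) hm (hint V2 h m hmb)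
    rw [union_comm]; exact hcov

/-- Removing a crosscut leaves at most two components. -/
lemma slit_two {U : Set ℂ} {v w : ℂ} (hU : IsOpen U) (hUc : IsPreconnected U)
    (hvw : v ≠ w) (hseg : openSegment ℝ v w ⊆ U) (hv : v ∉ U) (hwU : w ∉ U) {m z1 z2 : ℂ} {r : ℝ}
    (hr : 0 < r) (hm : m ∈ openSegment ℝ v w) (hball : Metric.ball m r ⊆ U)
    (hsm : ∀ z ∈ Metric.ball m r, orient v w z = 0 → z ∈ segment ℝ v w)
    (hz1 : z1 ∈ Metric.ball m r) (ho1 : 0 < orient v w z1)
    (hz2 : z2 ∈ Metric.ball m r) (ho2 : orient v w z2 < 0) {z : ℂ}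
    (hz : z ∈ U \ segment ℝ v w) :
    z ∈ connectedComponentIn (U \ segment ℝ v w) z1 ∨
      z ∈ connectedComponentIn (U \ segment ℝ v w) z2 := by
  have hlineS : ∀ z ∈ segment ℝ v w, orient v w z = 0 := fun z hz => orient_eq_zero_of_mem hz
  set F := U \ segment ℝ v w with hF
  have hSc : IsClosed (segment ℝ v w) := isClosed_seg v w
  have hFo : IsOpen F := hU.sdiff hSc
  have hL : Metric.ball m r ∩ {z | 0 < orient v w z} ⊆ connectedComponentIn F z1 := by
    apply IsPreconnected.subset_connectedComponentIn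
    · exact ((convex_ball m r).inter (convex_pos v w)).isPreconnected
    · exact ⟨hz1, ho1⟩
    · rintro y ⟨hy1, hy2⟩
      exact ⟨hball hy1, fun hy => (ne_of_gt hy2) (hlineS y hy)⟩
  have hR : Metric.ball m r ∩ {z | orient v w z < 0} ⊆ connectedComponentIn F z2 := by
    apply IsPreconnected.subset_connectedComponentIn
    · exact ((convex_ball m r).inter (convex_neg v w)).isPreconnected
    · exact ⟨hz2, ho2⟩
    · rintro y ⟨hy1, hy2⟩
      exact ⟨hball hy1, fun hy => (ne_of_lt hy2) (hlineS y hy)⟩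
  set V1 := connectedComponentIn F z1 ∪ connectedComponentIn F z2 with hV1
  set V2 := ⋃ y ∈ F \ V1, connectedComponentIn F y with hV2
  have hV1o : IsOpen V1 := hFo.connectedComponentIn.union hFo.connectedComponentIn
  have hV2o : IsOpen V2 := isOpen_biUnion fun y _ => hFo.connectedComponentIn
  have hcov : F ⊆ V1 ∪ V2 := by
    intro y hy
    by_cases hy1 : y ∈ V1
    · exact Or.inl hy1
    · right
      rw [hV2, mem_iUnion₂]
      exact ⟨y, ⟨hy, hy1⟩, mem_connectedComponentIn hy⟩
  have hdis : ∀ y ∈ F, y ∈ V1 → y ∉ V2 := by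
    intro y hy h1 h2
    rw [hV2, mem_iUnion₂] at h2
    obtain ⟨x, ⟨hxF, hxV⟩, hyx⟩ := h2
    apply hxV
    have h3 := connectedComponentIn_eq hyx
    rcases h1 with h1 | h1
    · left
      rw [connectedComponentIn_eq h1, ← h3]
      exact mem_connectedComponentIn hxF
    · right
      rw [connectedComponentIn_eq h1, ← h3]
      exact mem_connectedComponentIn hxF
  have := slit_core hU hUc hvw hseg hv hV1o hV2o hcov hdis (fun h => absurd h hwU) hm
    (by
      rw [mem_interior]
      refine ⟨Metric.ball m r, ?_, Metric.isOpen_ball, Metric.mem_ball_self hr⟩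
      intro y hy
      rcases lt_trichotomy (orient v w y) 0 with h | h | h
      · exact Or.inl (Or.inr (hR ⟨hy, h⟩))
      · exact Or.inr (hsm y hy h)
      · exact Or.inl (Or.inl (hL ⟨hy, h⟩)))
  exact this hz

/-- The complement of a segment is connected. -/
lemma isPreconnected_compl_segment {v w : ℂ} (hvw : v ≠ w) :
    IsPreconnected (segment ℝ v w)ᶜ := by
  have h1 : IsPreconnected ({v}ᶜ : Set ℂ) :=
    (isConnected_compl_singleton_of_one_lt_rank (by simp) v).isPreconnected
  have h2 := slit_free (isOpen_compl_singleton) h1 hvw (U := {v}ᶜ)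
    (by
      intro z hz hzv
      rw [mem_singleton_iff] at hzv
      subst hzv
      have := (mem_openSegment_iff_co hvw z).1 hz
      have h3 : co z w z = 0 := by simp [co]
      rw [h3] at this
      simp at this)
    (by simp) (by simpa using hvw.symm)
  have h3 : ({v}ᶜ : Set ℂ) \ segment ℝ v w = (segment ℝ v w)ᶜ := by
    ext z
    simp only [Set.mem_sdiff, mem_compl_iff, mem_singleton_iff]
    constructor
    · exact fun h => h.2
    · intro h
      refine ⟨?_, h⟩
      rintro rfl
      exact h (left_mem_segment ℝ _ _)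
  rwa [h3] at h2

end Pool.Agent.VisGraph
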