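import Mathlib

/-!
# Angles and winding numbers of closed polygonal curves
-/

namespace Pool.Agent.VisGraph

open Complex Set Filter Topology

/-- The cross product of two plane vectors. -/
def cr (u v : ℂ) : ℝ := u.re * v.im - u.im * v.re

/-- Twice the signed area of the triangle `a b c`. -/
def orient (a b c : ℂ) : ℝ := cr (b - a) (c - a)

/-- The signed angle under which the segment from `u` to `v` is seen from `z`. -/
noncomputable def ang (z u v : ℂ) : ℝ := Complex.arg ((v - z) / (u - z))

lemma orient_cyc (a b c : ℂ) : orient b c a = orient a b c := by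
  simp only [orient, cr, Complex.sub_re, Complex.sub_im]; ring

lemma orient_swap (a b c : ℂ) : orient b a c = - orient a b c := by
  simp only [orient, cr, Complex.sub_re, Complex.sub_im]; ring

lemma continuous_orient (a b : ℂ) : Continuous fun z => orient a b z := by
  unfold orient cr
  fun_prop

/-- The imaginary part of the quotient has the sign of the orientation. -/
lemma im_div_eq (z u v : ℂ) : ((v - z) / (u - z)).im = orient u v z / normSq (u - z) := by
  rw [Complex.div_im]
  simp only [orient, cr, Complex.sub_re, Complex.sub_im]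
  ring

lemma div_mem_slitPlane {z u v : ℂ} (hz : z ∉ segment ℝ u v) :
    (v - z) / (u - z) ∈ slitPlane := by
  rw [Complex.mem_slitPlane_iff]
  by_contra hcon
  push Not at hcon
  obtain ⟨hre, him⟩ := hcon
  have huz : u - z ≠ 0 := by
    intro h
    apply hz
    rw [sub_eq_zero] at h
    rw [← h]
    exact left_mem_segment ℝ u v
  set t : ℝ := ((v - z) / (u - z)).re with ht
  have hw : (v - z) / (u - z) = (t : ℂ) := by
    apply Complex.ext
    · simp [ht]
    · simp [him]
  rw [div_eq_iff huz] at hw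
  apply hz
  have h1 : 0 < 1 - t := by linarith
  refine ⟨-t / (1 - t), 1 / (1 - t), ?_, ?_, ?_, ?_⟩
  · exact div_nonneg (by linarith) h1.le
  · positivity
  · field_simp
    ring
  · have h2 : ((1 : ℂ) - t) ≠ 0 := by
      have : ((1 - t : ℝ) : ℂ) ≠ 0 := by exact_mod_cast h1.ne'
      simpa using this
    have h3 : v = z + t * (u - z) := by rw [← hw]; ring
    rw [h3]
    simp only [Complex.real_smul]
    push_cast
    field_simp
    ring

lemma continuousAt_ang {z u v : ℂ} (hz : z ∉ segment ℝ u v) :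
    ContinuousAt (fun w => ang w u v) z := by
  have huz : u - z ≠ 0 := by
    intro h
    apply hz
    rw [sub_eq_zero] at h
    rw [← h]
    exact left_mem_segment ℝ u v
  have h1 : ContinuousAt (fun w : ℂ => (v - w) / (u - w)) z := by
    apply ContinuousAt.div _ _ huz <;> fun_prop
  exact ContinuousAt.comp (f := fun w : ℂ => (v - w) / (u - w)) (g := Complex.arg)
    (Complex.continuousAt_arg (div_mem_slitPlane hz)) h1

lemma ang_swap {z u v : ℂ} (hz : z ∉ segment ℝ u v) : ang z v u = - ang z u v := by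
  have h := div_mem_slitPlane hz
  unfold ang
  rw [← inv_div, Complex.arg_inv, if_neg]
  exact (Complex.mem_slitPlane_iff_arg.1 h).1

lemma tendsto_ang_cobounded (u v : ℂ) :
    Tendsto (fun z => ang z u v) (Bornology.cobounded ℂ) (𝓝 0) := by
  have h1 : Tendsto (fun z : ℂ => u - z) (Bornology.cobounded ℂ) (Bornology.cobounded ℂ) := by
    have := tendsto_neg_cobounded.comp (tendsto_sub_const_cobounded u)
    refine this.congr fun z => ?_
    simp
  have h2 : Tendsto (fun z : ℂ => (u - z)⁻¹) (Bornology.cobounded ℂ) (𝓝 0) :=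
    tendsto_inv₀_cobounded.comp h1
  have h3 : Tendsto (fun z : ℂ => 1 + (v - u) * (u - z)⁻¹) (Bornology.cobounded ℂ) (𝓝 1) := by
    have := (h2.const_mul (v - u)).const_add 1
    simpa using this
  have h4 : Tendsto (fun z : ℂ => (v - z) / (u - z)) (Bornology.cobounded ℂ) (𝓝 1) := by
    refine h3.congr' ?_
    have : ∀ᶠ z in Bornology.cobounded ℂ, z ∉ ({u} : Set ℂ) := by
      have hb : Bornology.IsBounded ({u} : Set ℂ) := Bornology.isBounded_singleton
      rw [Bornology.isBounded_def] at hb
      exact hb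
    filter_upwards [this] with z hz
    have hz' : u - z ≠ 0 := by
      intro h
      exact hz (by simp [sub_eq_zero.1 h])
    field_simp
    ring
  have h5 := (Complex.continuousAt_arg Complex.one_mem_slitPlane).tendsto.comp h4
  rw [Complex.arg_one] at h5
  exact h5

/-- `Rot z u v θ`: turning by the angle `θ` around `z` takes the ray through `u` to that
through `v`. -/
def Rot (z u v : ℂ) (θ : ℝ) : Prop := ∃ c : ℝ, 0 < c ∧ v - z = c * Complex.exp (θ * I) * (u - z)

lemma Rot.refl (z u : ℂ) : Rot z u u 0 := ⟨1, one_pos, by simp⟩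

lemma Rot.trans {z u v w : ℂ} {θ φ : ℝ} (h1 : Rot z u v θ) (h2 : Rot z v w φ) :
    Rot z u w (θ + φ) := by
  obtain ⟨c, hc, h1⟩ := h1
  obtain ⟨d, hd, h2⟩ := h2
  refine ⟨d * c, by positivity, ?_⟩
  rw [h2, h1]
  push_cast
  rw [add_mul, Complex.exp_add]
  ring

lemma Rot.ang {z u v : ℂ} (hz : z ∉ segment ℝ u v) : Rot z u v (ang z u v) := by
  have huz : u - z ≠ 0 := by
    intro h
    apply hz
    rw [sub_eq_zero] at h
    rw [← h]
    exact left_mem_segment ℝ u v
  have hvz : v - z ≠ 0 := by
    intro h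
    apply hz
    rw [sub_eq_zero] at h
    rw [← h]
    exact right_mem_segment ℝ u v
  refine ⟨‖(v - z) / (u - z)‖, norm_pos_iff.2 (div_ne_zero hvz huz), ?_⟩
  unfold VisGraph.ang
  rw [Complex.norm_mul_exp_arg_mul_I]
  field_simp

lemma Rot.closed {z u : ℂ} {θ : ℝ} (hu : u ≠ z) (h : Rot z u u θ) :
    ∃ k : ℤ, θ = 2 * Real.pi * k := by
  obtain ⟨c, hc, h⟩ := h
  have huz : u - z ≠ 0 := sub_ne_zero.2 hu
  have h1 : (c : ℂ) * Complex.exp (θ * I) = 1 := by
    have : (u - z) * (c * Complex.exp (θ * I)) = (u - z) * 1 := by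
      rw [mul_one]
      conv_rhs => rw [h]
      ring
    exact mul_left_cancel₀ huz this
  have h2 : c = 1 := by
    have := congrArg norm h1
    rw [norm_mul, Complex.norm_exp_ofReal_mul_I, mul_one, norm_one, Complex.norm_real,
      Real.norm_eq_abs, abs_of_pos hc] at this
    exact this
  rw [h2, Complex.ofReal_one, one_mul, Complex.exp_eq_one_iff] at h1
  obtain ⟨k, hk⟩ := h1
  refine ⟨k, ?_⟩
  have h3 : (θ : ℂ) = ((2 * Real.pi * k : ℝ) : ℂ) := by
    have hI : (I : ℂ) ≠ 0 := Complex.I_ne_zero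
    apply mul_right_cancel₀ hI
    rw [hk]
    push_cast
    ring
  exact_mod_cast h3

/-- A continuous function with values in `2πℤ` is constant on preconnected sets. -/
lemma const_of_preconnected {S : Set ℂ} (hS : IsPreconnected S) {g : ℂ → ℝ}
    (hc : ContinuousOn g S) (hi : ∀ z ∈ S, ∃ k : ℤ, g z = 2 * Real.pi * k)
    {x y : ℂ} (hx : x ∈ S) (hy : y ∈ S) : g x = g y := by
  have key : ∀ x ∈ S, ∀ y ∈ S, ¬ g x < g y := by
    intro x hx y hy hlt
    obtain ⟨k, hk⟩ := hi x hx
    obtain ⟨l, hl⟩ := hi y hy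
    have hpi := Real.pi_pos
    have hkl : k < l := by
      rw [hk, hl] at hlt
      have : (k : ℝ) < l := by
        by_contra hcon
        push Not at hcon
        nlinarith
      exact_mod_cast this
    have hkl' : (k : ℝ) + 1 ≤ l := by exact_mod_cast hkl
    have hmem : 2 * Real.pi * (k + 1 / 2) ∈ Icc (g x) (g y) := by
      rw [hk, hl]
      constructor <;> nlinarith
    obtain ⟨m, hm, hgm⟩ := hS.intermediate_value hx hy hc hmem
    obtain ⟨j, hj⟩ := hi m hm
    rw [hj] at hgm
    have h1 : (j : ℝ) = k + 1 / 2 := by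
      have h2 : (2 * Real.pi) ≠ 0 := by positivity
      exact mul_left_cancel₀ h2 hgm
    have h3 : ((2 * j : ℤ) : ℝ) = ((2 * k + 1 : ℤ) : ℝ) := by
      push_cast
      linarith
    have h4 : 2 * j = 2 * k + 1 := by exact_mod_cast h3
    omega
  exact le_antisymm (not_lt.1 (key y hy x hx)) (not_lt.1 (key x hx y hy))

/-- A continuous function with values in `2πℤ` which tends to zero at infinity vanishes on
unbounded preconnected sets. -/
lemma zero_of_unbounded {S : Set ℂ} (hS : IsPreconnected S) (hub : ¬ Bornology.IsBounded S)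
    {g : ℂ → ℝ} (hc : ContinuousOn g S) (hi : ∀ z ∈ S, ∃ k : ℤ, g z = 2 * Real.pi * k)
    (h0 : Tendsto g (Bornology.cobounded ℂ) (𝓝 0)) {x : ℂ} (hx : x ∈ S) : g x = 0 := by
  have h1 : ∀ᶠ z in Bornology.cobounded ℂ, |g z| < 1 := by
    have := h0.eventually (Metric.ball_mem_nhds (0 : ℝ) one_pos)
    filter_upwards [this] with z hz
    simpa [Real.dist_eq] using hz
  have h2 : ∃ y ∈ S, |g y| < 1 := by
    by_contra hcon
    push Not at hcon
    apply hub
    have h3 : {z | |g z| < 1}ᶜ ∈ {s : Set ℂ | Bornology.IsBounded s} := by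
      rw [Set.mem_ofPred_eq, Bornology.isBounded_def, compl_compl]
      exact h1
    refine Bornology.IsBounded.subset h3 ?_
    intro z hz
    simp only [mem_compl_iff, mem_ofPred_eq, not_lt]
    exact hcon z hz
  obtain ⟨y, hy, hgy⟩ := h2
  rw [const_of_preconnected hS hc hi hx hy]
  obtain ⟨k, hk⟩ := hi y hy
  rw [hk] at hgy ⊢
  have hpi := Real.pi_gt_three
  have hk0 : k = 0 := by
    by_contra hne
    have h4 : (1 : ℝ) ≤ |(k : ℝ)| := by
      have : (1 : ℤ) ≤ |k| := Int.one_le_abs hne
      have h5 : ((1 : ℤ) : ℝ) ≤ ((|k| : ℤ) : ℝ) := by exact_mod_cast this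
      simpa using h5
    rw [abs_mul, abs_of_pos (by positivity : (0 : ℝ) < 2 * Real.pi)] at hgy
    nlinarith
  simp [hk0]

/-- The jump of a winding number across a segment. -/
lemma jump {F : ℂ → ℝ} {u v q : ℂ} (huv : u ≠ v) (hq : q ∈ openSegment ℝ u v)
    (hF : ContinuousAt F q)
    (hW : ∀ᶠ z in 𝓝 q, orient u v z ≠ 0 → ∃ k : ℤ, F z + ang z u v = 2 * Real.pi * k) :
    ∃ r > 0, ∀ z z', dist z q < r → dist z' q < r → orient u v z < 0 → 0 < orient u v z' →
      F z' + ang z' u v = F z + ang z u v + 2 * Real.pi := by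
  obtain ⟨s, t, hs, ht, hst, hqe⟩ := hq
  have huq : u - q = (t : ℂ) * (u - v) := by
    rw [← hqe]
    simp only [Complex.real_smul]
    have : (s : ℂ) = 1 - t := by
      have h : s = 1 - t := by linarith
      rw [h]; push_cast; ring
    rw [this]; ring
  have hvq : v - q = -(s : ℂ) * (u - v) := by
    rw [← hqe]
    simp only [Complex.real_smul]
    have : (t : ℂ) = 1 - s := by
      have h : t = 1 - s := by linarith
      rw [h]; push_cast; ring
    rw [this]; ring
  have huv' : u - v ≠ 0 := sub_ne_zero.2 huv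
  have htC : (t : ℂ) ≠ 0 := by exact_mod_cast ht.ne'
  have huq0 : u - q ≠ 0 := by rw [huq]; exact mul_ne_zero htC huv'
  have hquot : (v - q) / (u - q) = ((-(s / t) : ℝ) : ℂ) := by
    rw [huq, hvq]
    push_cast
    field_simp
  have hre : ((v - q) / (u - q)).re < 0 := by
    rw [hquot, Complex.ofReal_re]
    have : 0 < s / t := by positivity
    linarith
  have him : ((v - q) / (u - q)).im = 0 := by rw [hquot, Complex.ofReal_im]
  have hcont : ContinuousAt (fun w : ℂ => (v - w) / (u - w)) q := by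
    apply ContinuousAt.div _ _ huq0 <;> fun_prop
  have hpi := Real.pi_pos
  have hne : ∀ᶠ z in 𝓝 q, u - z ≠ 0 := by
    have : ContinuousAt (fun w : ℂ => u - w) q := by fun_prop
    exact this.eventually_ne huq0
  -- the two one sided limits
  have hneg : ∀ᶠ z in 𝓝 q, orient u v z < 0 → |ang z u v + Real.pi| < Real.pi / 4 := by
    have h1 := Complex.tendsto_arg_nhdsWithin_im_neg_of_re_neg_of_im_zero hre him
    have h2 : ∀ᶠ w in 𝓝[{z : ℂ | z.im < 0}] ((v - q) / (u - q)),
        |Complex.arg w + Real.pi| < Real.pi / 4 := by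
      have := h1.eventually (Metric.ball_mem_nhds (-Real.pi) (by positivity : 0 < Real.pi / 4))
      filter_upwards [this] with w hw
      have hw' : dist (Complex.arg w) _ < _ := hw
      rw [Real.dist_eq] at hw'
      simpa using hw'
    rw [eventually_nhdsWithin_iff] at h2
    filter_upwards [hcont.eventually h2, hne] with z hz hzu ho
    apply hz
    show ((v - z) / (u - z)).im < 0
    rw [im_div_eq]
    exact div_neg_of_neg_of_pos ho (Complex.normSq_pos.2 hzu)
  have hpos : ∀ᶠ z in 𝓝 q, 0 < orient u v z → |ang z u v - Real.pi| < Real.pi / 4 := by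
    have h1 := Complex.tendsto_arg_nhdsWithin_im_nonneg_of_re_neg_of_im_zero hre him
    have h2 : ∀ᶠ w in 𝓝[{z : ℂ | 0 ≤ z.im}] ((v - q) / (u - q)),
        |Complex.arg w - Real.pi| < Real.pi / 4 := by
      have := h1.eventually (Metric.ball_mem_nhds (Real.pi) (by positivity : 0 < Real.pi / 4))
      filter_upwards [this] with w hw
      have hw' : dist (Complex.arg w) _ < _ := hw
      rw [Real.dist_eq] at hw'
      simpa using hw'
    rw [eventually_nhdsWithin_iff] at h2
    filter_upwards [hcont.eventually h2, hne] with z hz hzu ho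
    apply hz
    show 0 ≤ ((v - z) / (u - z)).im
    rw [im_div_eq]
    exact div_nonneg ho.le (Complex.normSq_nonneg _)
  have hFe : ∀ᶠ z in 𝓝 q, |F z - F q| < Real.pi / 4 := by
    have := hF.eventually (Metric.ball_mem_nhds (F q) (by positivity : 0 < Real.pi / 4))
    filter_upwards [this] with w hw
    have hw' : dist (F w) (F q) < _ := hw
    rwa [Real.dist_eq] at hw'
  obtain ⟨r, hr, hball⟩ := Metric.eventually_nhds_iff.1 (hneg.and (hpos.and (hFe.and hW)))
  refine ⟨r, hr, ?_⟩
  intro z z' hz hz' ho ho'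
  obtain ⟨h1, -, h3, h4⟩ := hball hz
  obtain ⟨-, h2', h3', h4'⟩ := hball hz'
  obtain ⟨k, hk⟩ := h4 ho.ne
  obtain ⟨l, hl⟩ := h4' ho'.ne'
  have h1 := abs_lt.1 (h1 ho)
  have h2' := abs_lt.1 (h2' ho')
  have h3 := abs_lt.1 h3
  have h3' := abs_lt.1 h3'
  have hlk : l = k + 1 := by
    have ha : 2 * Real.pi * ((l : ℝ) - k - 1) < Real.pi := by
      have : 2 * Real.pi * ((l : ℝ) - k - 1) = (F z' + ang z' u v) - (F z + ang z u v)
          - 2 * Real.pi := by rw [hk, hl]; ring
      rw [this]; linarith [h1.1, h1.2, h2'.1, h2'.2, h3.1, h3.2, h3'.1, h3'.2]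
    have hb : -Real.pi < 2 * Real.pi * ((l : ℝ) - k - 1) := by
      have : 2 * Real.pi * ((l : ℝ) - k - 1) = (F z' + ang z' u v) - (F z + ang z u v)
          - 2 * Real.pi := by rw [hk, hl]; ring
      rw [this]; linarith [h1.1, h1.2, h2'.1, h2'.2, h3.1, h3.2, h3'.1, h3'.2]
    have hc : (l : ℝ) - k - 1 < 1 := by nlinarith
    have hd : -1 < (l : ℝ) - k - 1 := by nlinarith
    have hc' : (l : ℝ) < k + 2 := by linarith
    have hd' : (k : ℝ) < l := by linarith
    have hc'' : l < k + 2 := by exact_mod_cast hc'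
    have hd'' : k < l := by exact_mod_cast hd'
    omega
  rw [hk, hl, hlk]
  push_cast
  ring

/-- Symmetric version of `jump`. -/
lemma jump' {F : ℂ → ℝ} {u v q : ℂ} (huv : u ≠ v) (hq : q ∈ openSegment ℝ u v)
    (hF : ContinuousAt F q)
    (hW : ∀ᶠ z in 𝓝 q, orient u v z ≠ 0 → ∃ k : ℤ, F z + ang z u v = 2 * Real.pi * k)
    {ε : ℝ} (hε : ε = 1 ∨ ε = -1) :
    ∃ r > 0, ∀ z z', dist z q < r → dist z' q < r → ε * orient u v z < 0 →
      0 < ε * orient u v z' →
      F z' + ang z' u v = F z + ang z u v + 2 * Real.pi * ε := by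
  obtain ⟨r, hr, h⟩ := jump huv hq hF hW
  refine ⟨r, hr, ?_⟩
  intro z z' hz hz' h1 h2
  rcases hε with rfl | rfl
  · rw [h z z' hz hz' (by linarith) (by linarith)]; ring
  · rw [h z' z hz' hz (by linarith) (by linarith)]; ring

end Pool.Agent.VisGraph
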